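import Mathlib

/-!
Numerical lemmas for `Block.lean`.
-/

open Finset MeasureTheory

namespace H426AM.BlockNum

lemma numS {C c ε X1 K D m A Z : ℝ} (hC : 0 < C) (hc : 1 ≤ c) (hε : 0 < ε) (hε1 : ε ≤ 1 / 100)
    (hX1 : 1 ≤ X1) (hK : 1 ≤ K) (hKX : K ≤ 2 * X1) (hXK : X1 ^ (1 / 2 + ε) ≤ 2 * K)
    (hD : X1 ^ ε ≤ D) (hm : 1 ≤ m) (hDm : D * m ≤ X1 ^ (1 / 2 - ε)) (hA0 : 0 ≤ A)
    (hA : A ≤ c * (D * m) * (K / X1)) (hZ0 : 0 ≤ Z) (hZ : Z ≤ 3 * X1) :
    Real.sqrt (K * (C * (D * m * (A + 1) * (Z + 1)) ^ (ε / 30) * (K + D ^ 2) *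
      (A * Z + D ^ 2) * (A * Z) / (D ^ 3 * m ^ 4))) ≤
      (1 + 12 * C * (3 * c + 2) ^ 2 * (2 * c + 1)) * K ^ 2 * X1 ^ (-(9 / 20 * ε)) * (1 / m) := by
  have hX0 : 0 < X1 := by linarith
  have hK0 : 0 < K := by linarith
  have hXε : 1 ≤ X1 ^ ε := Real.one_le_rpow hX1 hε.le
  have hD1 : 1 ≤ D := hXε.trans hD
  have hD0 : 0 < D := by linarith
  have hm0 : 0 < m := by linarith
  set E : ℝ := 1 + 12 * C * (3 * c + 2) ^ 2 * (2 * c + 1) with hE
  have hE1 : 1 ≤ E := by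
    rw [hE]
    have : 0 ≤ 12 * C * (3 * c + 2) ^ 2 * (2 * c + 1) := by positivity
    linarith
  -- H
  have hX12 : X1 ^ (1 / 2 - ε) ≤ X1 := by
    calc X1 ^ (1 / 2 - ε) ≤ X1 ^ (1 : ℝ) :=
          Real.rpow_le_rpow_of_exponent_le hX1 (by linarith)
      _ = X1 := Real.rpow_one _
  have hDmX : D * m ≤ X1 := hDm.trans hX12
  have hDm1 : 1 ≤ D * m := by nlinarith
  have hKX1 : K / X1 ≤ 2 := by rw [div_le_iff₀ hX0]; linarith
  have hA1 : A + 1 ≤ (2 * c + 1) * X1 := by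
    have : c * (D * m) * (K / X1) ≤ c * X1 * 2 := by
      have h0 : 0 ≤ K / X1 := by positivity
      gcongr
    nlinarith
  have hZ1 : Z + 1 ≤ 4 * X1 := by linarith
  set H : ℝ := D * m * (A + 1) * (Z + 1) with hH
  have hHle : H ≤ 4 * (2 * c + 1) * X1 ^ 3 := by
    calc H ≤ X1 * ((2 * c + 1) * X1) * (4 * X1) := by
          rw [hH]; gcongr
      _ = _ := by ring
  have hH0 : 0 ≤ H := by rw [hH]; positivity
  have hHδ : H ^ (ε / 30) ≤ 4 * (2 * c + 1) * X1 ^ (ε / 10) := by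
    have h1 : (1 : ℝ) ≤ 4 * (2 * c + 1) := by linarith
    calc H ^ (ε / 30) ≤ (4 * (2 * c + 1) * X1 ^ 3) ^ (ε / 30) :=
          Real.rpow_le_rpow hH0 hHle (by positivity)
      _ = (4 * (2 * c + 1)) ^ (ε / 30) * (X1 ^ 3) ^ (ε / 30) :=
          Real.mul_rpow (by positivity) (by positivity)
      _ ≤ (4 * (2 * c + 1)) * X1 ^ (ε / 10) := by
          have h2 : (4 * (2 * c + 1)) ^ (ε / 30) ≤ (4 * (2 * c + 1)) ^ (1 : ℝ) :=
            Real.rpow_le_rpow_of_exponent_le h1 (by linarith)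
          rw [Real.rpow_one] at h2
          have h3 : (X1 ^ 3) ^ (ε / 30) = X1 ^ (ε / 10) := by
            rw [← Real.rpow_natCast X1 3, ← Real.rpow_mul hX0.le]
            congr 1
            push_cast
            ring
          rw [h3]
          gcongr
  -- A Z
  set P : ℝ := D * m * K with hP
  have hP0 : 0 < P := by rw [hP]; positivity
  have hAZ : A * Z ≤ 3 * c * P := by
    calc A * Z ≤ (c * (D * m) * (K / X1)) * (3 * X1) := by gcongr
      _ = 3 * c * P := by rw [hP]; field_simp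
  have hDle : D ≤ 2 * K * X1 ^ (-(2 * ε)) := by
    have h1 : D ≤ X1 ^ (1 / 2 - ε) := by
      refine le_trans ?_ hDm
      nlinarith
    calc D ≤ X1 ^ (1 / 2 - ε) := h1
      _ = X1 ^ (1 / 2 + ε) * X1 ^ (-(2 * ε)) := by
          rw [← Real.rpow_add hX0]; congr 1; ring
      _ ≤ 2 * K * X1 ^ (-(2 * ε)) := by gcongr
  have hX2ε : X1 ^ (-(2 * ε)) ≤ 1 := Real.rpow_le_one_of_one_le_of_nonpos hX1 (by linarith)
  have hDK : D ≤ 2 * K := by
    refine hDle.trans ?_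
    have : 0 < 2 * K := by linarith
    nlinarith
  have hD2 : D ^ 2 ≤ 2 * P := by
    rw [hP]
    calc D ^ 2 = D * D := by ring
      _ ≤ D * (2 * K) := by gcongr
      _ ≤ (D * m) * (2 * K) := by
          have : D ≤ D * m := by nlinarith
          gcongr
      _ = _ := by ring
  have hKD : K * (K + D ^ 2) ≤ 3 * K ^ 2 * D * X1 ^ (-ε) := by
    have h1 : K ^ 2 ≤ K ^ 2 * D * X1 ^ (-ε) := by
      have h2 : 1 ≤ D * X1 ^ (-ε) := by
        rw [Real.rpow_neg hX0.le, ← div_eq_mul_inv, le_div_iff₀ (by positivity)]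
        linarith
      calc K ^ 2 = K ^ 2 * 1 := by ring
        _ ≤ K ^ 2 * (D * X1 ^ (-ε)) := by gcongr
        _ = _ := by ring
    have h2 : K * D ^ 2 ≤ 2 * (K ^ 2 * D * X1 ^ (-ε)) := by
      have h3 : X1 ^ (-(2 * ε)) ≤ X1 ^ (-ε) :=
        Real.rpow_le_rpow_of_exponent_le hX1 (by linarith)
      calc K * D ^ 2 = K * D * D := by ring
        _ ≤ K * D * (2 * K * X1 ^ (-(2 * ε))) := by gcongr
        _ ≤ K * D * (2 * K * X1 ^ (-ε)) := by gcongr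
        _ = _ := by ring
    nlinarith
  -- final
  have hin : K * (C * H ^ (ε / 30) * (K + D ^ 2) *
      (A * Z + D ^ 2) * (A * Z) / (D ^ 3 * m ^ 4)) ≤
      (E * K ^ 2 * X1 ^ (-(9 / 20 * ε)) * (1 / m)) ^ 2 := by
    have hAZ0 : 0 ≤ A * Z := by positivity
    have e1 : K * (C * H ^ (ε / 30) * (K + D ^ 2) *
      (A * Z + D ^ 2) * (A * Z) / (D ^ 3 * m ^ 4)) =
      C * H ^ (ε / 30) * (K * (K + D ^ 2)) * (A * Z + D ^ 2) * (A * Z) / (D ^ 3 * m ^ 4) := by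
      ring
    rw [e1]
    have h1 : C * H ^ (ε / 30) * (K * (K + D ^ 2)) * (A * Z + D ^ 2) * (A * Z) ≤
        C * (4 * (2 * c + 1) * X1 ^ (ε / 10)) * (3 * K ^ 2 * D * X1 ^ (-ε)) *
          ((3 * c + 2) * P) * ((3 * c + 2) * P) := by
      have h2 : A * Z + D ^ 2 ≤ (3 * c + 2) * P := by nlinarith
      have h3 : A * Z ≤ (3 * c + 2) * P := by nlinarith
      gcongr
    calc C * H ^ (ε / 30) * (K * (K + D ^ 2)) * (A * Z + D ^ 2) * (A * Z) / (D ^ 3 * m ^ 4)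
        ≤ C * (4 * (2 * c + 1) * X1 ^ (ε / 10)) * (3 * K ^ 2 * D * X1 ^ (-ε)) *
          ((3 * c + 2) * P) * ((3 * c + 2) * P) / (D ^ 3 * m ^ 4) := by gcongr
      _ = (12 * C * (3 * c + 2) ^ 2 * (2 * c + 1)) * (X1 ^ (ε / 10) * X1 ^ (-ε)) *
          (K ^ 4 * (1 / m) ^ 2) := by
          rw [hP]; field_simp; ring
      _ ≤ E * (X1 ^ (ε / 10) * X1 ^ (-ε)) * (K ^ 4 * (1 / m) ^ 2) := by
          have : 12 * C * (3 * c + 2) ^ 2 * (2 * c + 1) ≤ E := by rw [hE]; linarith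
          gcongr
      _ ≤ E ^ 2 * (X1 ^ (ε / 10) * X1 ^ (-ε)) * (K ^ 4 * (1 / m) ^ 2) := by
          have : E ≤ E ^ 2 := by nlinarith
          gcongr
      _ = (E * K ^ 2 * X1 ^ (-(9 / 20 * ε)) * (1 / m)) ^ 2 := by
          have e2 : X1 ^ (ε / 10) * X1 ^ (-ε) = (X1 ^ (-(9 / 20 * ε))) ^ 2 := by
            rw [← Real.rpow_add hX0, ← Real.rpow_natCast (X1 ^ _) 2, ← Real.rpow_mul hX0.le]
            congr 1
            push_cast
            ring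
          rw [e2]
          ring
  calc Real.sqrt _ ≤ Real.sqrt ((E * K ^ 2 * X1 ^ (-(9 / 20 * ε)) * (1 / m)) ^ 2) :=
        Real.sqrt_le_sqrt hin
    _ = _ := Real.sqrt_sq (by positivity)

/-- powers beat logarithms -/
lemma large (C a : ℝ) (ha : 0 < a) : ∃ X0 : ℝ, 1 ≤ X0 ∧ ∀ X : ℝ, X0 ≤ X →
    C * (1 + Real.log X) ^ 3 ≤ X ^ a := by
  have h1 : ∀ X : ℝ, 1 ≤ X → (1 + Real.log X) ^ 3 ≤ (1 + 6 / a) ^ 3 * X ^ (a / 2) := by
    intro X hX
    have hX0 : 0 < X := by linarith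
    have h2 : Real.log X ≤ X ^ (a / 6) / (a / 6) := Real.log_le_rpow_div hX0.le (by positivity)
    have h3 : 1 ≤ X ^ (a / 6) := Real.one_le_rpow hX (by positivity)
    have h4 : 0 ≤ Real.log X := Real.log_nonneg hX
    have h5 : 1 + Real.log X ≤ (1 + 6 / a) * X ^ (a / 6) := by
      have : X ^ (a / 6) / (a / 6) = 6 / a * X ^ (a / 6) := by field_simp
      rw [this] at h2
      nlinarith
    calc (1 + Real.log X) ^ 3 ≤ ((1 + 6 / a) * X ^ (a / 6)) ^ 3 := by gcongr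
      _ = (1 + 6 / a) ^ 3 * X ^ (a / 2) := by
          rw [mul_pow, ← Real.rpow_natCast (X ^ (a / 6)) 3, ← Real.rpow_mul hX0.le]
          congr 2
          push_cast
          ring
  have h2 := (tendsto_rpow_atTop (by positivity : 0 < a / 2)).eventually_ge_atTop
    (|C| * (1 + 6 / a) ^ 3)
  obtain ⟨X0, hX0⟩ := Filter.eventually_atTop.1 h2
  refine ⟨max X0 1, le_max_right _ _, fun X hX => ?_⟩
  have hX1 : 1 ≤ X := (le_max_right _ _).trans hX
  have hX0' : 0 < X := by linarith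
  have h3 := hX0 X ((le_max_left _ _).trans hX)
  have h4 : 0 ≤ 1 + Real.log X := by have := Real.log_nonneg hX1; linarith
  calc C * (1 + Real.log X) ^ 3 ≤ |C| * (1 + Real.log X) ^ 3 := by
        have := le_abs_self C
        gcongr
    _ ≤ |C| * ((1 + 6 / a) ^ 3 * X ^ (a / 2)) := by
        have := h1 X hX1
        gcongr
    _ = (|C| * (1 + 6 / a) ^ 3) * X ^ (a / 2) := by ring
    _ ≤ X ^ (a / 2) * X ^ (a / 2) := by gcongr
    _ = X ^ a := by rw [← Real.rpow_add hX0']; congr 1; ring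

end H426AM.BlockNum
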