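import Pool.Agent.H426AM.Defs

/-! ### A10 DualLS : dual multiplicative large sieve -/

open Finset MeasureTheory

namespace H426AM

open H343 H343.KF H336V H336V.PairA

theorem dual_ls (K D : ℕ) (c : (Σ q : ℕ, DirichletCharacter ℂ q) → ℂ) :
    ∑ k ∈ Ioc K (2 * K), ‖∑ p ∈ PC D, c p * p.2⁻¹ (-(k : ZMod p.1))‖ ^ 2 ≤
      24 * ((2 * K : ℝ) + (D : ℝ) ^ 2) * ∑ p ∈ PC D, ‖c p‖ ^ 2 := by
  classical
  set b : ℕ → ℂ := fun k => ∑ p ∈ PC D, c p * p.2⁻¹ (-(k : ZMod p.1)) with hb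
  set S : ℝ := ∑ k ∈ Ioc K (2 * K), ‖b k‖ ^ 2 with hS
  have hS0 : 0 ≤ S := sum_nonneg fun _ _ => by positivity
  set Tp : (Σ q : ℕ, DirichletCharacter ℂ q) → ℂ :=
    fun p => ∑ k ∈ Ioc K (2 * K), (starRingEnd ℂ) (b k) * p.2⁻¹ (-(k : ZMod p.1)) with hT
  -- the dual sums
  have hTn : ∀ p ∈ PC D, ‖Tp p‖ = ‖∑ k ∈ Ioc K (2 * K), b k * p.2 (k : ZMod p.1)‖ := by
    intro p hp
    have hp0 : p.1 ≠ 0 := by
      have := (mem_PC hp).1
      omega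
    have : NeZero p.1 := ⟨hp0⟩
    have h1 : (starRingEnd ℂ) (Tp p) =
        p.2 (-1) * ∑ k ∈ Ioc K (2 * K), b k * p.2 (k : ZMod p.1) := by
      simp only [hT, map_sum, map_mul, Complex.conj_conj, mul_sum]
      refine sum_congr rfl fun k _ => ?_
      have h2 : (starRingEnd ℂ) (p.2⁻¹ (-(k : ZMod p.1))) = p.2 (-(k : ZMod p.1)) := by
        have h3 := MulChar.star_apply' p.2 (-(k : ZMod p.1))
        rw [← h3]
        exact star_star _
      have h4 : p.2 (-(k : ZMod p.1)) = p.2 (-1) * p.2 (k : ZMod p.1) := by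
        rw [← map_mul]; congr 1; ring
      rw [h2, h4]
      ring
    have h5 : ‖p.2 (-1)‖ = 1 := by
      have h6 : p.2 (-1) * p.2 (-1) = 1 := by
        rw [← map_mul]; simp
      have h7 : ‖p.2 (-1)‖ * ‖p.2 (-1)‖ = 1 := by
        rw [← norm_mul, h6, norm_one]
      nlinarith [norm_nonneg (p.2 (-1))]
    calc ‖Tp p‖ = ‖(starRingEnd ℂ) (Tp p)‖ := (RCLike.norm_conj _).symm
      _ = _ := by rw [h1, norm_mul, h5, one_mul]
  have hTs : ∑ p ∈ PC D, ‖Tp p‖ ^ 2 ≤ 24 * ((2 * K : ℝ) + (D : ℝ) ^ 2) * S := by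
    have h := LSaux.prim_sum_le D (2 * K) (fun k => if k ∈ Ioc K (2 * K) then b k else 0)
    rw [sum_sigma'] at h
    have hsub : Ioc K (2 * K) ⊆ Icc 1 (2 * K) := by
      intro k hk
      rw [mem_Ioc] at hk
      rw [mem_Icc]
      omega
    have e1 : ∑ n ∈ Icc 1 (2 * K), ‖(if n ∈ Ioc K (2 * K) then b n else 0)‖ ^ 2 = S := by
      rw [hS, ← sum_subset hsub]
      · exact sum_congr rfl fun k hk => by rw [if_pos hk]
      · intro k _ hk
        rw [if_neg hk]; simp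
    have e2 : ∀ p : (Σ q : ℕ, DirichletCharacter ℂ q),
        ∑ n ∈ Icc 1 (2 * K), (if n ∈ Ioc K (2 * K) then b n else 0) * p.2 (n : ZMod p.1) =
        ∑ k ∈ Ioc K (2 * K), b k * p.2 (k : ZMod p.1) := by
      intro p
      rw [← sum_subset hsub]
      · exact sum_congr rfl fun k hk => by rw [if_pos hk]
      · intro k _ hk
        rw [if_neg hk, zero_mul]
    rw [e1] at h
    calc ∑ p ∈ PC D, ‖Tp p‖ ^ 2
        = ∑ p ∈ PC D, ‖∑ n ∈ Icc 1 (2 * K), (if n ∈ Ioc K (2 * K) then b n else 0) *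
            p.2 (n : ZMod p.1)‖ ^ 2 :=
          sum_congr rfl fun p hp => by rw [hTn p hp, e2 p]
      _ ≤ _ := by
          refine le_trans (le_of_eq ?_) (le_trans h (le_of_eq ?_))
          · rfl
          · push_cast; ring
  -- duality
  have hdual : (S : ℂ) = ∑ p ∈ PC D, c p * Tp p := by
    have h1 : (S : ℂ) = ∑ k ∈ Ioc K (2 * K), (starRingEnd ℂ) (b k) * b k := by
      rw [hS]
      push_cast
      refine sum_congr rfl fun k _ => ?_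
      rw [mul_comm, Complex.mul_conj, Complex.normSq_eq_norm_sq]
      push_cast; ring
    rw [h1]
    simp only [hT, mul_sum]
    rw [sum_comm]
    refine sum_congr rfl fun k _ => ?_
    conv_lhs => rw [hb]
    simp only
    rw [mul_sum]
    refine sum_congr rfl fun p _ => ?_
    simp only [hb]
    ring
  have hle : S ≤ Real.sqrt (∑ p ∈ PC D, ‖c p‖ ^ 2) * Real.sqrt (∑ p ∈ PC D, ‖Tp p‖ ^ 2) := by
    calc S = ‖(S : ℂ)‖ := by rw [Complex.norm_real, Real.norm_of_nonneg hS0]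
      _ = ‖∑ p ∈ PC D, c p * Tp p‖ := by rw [hdual]
      _ ≤ ∑ p ∈ PC D, ‖c p‖ * ‖Tp p‖ := by
          refine (norm_sum_le _ _).trans (le_of_eq (sum_congr rfl fun p _ => norm_mul _ _))
      _ ≤ _ := Real.sum_mul_le_sqrt_mul_sqrt _ _ _
  have hsq : S ^ 2 ≤ (∑ p ∈ PC D, ‖c p‖ ^ 2) * (24 * ((2 * K : ℝ) + (D : ℝ) ^ 2) * S) := by
    have hc0 : 0 ≤ ∑ p ∈ PC D, ‖c p‖ ^ 2 := sum_nonneg fun _ _ => by positivity
    have ht0 : 0 ≤ ∑ p ∈ PC D, ‖Tp p‖ ^ 2 := sum_nonneg fun _ _ => by positivity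
    calc S ^ 2 ≤ (Real.sqrt (∑ p ∈ PC D, ‖c p‖ ^ 2) * Real.sqrt (∑ p ∈ PC D, ‖Tp p‖ ^ 2)) ^ 2 :=
          pow_le_pow_left₀ hS0 hle 2
      _ = (∑ p ∈ PC D, ‖c p‖ ^ 2) * ∑ p ∈ PC D, ‖Tp p‖ ^ 2 := by
          rw [mul_pow, Real.sq_sqrt hc0, Real.sq_sqrt ht0]
      _ ≤ _ := mul_le_mul_of_nonneg_left hTs hc0
  have hgoal : S ≤ 24 * ((2 * K : ℝ) + (D : ℝ) ^ 2) * ∑ p ∈ PC D, ‖c p‖ ^ 2 := by
    rcases hS0.eq_or_lt with h0 | h0
    · rw [← h0]
      have hc0 : 0 ≤ ∑ p ∈ PC D, ‖c p‖ ^ 2 := sum_nonneg fun _ _ => by positivity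
      positivity
    · have : S * S ≤ (24 * ((2 * K : ℝ) + (D : ℝ) ^ 2) * ∑ p ∈ PC D, ‖c p‖ ^ 2) * S := by
        calc S * S = S ^ 2 := by ring
          _ ≤ _ := hsq
          _ = _ := by ring
      exact le_of_mul_le_mul_right this h0
  exact hgoal

end H426AM
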