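import Pool.Agent.H426AM.Defs

/-!
A4: Abel summation (helper379)
-/

open Finset MeasureTheory

namespace H426AM

open H343 H343.KF H336V H336V.PairA

open Classical in
theorem EE_le (lam : ℝ → ℝ) (X Y : ℝ) (hX : 1 ≤ X) (hY : 0 < Y) (k Q R N : ℕ)
    (W : ℝ) (h1 : ∀ y : ℕ, y ≤ ⌊X⌋₊ → ∀ τ : ℝ, |τ| ≤ 1 → ‖FT (lt lam τ) Y k Q R N y‖ ≤ W)
    (h2 : ∀ y : ℕ, y ≤ ⌊X⌋₊ → ∀ τ : ℝ, |τ| ≤ 1 →
      ‖FT (lt (fun v => lam v * Real.exp v) τ) Y k Q R N y‖ ≤ W) :
    ‖EE lam X Y k Q R N‖ ≤ (1 + 2 * Real.pi) * W := by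
  have hX0 : 0 < X := by linarith
  have hπ := Real.pi_pos
  have hM : 1 ≤ ⌊X⌋₊ := Nat.le_floor (by exact_mod_cast hX)
  have hMX : ((⌊X⌋₊ : ℕ) : ℝ) ≤ X := Nat.floor_le hX0.le
  have hW0 : 0 ≤ W := (norm_nonneg _).trans (h1 0 (Nat.zero_le _) 0 (by simp))
  set S : Finset (Σ q : ℕ, DirichletCharacter ℂ q) := (ModK k Q R).sigma
    (fun q => (univ : Finset (DirichletCharacter ℂ q)).filter (fun χ => χ ≠ 1)) with hS
  set wt : (Σ q : ℕ, DirichletCharacter ℂ q) → ℂ := fun p =>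
    mph p.1 * (p.2⁻¹ (-(k : ZMod p.1)) * GS p.2⁻¹) with hwt
  have hqS : ∀ p ∈ S, 1 ≤ p.1 := by
    intro p hp
    rw [hS, mem_sigma] at hp
    have := hp.1
    unfold ModK H343.Mod at this
    rw [mem_filter, mem_filter, mem_Ioc] at this
    omega
  have hEE : EE lam X Y k Q R N = ∑ p ∈ S, wt p * ZZ lam X Y N p.2 := by
    unfold EE
    rw [hS, sum_sigma]
    apply sum_congr rfl
    intro q _
    rw [mul_sum]
    apply sum_congr rfl
    intro χ _
    rw [hwt]
    ring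
  have hFT : ∀ (l : ℝ → ℂ) (y : ℕ), FT l Y k Q R N y =
      ∑ p ∈ S, wt p * (psiC y p.2 * KKc l Y N p.2) := by
    intro l y
    unfold FT
    rw [hS, sum_sigma]
    apply sum_congr rfl
    intro q _
    rw [mul_sum]
    apply sum_congr rfl
    intro χ _
    rw [hwt]
    ring
  have hint : ∀ (y : ℕ) (a b : ℝ), ∀ p ∈ S, IntervalIntegrable (fun u : ℝ =>
      wt p * (psiC y p.2 * ((2 * Real.pi * Complex.I) *
        KKc (lt (fun v => lam v * Real.exp v) (u - 1 / 2)) Y N p.2))) volume a b := by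
    intro y a b p _
    apply Continuous.intervalIntegrable
    have := KKc_cont (fun v => lam v * Real.exp v) Y N p.2
    fun_prop
  have key : EE lam X Y k Q R N = FT (lt lam (⌊X⌋₊ / X - 1 / 2)) Y k Q R N ⌊X⌋₊ -
      ∑ y ∈ Ico 1 ⌊X⌋₊, ∫ u in (y / X : ℝ)..((y + 1 : ℕ) / X : ℝ), (2 * Real.pi * Complex.I) *
        FT (lt (fun v => lam v * Real.exp v) (u - 1 / 2)) Y k Q R N y := by
    rw [hEE, hFT]
    have e1 : ∀ p ∈ S, wt p * ZZ lam X Y N p.2 =
        wt p * (psiC ⌊X⌋₊ p.2 * KKc (lt lam (⌊X⌋₊ / X - 1 / 2)) Y N p.2) -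
        ∑ y ∈ Ico 1 ⌊X⌋₊, ∫ u in (y / X : ℝ)..((y + 1 : ℕ) / X : ℝ),
          wt p * (psiC y p.2 * ((2 * Real.pi * Complex.I) *
            KKc (lt (fun v => lam v * Real.exp v) (u - 1 / 2)) Y N p.2)) := by
      intro p hp
      rw [ZZ_eq lam X Y N (hqS p hp) hY hX p.2, mul_sub, mul_sum]
      congr 1
      apply sum_congr rfl
      intro y _
      have e0 : ∀ (f : ℝ → ℂ) (a b : ℝ), ∫ u in a..b, wt p * (psiC y p.2 * f u) =
          wt p * (psiC y p.2 * ∫ u in a..b, f u) := by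
        intro f a b
        rw [intervalIntegral.integral_const_mul, intervalIntegral.integral_const_mul]
      exact (e0 _ _ _).symm
    rw [sum_congr rfl e1, sum_sub_distrib]
    congr 1
    rw [sum_comm]
    apply sum_congr rfl
    intro y _
    rw [← intervalIntegral.integral_finsetSum (fun p hp => hint y _ _ p hp)]
    congr 1
    ext u
    rw [hFT, mul_sum]
    apply sum_congr rfl
    intro p _
    ring
  rw [key]
  refine (norm_sub_le _ _).trans ?_
  have t1 : ‖FT (lt lam (⌊X⌋₊ / X - 1 / 2)) Y k Q R N ⌊X⌋₊‖ ≤ W := by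
    apply h1 _ le_rfl
    have h3 : (⌊X⌋₊ : ℝ) / X ≤ 1 := by rw [div_le_one hX0]; exact hMX
    have h0 : 0 ≤ (⌊X⌋₊ : ℝ) / X := by positivity
    rw [abs_le]
    constructor <;> linarith
  have t2 : ∀ y ∈ Ico 1 ⌊X⌋₊, ‖∫ u in (y / X : ℝ)..((y + 1 : ℕ) / X : ℝ),
      (2 * Real.pi * Complex.I) *
        FT (lt (fun v => lam v * Real.exp v) (u - 1 / 2)) Y k Q R N y‖ ≤
      2 * Real.pi * W * (1 / X) := by
    intro y hy
    rw [mem_Ico] at hy
    have hle : (y / X : ℝ) ≤ ((y + 1 : ℕ) / X : ℝ) := by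
      push_cast
      gcongr
      linarith
    have hyM : ((y + 1 : ℕ) : ℝ) ≤ X := by
      refine le_trans ?_ hMX
      exact_mod_cast hy.2
    have h3 := intervalIntegral.norm_integral_le_of_norm_le_const (C := 2 * Real.pi * W)
      (a := (y / X : ℝ)) (b := ((y + 1 : ℕ) / X : ℝ))
      (f := fun u => (2 * Real.pi * Complex.I) *
        FT (lt (fun v => lam v * Real.exp v) (u - 1 / 2)) Y k Q R N y) (by
        intro u hu
        rw [Set.uIoc_of_le hle] at hu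
        have h4 : ‖(2 * Real.pi * Complex.I : ℂ)‖ = 2 * Real.pi := by
          rw [norm_mul, norm_mul, Complex.norm_I, Complex.norm_real, Real.norm_eq_abs,
            abs_of_pos Real.pi_pos]
          simp
        rw [norm_mul, h4]
        apply mul_le_mul_of_nonneg_left _ (by positivity)
        apply h2 y hy.2.le
        have h5 : 0 ≤ (y : ℝ) / X := by positivity
        have h6 : ((y + 1 : ℕ) : ℝ) / X ≤ 1 := by rw [div_le_one hX0]; exact hyM
        have h7 := hu.1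
        have h8 := hu.2
        rw [abs_le]
        constructor <;> linarith)
    refine h3.trans (le_of_eq ?_)
    have h9 : ((y + 1 : ℕ) : ℝ) / X - (y : ℝ) / X = 1 / X := by
      push_cast
      ring
    rw [h9, abs_of_pos (by positivity)]
  have t3 : ‖∑ y ∈ Ico 1 ⌊X⌋₊, ∫ u in (y / X : ℝ)..((y + 1 : ℕ) / X : ℝ),
      (2 * Real.pi * Complex.I) *
        FT (lt (fun v => lam v * Real.exp v) (u - 1 / 2)) Y k Q R N y‖ ≤
      2 * Real.pi * W := by
    refine (norm_sum_le _ _).trans ((sum_le_sum t2).trans ?_)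
    rw [sum_const, nsmul_eq_mul]
    have hcard : (((Ico 1 ⌊X⌋₊).card : ℕ) : ℝ) ≤ X := by
      refine le_trans ?_ hMX
      rw [Nat.card_Ico]
      exact_mod_cast Nat.sub_le _ _
    calc (((Ico 1 ⌊X⌋₊).card : ℕ) : ℝ) * (2 * Real.pi * W * (1 / X))
        ≤ X * (2 * Real.pi * W * (1 / X)) :=
          mul_le_mul_of_nonneg_right hcard (by positivity)
      _ = 2 * Real.pi * W := by field_simp
  calc _ ≤ W + 2 * Real.pi * W := add_le_add t1 t3
    _ = (1 + 2 * Real.pi) * W := by ring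

end H426AM
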