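import Pool.Agent.H426AM.Defs
import Pool.Agent.H336R2.V.KeySharpOf

/-!
Splitting by conductors (task A5).
-/

open Finset MeasureTheory

namespace H426AM

open H343 H343.KF H336V H336V.PairA

namespace FTSplitAux

open Classical in
/-- equality version of the reduction to primitive characters -/
theorem reduce (m : ℕ) (hm0 : m ≠ 0) (w : DirichletCharacter ℂ m → ℂ)
    (W : (f : ℕ) → DirichletCharacter ℂ f → ℂ)
    (hW : ∀ f (h : f ∣ m) (ψ : DirichletCharacter ℂ f), ψ.IsPrimitive →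
      w (DirichletCharacter.changeLevel h ψ) = W f ψ) :
    ∑ χ ∈ (univ : Finset (DirichletCharacter ℂ m)).filter (fun χ => χ ≠ 1), w χ =
      ∑ f ∈ m.divisors.filter (fun f => f ≠ 1),
        ∑ ψ ∈ (univ : Finset (DirichletCharacter ℂ f)).filter (fun χ => χ.IsPrimitive), W f ψ := by
  have h1 : ∀ χ ∈ (univ : Finset (DirichletCharacter ℂ m)).filter (fun χ => χ ≠ 1),
      χ.conductor ∈ m.divisors.filter (fun f => f ≠ 1) := by
    intro χ hχ
    rw [mem_filter] at hχ ⊢
    refine ⟨Nat.mem_divisors.mpr ⟨χ.conductor_dvd_level, hm0⟩, ?_⟩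
    intro h
    have : NeZero m := ⟨hm0⟩
    exact hχ.2 (DirichletCharacter.eq_one_iff_conductor_eq_one.mpr h)
  rw [← sum_fiberwise_of_maps_to h1]
  apply sum_congr rfl
  intro f hf
  rw [mem_filter, Nat.mem_divisors] at hf
  have hfm := hf.1.1
  have h2 : (((univ : Finset (DirichletCharacter ℂ m)).filter (fun χ => χ ≠ 1)).filter
      (fun χ => χ.conductor = f)) =
      ((univ : Finset (DirichletCharacter ℂ f)).filter (fun χ => χ.IsPrimitive)).image
        (DirichletCharacter.changeLevel hfm) := by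
    ext χ
    constructor
    · intro hχ
      rw [mem_filter] at hχ
      obtain ⟨_, hc⟩ := hχ
      subst hc
      rw [mem_image]
      exact ⟨χ.primitiveCharacter, by
        rw [mem_filter]; exact ⟨mem_univ _, χ.primitiveCharacter_isPrimitive⟩,
        χ.changeLevel_primitiveCharacter⟩
    · intro h
      obtain ⟨ψ, hψ, rfl⟩ := mem_image.1 h
      have : NeZero m := ⟨hm0⟩
      have hc : (DirichletCharacter.changeLevel hfm ψ).conductor = f := by
        rw [DirichletCharacter.conductor_changeLevel]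
        exact (mem_filter.1 hψ).2
      refine (@mem_filter _ _ (_) _ _).2 ⟨(@mem_filter _ _ (_) _ _).2 ⟨mem_univ _, ?_⟩, hc⟩
      intro h1
      rw [DirichletCharacter.eq_one_iff_conductor_eq_one, hc] at h1
      exact hf.2 h1
  rw [h2, sum_image]
  · exact sum_congr rfl fun ψ hψ => hW f hfm ψ (mem_filter.mp hψ).2
  · intro x _ y _ hxy
    have : NeZero m := ⟨hm0⟩
    exact DirichletCharacter.changeLevel_injective hfm hxy

/-- dyadic splitting, equality -/
theorem dyadic_eq (g : ℕ → ℂ) (D0 J : ℕ) :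
    ∑ f ∈ Ioc D0 (2 ^ J * D0), g f =
      ∑ j ∈ range J, ∑ f ∈ Ioc (2 ^ j * D0) (2 * (2 ^ j * D0)), g f := by
  induction J with
  | zero => simp
  | succ J ih =>
    rw [sum_range_succ, ← ih]
    have : 2 ^ (J + 1) * D0 = 2 * (2 ^ J * D0) := by ring
    rw [this]
    refine (sum_Ioc_consecutive g ?_ ?_).symm
    · exact Nat.le_mul_of_pos_left _ (by positivity)
    · omega

/-- regrouping of the pairs `(q, f)`, `f ∣ q`, as pairs `(f, m)` -/
theorem regroup (S : ℕ → ℕ → ℂ) (T : Finset ℕ) (D0 R K : ℕ) (hT : ∀ q ∈ T, 1 ≤ q ∧ q ≤ R)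
    (hK : R ≤ K) :
    ∑ q ∈ T, ∑ f ∈ q.divisors.filter (fun f => D0 < f), S f (q / f) =
      ∑ m ∈ Icc 1 R, ∑ f ∈ Ioc D0 K, if f * m ∈ T then S f m else 0 := by
  have h1 : ∀ q ∈ T, ∑ f ∈ q.divisors.filter (fun f => D0 < f), S f (q / f) =
      ∑ f ∈ Ioc D0 K, ∑ m ∈ Icc 1 R, if f * m = q then S f m else 0 := by
    intro q hq
    obtain ⟨hq1, hqR⟩ := hT q hq
    have h2 : ∀ f ∈ Ioc D0 K, (∑ m ∈ Icc 1 R, if f * m = q then S f m else 0) =
        if f ∣ q then S f (q / f) else 0 := by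
      intro f hf
      have hf0 : 0 < f := by
        have := (mem_Ioc.1 hf).1
        omega
      by_cases hfq : f ∣ q
      · rw [if_pos hfq]
        have hmem : q / f ∈ Icc 1 R := by
          rw [mem_Icc]
          exact ⟨Nat.div_pos (Nat.le_of_dvd (by omega) hfq) hf0,
            (Nat.div_le_self _ _).trans hqR⟩
        rw [sum_eq_single_of_mem (q / f) hmem]
        · rw [if_pos (Nat.mul_div_cancel' hfq)]
        · intro m _ hm
          rw [if_neg]
          intro h
          apply hm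
          rw [← h, Nat.mul_div_cancel_left m hf0]
      · rw [if_neg hfq]
        apply sum_eq_zero
        intro m _
        rw [if_neg]
        intro h
        exact hfq (Dvd.intro m h)
    rw [sum_congr rfl h2, ← sum_filter]
    apply sum_congr _ (fun _ _ => rfl)
    ext f
    simp only [mem_filter, Nat.mem_divisors, mem_Ioc]
    constructor
    · rintro ⟨⟨h3, h4⟩, h5⟩
      exact ⟨⟨h5, ((Nat.le_of_dvd (by omega) h3).trans hqR).trans hK⟩, h3⟩
    · rintro ⟨⟨h3, h4⟩, h5⟩
      exact ⟨⟨h5, by omega⟩, h3⟩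
  rw [sum_congr rfl h1, sum_comm]
  rw [sum_comm (s := Icc 1 R)]
  apply sum_congr rfl
  intro f _
  rw [sum_comm]
  apply sum_congr rfl
  intro m _
  rw [sum_ite_eq]

/-- the value of an induced character at an integer coprime to the modulus -/
theorem changeLevel_val (f g k : ℕ) (ψ : DirichletCharacter ℂ f) (h : f ∣ f * g)
    (hk : k.Coprime (f * g)) :
    (DirichletCharacter.changeLevel h ψ)⁻¹ (-(k : ZMod (f * g))) = ψ⁻¹ (-(k : ZMod f)) := by
  have h1 : (DirichletCharacter.changeLevel h ψ)⁻¹ =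
      DirichletCharacter.changeLevel h ψ⁻¹ := (map_inv _ _).symm
  rw [h1]
  have h2 := DirichletCharacter.changeLevel_eq_cast_of_dvd' ψ⁻¹ h (a := -(k : ℤ))
    (by
      rw [IsCoprime.neg_left_iff]
      exact_mod_cast Nat.isCoprime_iff_coprime.mpr hk)
  push_cast at h2
  exact h2

open Classical in
/-- contribution of the conductor `f` and the cofactor `m` -/
noncomputable def Sm (l : ℝ → ℂ) (Y : ℝ) (k Q R N y f m : ℕ) : ℂ :=
  ∑ ψ ∈ (univ : Finset (DirichletCharacter ℂ f)).filter (fun χ => χ.IsPrimitive),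
    ww Q R m ⟨f, ψ⟩ * ψ⁻¹ (-(k : ZMod f)) * (psiCm y m ψ * KKcm l Y N m ψ)

theorem UU_eq (l : ℝ → ℂ) (Y : ℝ) (k Q R N y m D : ℕ) :
    UU l Y k Q R N y m D = ∑ f ∈ Ioc D (2 * D), Sm l Y k Q R N y f m := by
  unfold UU PC Sm
  rw [sum_sigma]

theorem Sm_zero (l : ℝ → ℂ) (Y : ℝ) (k Q R N y f m : ℕ) (hm : k.Coprime m)
    (h : f * m ∉ ModK k Q R) : Sm l Y k Q R N y f m = 0 := by
  classical
  unfold Sm
  apply sum_eq_zero
  intro ψ _
  unfold ww
  by_cases h1 : f * m ∈ Mod Q R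
  · have h2 : ¬ k.Coprime f := by
      intro h2
      apply h
      unfold ModK
      rw [mem_filter]
      exact ⟨h1, (Nat.Coprime.mul_right h2 hm).symm⟩
    have h3 : ψ⁻¹ (-(k : ZMod f)) = 0 := by
      apply MulChar.map_nonunit
      rw [IsUnit.neg_iff]
      exact fun hu => h2 ((ZMod.isUnit_iff_coprime k f).mp hu)
    rw [h3]
    ring
  · rw [if_neg h1]
    ring

theorem norm_mph (q : ℕ) : ‖mph q‖ ≤ 1 / (Nat.totient q : ℝ) ^ 2 := by
  unfold mph
  rw [Complex.norm_real, Real.norm_eq_abs, abs_div, abs_of_nonneg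
    (by positivity : (0 : ℝ) ≤ (Nat.totient q : ℝ) ^ 2)]
  have : |((ArithmeticFunction.moebius q : ℤ) : ℝ)| ≤ 1 := by
    exact_mod_cast ArithmeticFunction.abs_moebius_le_one
  gcongr

end FTSplitAux

open FTSplitAux

theorem FT_split (l : ℝ → ℂ) (Y : ℝ) (k Q R N y D0 J : ℕ) (hk : 1 ≤ k) (hD0 : 1 ≤ D0)
    (hJ : R ≤ 2 ^ J * D0) :
    ‖FT l Y k Q R N y‖ ≤
      ∑ q ∈ Mod Q R, 1 / (Nat.totient q : ℝ) ^ 2 *
        ∑ d ∈ q.divisors.filter (fun d => d ≠ 1 ∧ d ≤ D0), KeySharp.GGs l Y N y (q / d) d +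
      ∑ j ∈ range J, ∑ m ∈ Icc 1 R, ‖UU l Y k Q R N y m (2 ^ j * D0)‖ := by
  classical
  have hMod : ∀ q ∈ ModK k Q R, Q < q ∧ q ≤ R ∧ Squarefree q ∧ q.Coprime k := by
    intro q hq
    unfold ModK H343.Mod at hq
    rw [mem_filter, mem_filter, mem_Ioc] at hq
    exact ⟨hq.1.1.1, hq.1.1.2, hq.1.2, hq.2⟩
  -- the inner sum for one modulus
  have hin : ∀ q ∈ ModK k Q R, mph q *
      ∑ χ ∈ (univ : Finset (DirichletCharacter ℂ q)).filter (fun χ => χ ≠ 1),
        χ⁻¹ (-(k : ZMod q)) * GS χ⁻¹ * (psiC y χ * KKc l Y N χ) =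
      ∑ f ∈ q.divisors.filter (fun f => f ≠ 1), Sm l Y k Q R N y f (q / f) := by
    intro q hq
    obtain ⟨hQq, hqR, hsq, hqk⟩ := hMod q hq
    rw [mul_sum]
    unfold Sm
    apply reduce q (by omega)
      (fun χ => mph q * (χ⁻¹ (-(k : ZMod q)) * GS χ⁻¹ * (psiC y χ * KKc l Y N χ)))
      (fun f ψ => ww Q R (q / f) ⟨f, ψ⟩ * ψ⁻¹ (-(k : ZMod f)) *
        (psiCm y (q / f) ψ * KKcm l Y N (q / f) ψ))
    intro f h ψ hψ
    obtain ⟨g, rfl⟩ := h
    have hf0 : 0 < f := Nat.pos_of_ne_zero (by rintro rfl; simp at hQq)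
    have hg0 : 0 < g := Nat.pos_of_ne_zero (by rintro rfl; simp at hQq)
    rw [Nat.mul_div_cancel_left g hf0]
    rw [KeySharp.KKc_changeLevel, KeySharp.psiC_changeLevel, changeLevel_val f g k ψ _ hqk.symm]
    unfold ww
    rw [if_pos (by
      unfold ModK at hq
      exact (mem_filter.1 hq).1)]
    ring
  have hFT : FT l Y k Q R N y = ∑ q ∈ ModK k Q R,
      ∑ f ∈ q.divisors.filter (fun f => f ≠ 1 ∧ f ≤ D0), Sm l Y k Q R N y f (q / f) +
      ∑ q ∈ ModK k Q R,
      ∑ f ∈ q.divisors.filter (fun f => D0 < f), Sm l Y k Q R N y f (q / f) := by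
    unfold FT
    rw [sum_congr rfl hin, ← sum_add_distrib]
    apply sum_congr rfl
    intro q _
    rw [← sum_filter_add_sum_filter_not _ (fun f => f ≤ D0), filter_filter, filter_filter]
    congr 1
    apply sum_congr _ (fun _ _ => rfl)
    ext f
    simp only [mem_filter]
    constructor
    · rintro ⟨h1, h2, h3⟩
      exact ⟨h1, by omega⟩
    · rintro ⟨h1, h2⟩
      exact ⟨h1, by omega, by omega⟩
  rw [hFT]
  refine (norm_add_le _ _).trans (add_le_add ?_ ?_)
  · -- small conductors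
    refine (norm_sum_le _ _).trans ?_
    have hsub : ModK k Q R ⊆ Mod Q R := filter_subset _ _
    refine le_trans (sum_le_sum (g := fun q => 1 / (Nat.totient q : ℝ) ^ 2 *
        ∑ d ∈ q.divisors.filter (fun d => d ≠ 1 ∧ d ≤ D0),
          KeySharp.GGs l Y N y (q / d) d) ?_) (sum_le_sum_of_subset_of_nonneg hsub ?_)
    · intro q hq
      obtain ⟨hQq, hqR, hsq, hqk⟩ := hMod q hq
      rw [mul_sum]
      refine (norm_sum_le _ _).trans (sum_le_sum ?_)
      intro f hf
      rw [mem_filter, Nat.mem_divisors] at hf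
      obtain ⟨⟨hfq, _⟩, hf1, _⟩ := hf
      obtain ⟨g, rfl⟩ := hfq
      have hf0 : 0 < f := Nat.pos_of_ne_zero (by rintro rfl; simp at hQq)
      have hg0 : 0 < g := Nat.pos_of_ne_zero (by rintro rfl; simp at hQq)
      rw [Nat.mul_div_cancel_left g hf0]
      unfold Sm KeySharp.GGs
      rw [← mul_assoc, mul_sum]
      refine (norm_sum_le _ _).trans (sum_le_sum ?_)
      intro ψ hψ
      rw [mem_filter] at hψ
      unfold ww
      rw [if_pos (by
        unfold ModK at hq
        exact (mem_filter.1 hq).1)]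
      rw [norm_mul, norm_mul, norm_mul, norm_mul]
      have h1 := norm_mph (f * g)
      have h2 := GS_imprimitive f g hf0 hg0 (Nat.coprime_of_squarefree_mul hsq) ψ hψ.2
      have h3 : ‖ψ⁻¹ (-(k : ZMod f))‖ ≤ 1 := DirichletCharacter.norm_le_one _ _
      calc ‖mph (f * g)‖ * ‖GS (DirichletCharacter.changeLevel (Dvd.intro g rfl : f ∣ f * g)
              ψ)⁻¹‖ * ‖ψ⁻¹ (-(k : ZMod f))‖ * (‖psiCm y g ψ‖ * ‖KKcm l Y N g ψ‖)
          ≤ (1 / (Nat.totient (f * g) : ℝ) ^ 2) * Real.sqrt f * 1 *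
            (‖psiCm y g ψ‖ * ‖KKcm l Y N g ψ‖) := by gcongr
        _ = _ := by ring
    · intro q _ _
      exact mul_nonneg (by positivity) (sum_nonneg fun d _ => KeySharp.GGs_nonneg _ _ _ _ _ _)
  · -- large conductors
    rw [regroup (fun f m => Sm l Y k Q R N y f m) (ModK k Q R) D0 R (2 ^ J * D0)
      (fun q hq => ⟨by have := (hMod q hq).1; omega, (hMod q hq).2.1⟩) hJ]
    rw [sum_comm (s := range J)]
    refine (norm_sum_le _ _).trans (sum_le_sum ?_)
    intro m hm
    by_cases hkm : k.Coprime m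
    · have h1 : (∑ f ∈ Ioc D0 (2 ^ J * D0), if f * m ∈ ModK k Q R then
          Sm l Y k Q R N y f m else 0) = ∑ f ∈ Ioc D0 (2 ^ J * D0), Sm l Y k Q R N y f m := by
        apply sum_congr rfl
        intro f _
        split_ifs with h
        · rfl
        · exact (Sm_zero l Y k Q R N y f m hkm h).symm
      rw [h1, dyadic_eq]
      refine (norm_sum_le _ _).trans (sum_le_sum ?_)
      intro j _
      rw [UU_eq]
    · have h1 : (∑ f ∈ Ioc D0 (2 ^ J * D0), if f * m ∈ ModK k Q R then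
          Sm l Y k Q R N y f m else 0) = 0 := by
        apply sum_eq_zero
        intro f _
        rw [if_neg]
        intro h
        exact hkm (Nat.Coprime.coprime_mul_left (hMod _ h).2.2.2).symm
      rw [h1, norm_zero]
      exact sum_nonneg fun j _ => norm_nonneg _

end H426AM
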