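import Pool.Agent.H426AM.Defs

/-!
A12: first mean of the double integral (helper379)
-/

open Finset MeasureTheory

namespace H426AM

open H343 H343.KF H336V H336V.PairA

namespace IntMean

lemma SS_cont_xi (Q R m D A Z : ℕ) (η : ℝ) (k : ℕ) :
    Continuous (fun ξ => SS Q R m D A Z ξ η k) := by
  unfold SS
  refine continuous_finset_sum _ fun p _ => ?_
  refine Continuous.mul ?_ continuous_const
  refine Continuous.mul ?_ ?_
  · exact continuous_const.mul (ex_cont.comp (by fun_prop :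
      Continuous fun ξ : ℝ => -(ξ * Real.log p.1)))
  · exact (PP_cont _ _ _ _).mul continuous_const

lemma SS_cont_eta (Q R m D A Z : ℕ) (ξ : ℝ) (k : ℕ) :
    Continuous (fun η => SS Q R m D A Z ξ η k) := by
  unfold SS
  refine continuous_finset_sum _ fun p _ => ?_
  refine Continuous.mul ?_ continuous_const
  refine Continuous.mul continuous_const ?_
  exact continuous_const.mul (PP_cont _ _ _ _)

lemma sum_norm_le_sqrt {ι : Type*} (s : Finset ι) (f : ι → ℝ) (S : ℝ) (hf : ∀ i ∈ s, 0 ≤ f i)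
    (h : ∑ i ∈ s, f i ^ 2 ≤ S) : ∑ i ∈ s, f i ≤ Real.sqrt (s.card * S) := by
  apply Real.le_sqrt_of_sq_le
  have h1 := sq_sum_le_card_mul_sum_sq (s := s) (f := f)
  refine h1.trans ?_
  exact mul_le_mul_of_nonneg_left h (by positivity)

end IntMean

open IntMean in
theorem int_mean {M : ℝ} (hM : 0 < M) (G0 : ℝ → ℝ) (hG0 : Integrable G0) (hG00 : ∀ η, 0 ≤ G0 η)
    (K Q R m D A Z : ℕ) (S : ℝ) (hS : 0 ≤ S)
    (h : ∀ ξ η : ℝ, ∑ k ∈ Ioc K (2 * K), ‖SS Q R m D A Z ξ η k‖ ^ 2 ≤ S) :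
    ∑ k ∈ Ioc K (2 * K), ∫ ξ : ℝ, M / (1 + ξ ^ 2) * ∫ η, G0 η * ‖SS Q R m D A Z ξ η k‖ ≤
      M * Real.pi * (∫ η, G0 η) * Real.sqrt (K * S) := by
  have hb : ∀ k ∈ Ioc K (2 * K), ∀ ξ η : ℝ, ‖SS Q R m D A Z ξ η k‖ ≤ Real.sqrt S := by
    intro k hk ξ η
    apply Real.le_sqrt_of_sq_le
    refine le_trans ?_ (h ξ η)
    exact single_le_sum (f := fun k => ‖SS Q R m D A Z ξ η k‖ ^ 2) (fun _ _ => by positivity) hk
  have hint : ∀ k ∈ Ioc K (2 * K), ∀ ξ : ℝ,
      Integrable (fun η => G0 η * ‖SS Q R m D A Z ξ η k‖) := by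
    intro k hk ξ
    refine Integrable.mono' (hG0.mul_const (Real.sqrt S))
      (hG0.aestronglyMeasurable.mul (SS_cont_eta Q R m D A Z ξ k).norm.aestronglyMeasurable)
      (Filter.Eventually.of_forall fun η => ?_)
    rw [norm_mul, Real.norm_eq_abs, abs_of_nonneg (hG00 η), norm_norm]
    exact mul_le_mul_of_nonneg_left (hb k hk ξ η) (hG00 η)
  have hIn : 0 ≤ ∫ η, G0 η := integral_nonneg hG00
  -- continuity of the inner integral
  have hcont : ∀ k ∈ Ioc K (2 * K),
      Continuous (fun ξ => ∫ η, G0 η * ‖SS Q R m D A Z ξ η k‖) := by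
    intro k hk
    refine continuous_of_dominated (bound := fun η => G0 η * Real.sqrt S) ?_ ?_ ?_ ?_
    · intro ξ
      exact (hint k hk ξ).aestronglyMeasurable
    · intro ξ
      refine Filter.Eventually.of_forall fun η => ?_
      rw [norm_mul, Real.norm_eq_abs, abs_of_nonneg (hG00 η), norm_norm]
      exact mul_le_mul_of_nonneg_left (hb k hk ξ η) (hG00 η)
    · exact hG0.mul_const _
    · refine Filter.Eventually.of_forall fun η => ?_
      exact continuous_const.mul (SS_cont_xi Q R m D A Z η k).norm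
  have hw : Integrable (fun ξ : ℝ => M / (1 + ξ ^ 2)) := by
    have := integrable_inv_one_add_sq.const_mul M
    refine this.congr (Filter.Eventually.of_forall fun ξ => ?_)
    simp only
    rw [div_eq_mul_inv]
  have hwnn : ∀ ξ : ℝ, 0 ≤ M / (1 + ξ ^ 2) := fun ξ => by positivity
  have hI0 : ∀ k ξ, 0 ≤ ∫ η, G0 η * ‖SS Q R m D A Z ξ η k‖ := fun k ξ =>
    integral_nonneg fun η => mul_nonneg (hG00 η) (norm_nonneg _)
  have hIb : ∀ k ∈ Ioc K (2 * K), ∀ ξ : ℝ, ∫ η, G0 η * ‖SS Q R m D A Z ξ η k‖ ≤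
      (∫ η, G0 η) * Real.sqrt S := by
    intro k hk ξ
    rw [← integral_mul_const]
    exact integral_mono (hint k hk ξ) (hG0.mul_const _) fun η =>
      mul_le_mul_of_nonneg_left (hb k hk ξ η) (hG00 η)
  have hint2 : ∀ k ∈ Ioc K (2 * K),
      Integrable (fun ξ : ℝ => M / (1 + ξ ^ 2) * ∫ η, G0 η * ‖SS Q R m D A Z ξ η k‖) := by
    intro k hk
    refine Integrable.mono' (hw.mul_const ((∫ η, G0 η) * Real.sqrt S))
      (hw.aestronglyMeasurable.mul (hcont k hk).aestronglyMeasurable)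
      (Filter.Eventually.of_forall fun ξ => ?_)
    rw [norm_mul, Real.norm_eq_abs, Real.norm_eq_abs, abs_of_nonneg (hwnn ξ),
      abs_of_nonneg (hI0 k ξ)]
    exact mul_le_mul_of_nonneg_left (hIb k hk ξ) (hwnn ξ)
  rw [← integral_finsetSum _ hint2]
  have hpt : ∀ ξ : ℝ, ∑ k ∈ Ioc K (2 * K), M / (1 + ξ ^ 2) *
      ∫ η, G0 η * ‖SS Q R m D A Z ξ η k‖ ≤
      M / (1 + ξ ^ 2) * ((∫ η, G0 η) * Real.sqrt (K * S)) := by
    intro ξ
    rw [← mul_sum, ← integral_finsetSum _ (fun k hk => hint k hk ξ)]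
    apply mul_le_mul_of_nonneg_left _ (hwnn ξ)
    rw [← integral_mul_const]
    refine integral_mono (integrable_finsetSum _ fun k hk => hint k hk ξ) (hG0.mul_const _) ?_
    intro η
    simp only
    rw [← mul_sum]
    apply mul_le_mul_of_nonneg_left _ (hG00 η)
    have h1 := sum_norm_le_sqrt (Ioc K (2 * K)) (fun k => ‖SS Q R m D A Z ξ η k‖) S
      (fun _ _ => norm_nonneg _) (h ξ η)
    have h2 : (Ioc K (2 * K)).card = K := by
      rw [Nat.card_Ioc]; omega
    rw [h2] at h1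
    exact h1
  refine (integral_mono (integrable_finsetSum _ hint2) (hw.mul_const _) hpt).trans
    (le_of_eq ?_)
  rw [integral_mul_const]
  have e : ∫ ξ : ℝ, M / (1 + ξ ^ 2) = M * Real.pi := by
    rw [← integral_univ_inv_one_add_sq, ← integral_const_mul]
    apply integral_congr_ae
    refine Filter.Eventually.of_forall fun ξ => ?_
    simp only
    rw [div_eq_mul_inv]
  rw [e]
  ring

end H426AM
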