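import Pool.Agent.H426AM.Defs
import Pool.Agent.H336R2.V.PairC

/-!
A11: mean square over the moduli (helper379)
-/

open Finset MeasureTheory

namespace H426AM

open H343 H343.KF H336V H336V.PairA

namespace SSMean

lemma ww_bound {c δ : ℝ} (hc : 0 < c) (hδ1 : δ ≤ 1)
    (hphi : ∀ n : ℕ, 1 ≤ n → c * (n : ℝ) ^ (1 - δ) ≤ (Nat.totient n : ℝ))
    (Q R m D : ℕ) (hD : 1 ≤ D) (hm : 1 ≤ m) {p : Σ q : ℕ, DirichletCharacter ℂ q}
    (hp : p ∈ PC D) :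
    ‖ww Q R m p‖ ^ 2 ≤ 2 / c ^ 4 * ((D * m : ℕ) : ℝ) ^ (4 * δ) / ((D : ℝ) ^ 3 * (m : ℝ) ^ 4) := by
  obtain ⟨hq1, hq2, hprim⟩ := mem_PC hp
  have hD0 : (0 : ℝ) < D := by exact_mod_cast hD
  have hm0 : (0 : ℝ) < m := by exact_mod_cast hm
  have hRHS : 0 ≤ 2 / c ^ 4 * ((D * m : ℕ) : ℝ) ^ (4 * δ) / ((D : ℝ) ^ 3 * (m : ℝ) ^ 4) := by
    positivity
  unfold ww
  split_ifs with h
  · have hsq : Squarefree (p.1 * m) := by
      unfold H343.Mod at h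
      exact (mem_filter.1 h).2
    have hp1 : 1 ≤ p.1 := by omega
    have hg := GS_imprimitive p.1 m hp1 hm (Nat.coprime_of_squarefree_mul hsq) p.2 hprim
    have hn : 1 ≤ p.1 * m := Nat.mul_pos hp1 hm
    have hφ := hphi (p.1 * m) hn
    have hDm : (0 : ℝ) < ((D * m : ℕ) : ℝ) := by
      have : 0 < D * m := Nat.mul_pos hD hm
      exact_mod_cast this
    have hmono : c * ((D * m : ℕ) : ℝ) ^ (1 - δ) ≤ (Nat.totient (p.1 * m) : ℝ) := by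
      refine le_trans ?_ hφ
      apply mul_le_mul_of_nonneg_left _ hc.le
      apply Real.rpow_le_rpow hDm.le _ (by linarith)
      have : D * m ≤ p.1 * m := Nat.mul_le_mul_right m hq1.le
      exact_mod_cast this
    set φ : ℝ := (Nat.totient (p.1 * m) : ℝ) with hφd
    set u : ℝ := c * ((D * m : ℕ) : ℝ) ^ (1 - δ) with hu
    have hu0 : 0 < u := by positivity
    have hφ0 : 0 < φ := hu0.trans_le hmono
    have hmph : ‖mph (p.1 * m)‖ ≤ 1 / φ ^ 2 := by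
      unfold mph
      rw [Complex.norm_real, Real.norm_eq_abs, abs_div, abs_of_nonneg (by positivity : 0 ≤ φ ^ 2)]
      apply div_le_div_of_nonneg_right _ (by positivity)
      have := ArithmeticFunction.abs_moebius_le_one (n := p.1 * m)
      exact_mod_cast this
    have h1 : ‖mph (p.1 * m) *
        GS (DirichletCharacter.changeLevel (Dvd.intro m rfl : p.1 ∣ p.1 * m) p.2)⁻¹‖ ≤
        1 / u ^ 2 * Real.sqrt (2 * D) := by
      rw [norm_mul]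
      apply mul_le_mul _ _ (norm_nonneg _) (by positivity)
      · refine hmph.trans ?_
        apply one_div_le_one_div_of_le (by positivity)
        exact pow_le_pow_left₀ hu0.le hmono 2
      · refine hg.trans (Real.sqrt_le_sqrt ?_)
        exact_mod_cast hq2
    have h2 := pow_le_pow_left₀ (norm_nonneg _) h1 2
    refine h2.trans (le_of_eq ?_)
    rw [mul_pow, Real.sq_sqrt (by positivity), hu]
    have e1 : ((D * m : ℕ) : ℝ) ^ (4 * δ) * (((D * m : ℕ) : ℝ) ^ (1 - δ)) ^ 4 =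
        ((D * m : ℕ) : ℝ) ^ 4 := by
      rw [← Real.rpow_natCast (((D * m : ℕ) : ℝ) ^ (1 - δ)) 4, ← Real.rpow_mul hDm.le,
        ← Real.rpow_add hDm, ← Real.rpow_natCast ((D * m : ℕ) : ℝ) 4]
      congr 1
      push_cast
      ring
    have hP : (0 : ℝ) < (((D * m : ℕ) : ℝ) ^ (1 - δ)) ^ 4 := by positivity
    have e2 : ((D * m : ℕ) : ℝ) ^ (4 * δ) = ((D : ℝ) * m) ^ 4 /
        (((D * m : ℕ) : ℝ) ^ (1 - δ)) ^ 4 := by
      rw [eq_div_iff hP.ne', e1]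
      push_cast
      ring
    rw [e2]
    set V : ℝ := ((D * m : ℕ) : ℝ) ^ (1 - δ) with hV
    have hV0 : V ≠ 0 := by positivity
    field_simp
  · simpa using hRHS

lemma pp_sum {Cd δ : ℝ} (hδ : 0 < δ)
    (hCd : ∀ n : ℕ, 1 ≤ n → (n.divisors.card : ℝ) ≤ Cd * (n : ℝ) ^ δ)
    (D A Z m : ℕ) (ξ η : ℝ) :
    ∑ p ∈ PC D, ‖PP (fun _ => 1) m A ξ p.2 *
      PP (fun n => (ArithmeticFunction.vonMangoldt n : ℂ)) m Z η p.2‖ ^ 2 ≤
      24 * ((A * Z : ℝ) + (D : ℝ) ^ 2) * ((A * Z : ℝ) *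
        ((Z : ℝ) ^ δ / δ * (Cd * ((A * Z : ℕ) : ℝ) ^ δ)) ^ 2) := by
  set α : ℕ → ℂ := tw (fun _ => 1) m ξ with hα
  set β : ℕ → ℂ := tw (fun n => if n ∈ Icc 1 Z then (ArithmeticFunction.vonMangoldt n : ℂ) else 0)
    m η with hβ
  have ha : ∀ n, ‖α n‖ ≤ 1 := fun n => (tw_norm _ _ _ _).trans (by simp)
  have hb : ∀ n, ‖β n‖ ≤ (Z : ℝ) ^ δ / δ := by
    intro n
    refine (tw_norm _ _ _ _).trans ?_
    split_ifs with hn
    · rw [mem_Icc] at hn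
      rw [Complex.norm_real, Real.norm_eq_abs, abs_of_nonneg ArithmeticFunction.vonMangoldt_nonneg]
      refine ArithmeticFunction.vonMangoldt_le_log.trans ?_
      have h1 : Real.log n ≤ Real.log Z := by
        apply Real.log_le_log (by exact_mod_cast hn.1)
        exact_mod_cast hn.2
      exact h1.trans (Real.log_le_rpow_div (by positivity) hδ)
    · rw [norm_zero]
      positivity
  have h1 := LSaux.prim_sum_le D (A * Z) (LSaux.conv A Z α β)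
  have h3 := LSaux.conv_sq δ Cd hδ hCd A Z α β 1 ((Z : ℝ) ^ δ / δ) ha hb
  rw [one_mul] at h3
  have e : ∑ p ∈ PC D, ‖PP (fun _ => 1) m A ξ p.2 *
      PP (fun n => (ArithmeticFunction.vonMangoldt n : ℂ)) m Z η p.2‖ ^ 2 =
      ∑ p ∈ PC D, ‖∑ n ∈ Icc 1 (A * Z), LSaux.conv A Z α β n * p.2 (n : ZMod p.1)‖ ^ 2 := by
    apply sum_congr rfl
    intro p _
    rw [PP_congr (α := fun n => (ArithmeticFunction.vonMangoldt n : ℂ))
      (fun n hn => (if_pos hn).symm) η p.2, ← LSaux.conv_eq]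
    rfl
  rw [e]
  unfold PC
  rw [sum_sigma]
  refine h1.trans ?_
  have h4 : (0 : ℝ) ≤ 24 * (((A * Z : ℕ) : ℝ) + (D : ℝ) ^ 2) := by positivity
  refine (mul_le_mul_of_nonneg_left h3 h4).trans (le_of_eq ?_)
  push_cast
  ring

end SSMean

open SSMean in
/-- A11, from the dual large sieve (A10). -/
theorem SS_mean_of (hdual : ∀ (K D : ℕ) (c : (Σ q : ℕ, DirichletCharacter ℂ q) → ℂ),
    ∑ k ∈ Ioc K (2 * K), ‖∑ p ∈ PC D, c p * p.2⁻¹ (-(k : ZMod p.1))‖ ^ 2 ≤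
      24 * ((2 * K : ℝ) + (D : ℝ) ^ 2) * ∑ p ∈ PC D, ‖c p‖ ^ 2)
    (δ : ℝ) (hδ : 0 < δ) : ∃ C : ℝ, 0 < C ∧ ∀ (K Q R m D A Z : ℕ) (ξ η : ℝ),
    1 ≤ D → 1 ≤ m →
    ∑ k ∈ Ioc K (2 * K), ‖SS Q R m D A Z ξ η k‖ ^ 2 ≤
      C * ((D * m * (A + 1) * (Z + 1) : ℕ) : ℝ) ^ δ * ((K : ℝ) + (D : ℝ) ^ 2) *
        ((A * Z : ℝ) + (D : ℝ) ^ 2) * (A * Z) / ((D : ℝ) ^ 3 * (m : ℝ) ^ 4) := by
  set δ' : ℝ := min (δ / 8) 1 with hδ'
  have hδ'0 : 0 < δ' := by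
    rw [hδ']
    exact lt_min (by positivity) one_pos
  have hδ'1 : δ' ≤ 1 := min_le_right _ _
  have hδ'2 : 8 * δ' ≤ δ := by
    have : δ' ≤ δ / 8 := min_le_left _ _
    linarith
  obtain ⟨c, hc, hphi⟩ := phi_bound δ' hδ'0
  obtain ⟨Cd, hCd0, hCd⟩ := Pool.Agent.Helper112.divisor_bound δ' hδ'0
  refine ⟨24 * 2 * (2 / c ^ 4) * 24 * (Cd / δ') ^ 2, by positivity, ?_⟩
  intro K Q R m D A Z ξ η hD hm
  have hD0 : (0 : ℝ) < D := by exact_mod_cast hD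
  have hm0 : (0 : ℝ) < m := by exact_mod_cast hm
  set cc : (Σ q : ℕ, DirichletCharacter ℂ q) → ℂ := fun p =>
    ww Q R m p * ex (-(ξ * Real.log p.1)) *
    (PP (fun _ => 1) m A ξ p.2 * PP (fun n => (ArithmeticFunction.vonMangoldt n : ℂ)) m Z η p.2)
    with hcc
  have h1 := hdual K D cc
  have h0 : ∑ k ∈ Ioc K (2 * K), ‖SS Q R m D A Z ξ η k‖ ^ 2 =
      ∑ k ∈ Ioc K (2 * K), ‖∑ p ∈ PC D, cc p * p.2⁻¹ (-(k : ZMod p.1))‖ ^ 2 := rfl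
  rw [h0]
  set E : ℝ := 2 / c ^ 4 * ((D * m : ℕ) : ℝ) ^ (4 * δ') / ((D : ℝ) ^ 3 * (m : ℝ) ^ 4) with hE
  have hE0 : 0 ≤ E := by positivity
  have h2 : ∑ p ∈ PC D, ‖cc p‖ ^ 2 ≤ E * ∑ p ∈ PC D, ‖PP (fun _ => 1) m A ξ p.2 *
      PP (fun n => (ArithmeticFunction.vonMangoldt n : ℂ)) m Z η p.2‖ ^ 2 := by
    rw [mul_sum]
    apply sum_le_sum
    intro p hp
    rw [hcc]
    simp only
    rw [norm_mul, norm_mul, norm_ex, mul_one, mul_pow]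
    exact mul_le_mul_of_nonneg_right (ww_bound hc hδ'1 hphi Q R m D hD hm hp) (by positivity)
  have h3 := pp_sum hδ'0 hCd D A Z m ξ η
  have h4 : ∑ p ∈ PC D, ‖cc p‖ ^ 2 ≤ E * (24 * ((A * Z : ℝ) + (D : ℝ) ^ 2) * ((A * Z : ℝ) *
        ((Z : ℝ) ^ δ' / δ' * (Cd * ((A * Z : ℕ) : ℝ) ^ δ')) ^ 2)) :=
    h2.trans (mul_le_mul_of_nonneg_left h3 hE0)
  have h5 : (24 : ℝ) * ((2 * K : ℝ) + (D : ℝ) ^ 2) ≤ 24 * 2 * ((K : ℝ) + (D : ℝ) ^ 2) := by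
    have : (0 : ℝ) ≤ (D : ℝ) ^ 2 := by positivity
    linarith
  have h6 : (0 : ℝ) ≤ 24 * 2 * ((K : ℝ) + (D : ℝ) ^ 2) := by positivity
  have h7 : (0 : ℝ) ≤ ∑ p ∈ PC D, ‖cc p‖ ^ 2 := sum_nonneg fun _ _ => by positivity
  refine h1.trans ((mul_le_mul h5 h4 h7 h6).trans ?_)
  -- comparison of the powers
  set W : ℝ := ((D * m * (A + 1) * (Z + 1) : ℕ) : ℝ) with hW
  have hDm : 1 ≤ D * m := Nat.mul_pos hD hm
  have hW1 : 1 ≤ W := by
    rw [hW]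
    have : 0 < D * m * (A + 1) * (Z + 1) := by positivity
    exact_mod_cast this
  have hW0 : 0 < W := by linarith
  have g1 : ((D * m : ℕ) : ℝ) ^ (4 * δ') ≤ W ^ (4 * δ') := by
    apply Real.rpow_le_rpow (by positivity) _ (by positivity)
    rw [hW]
    have : D * m ≤ D * m * (A + 1) * (Z + 1) := by
      rw [mul_assoc]
      exact Nat.le_mul_of_pos_right _ (by positivity)
    exact_mod_cast this
  have g2 : (Z : ℝ) ^ δ' ≤ W ^ δ' := by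
    apply Real.rpow_le_rpow (by positivity) _ (by positivity)
    rw [hW]
    have : Z ≤ D * m * (A + 1) * (Z + 1) := by
      calc Z ≤ Z + 1 := Nat.le_succ _
        _ ≤ D * m * (A + 1) * (Z + 1) := Nat.le_mul_of_pos_left _ (by positivity)
    exact_mod_cast this
  have g3 : ((A * Z : ℕ) : ℝ) ^ δ' ≤ W ^ δ' := by
    apply Real.rpow_le_rpow (by positivity) _ (by positivity)
    rw [hW]
    have : A * Z ≤ D * m * (A + 1) * (Z + 1) := by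
      calc A * Z ≤ (A + 1) * (Z + 1) := Nat.mul_le_mul (Nat.le_succ _) (Nat.le_succ _)
        _ ≤ D * m * ((A + 1) * (Z + 1)) := Nat.le_mul_of_pos_left _ (by positivity)
        _ = D * m * (A + 1) * (Z + 1) := by ring
    exact_mod_cast this
  have g4 : ((D * m : ℕ) : ℝ) ^ (4 * δ') * ((Z : ℝ) ^ δ' * ((A * Z : ℕ) : ℝ) ^ δ') ^ 2 ≤
      W ^ δ := by
    calc ((D * m : ℕ) : ℝ) ^ (4 * δ') * ((Z : ℝ) ^ δ' * ((A * Z : ℕ) : ℝ) ^ δ') ^ 2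
        ≤ W ^ (4 * δ') * (W ^ δ' * W ^ δ') ^ 2 := by gcongr
      _ = W ^ (8 * δ') := by
          rw [← Real.rpow_add hW0, ← Real.rpow_natCast (W ^ (δ' + δ')) 2, ← Real.rpow_mul hW0.le,
            ← Real.rpow_add hW0]
          congr 1
          push_cast
          ring
      _ ≤ W ^ δ := Real.rpow_le_rpow_of_exponent_le hW1 hδ'2
  have e1 : 24 * 2 * ((K : ℝ) + (D : ℝ) ^ 2) * (E * (24 * ((A * Z : ℝ) + (D : ℝ) ^ 2) *
      ((A * Z : ℝ) * ((Z : ℝ) ^ δ' / δ' * (Cd * ((A * Z : ℕ) : ℝ) ^ δ')) ^ 2))) =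
      (24 * 2 * (2 / c ^ 4) * 24 * (Cd / δ') ^ 2 * ((K : ℝ) + (D : ℝ) ^ 2) *
        ((A * Z : ℝ) + (D : ℝ) ^ 2) * (A * Z) / ((D : ℝ) ^ 3 * (m : ℝ) ^ 4)) *
      (((D * m : ℕ) : ℝ) ^ (4 * δ') * ((Z : ℝ) ^ δ' * ((A * Z : ℕ) : ℝ) ^ δ') ^ 2) := by
    rw [hE]
    ring
  rw [e1]
  refine (mul_le_mul_of_nonneg_left g4 (by positivity)).trans (le_of_eq ?_)
  ring

end H426AM
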