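import Pool.Agent.H426AM.Defs
import Pool.Agent.H336R2.V.SepSharp

/-! Task A8: uniform separation of the sharp cut-offs (helper113) -/

open Finset MeasureTheory

namespace H426AM

open H343 H336V

namespace SepU

open H336V.SepSharp

/-- the majorant on the half line -/
noncomputable def hh (T N x : ℝ) : ℝ := if x ≤ 1 then T else if x ≤ N then x⁻¹ else N * x ^ (-2 : ℝ)

lemma hh_nonneg {T N : ℝ} (hT : 0 ≤ T) (hN : 0 ≤ N) {x : ℝ} (hx : 0 ≤ x) : 0 ≤ hh T N x := by
  unfold hh
  split_ifs
  · exact hT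
  · exact inv_nonneg.2 hx
  · exact mul_nonneg hN (Real.rpow_nonneg hx _)

lemma hh_half {T N : ℝ} (_hT : 0 ≤ T) (hN : 1 ≤ N) :
    IntegrableOn (hh T N) (Set.Ioi 0) ∧ ∫ x in Set.Ioi 0, hh T N x = T + Real.log N + 1 := by
  have hN0 : 0 < N := by linarith
  have c1 : Set.EqOn (hh T N) (fun _ => T) (Set.Ioc 0 1) := by
    intro x hx
    simp only [hh, if_pos hx.2]
  have c2 : Set.EqOn (hh T N) (fun x => x⁻¹) (Set.Ioc 1 N) := by
    intro x hx
    simp only [hh, if_neg (not_le.2 hx.1), if_pos hx.2]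
  have c3 : Set.EqOn (hh T N) (fun x => N * x ^ (-2 : ℝ)) (Set.Ioi N) := by
    intro x hx
    have h1 : ¬ x ≤ 1 := not_le.2 (lt_of_le_of_lt hN hx)
    simp only [hh, if_neg h1, if_neg (not_le.2 (show N < x from hx))]
  have j1 : IntegrableOn (fun _ : ℝ => T) (Set.Ioc 0 1) := by simp
  have h0 : IntervalIntegrable (fun ξ : ℝ => ξ⁻¹) volume 1 N := by
    apply ContinuousOn.intervalIntegrable_of_Icc hN
    apply ContinuousOn.inv₀ continuousOn_id
    intro x hx
    have : (1:ℝ) ≤ x := hx.1
    simp only [id]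
    linarith
  have j2 : IntegrableOn (fun x : ℝ => x⁻¹) (Set.Ioc 1 N) :=
    (intervalIntegrable_iff_integrableOn_Ioc_of_le hN).1 h0
  have j3 : IntegrableOn (fun ξ : ℝ => N * ξ ^ (-2 : ℝ)) (Set.Ioi N) :=
    (integrableOn_Ioi_rpow_of_lt (by norm_num) hN0).const_mul _
  have i1 : IntegrableOn (hh T N) (Set.Ioc 0 1) := j1.congr_fun c1.symm measurableSet_Ioc
  have i2 : IntegrableOn (hh T N) (Set.Ioc 1 N) := j2.congr_fun c2.symm measurableSet_Ioc
  have i3 : IntegrableOn (hh T N) (Set.Ioi N) := j3.congr_fun c3.symm measurableSet_Ioi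
  have i23 : IntegrableOn (hh T N) (Set.Ioi 1) := by
    rw [← Set.Ioc_union_Ioi_eq_Ioi hN]
    exact i2.union i3
  have i123 : IntegrableOn (hh T N) (Set.Ioi 0) := by
    rw [← Set.Ioc_union_Ioi_eq_Ioi (zero_le_one (α := ℝ))]
    exact i1.union i23
  refine ⟨i123, ?_⟩
  have e1 : ∫ ξ in Set.Ioi 0, hh T N ξ = (∫ ξ in Set.Ioc 0 1, hh T N ξ) +
      ∫ ξ in Set.Ioi 1, hh T N ξ := by
    rw [← Set.Ioc_union_Ioi_eq_Ioi (zero_le_one (α := ℝ))]
    exact setIntegral_union (Set.Ioc_disjoint_Ioi le_rfl) measurableSet_Ioi i1 i23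
  have e2 : ∫ ξ in Set.Ioi 1, hh T N ξ = (∫ ξ in Set.Ioc 1 N, hh T N ξ) +
      ∫ ξ in Set.Ioi N, hh T N ξ := by
    rw [← Set.Ioc_union_Ioi_eq_Ioi hN]
    exact setIntegral_union (Set.Ioc_disjoint_Ioi le_rfl) measurableSet_Ioi i2 i3
  have b1 : ∫ ξ in Set.Ioc 0 1, hh T N ξ = T := by
    rw [setIntegral_congr_fun measurableSet_Ioc c1]
    simp
  have b2 : ∫ ξ in Set.Ioc 1 N, hh T N ξ = Real.log N := by
    rw [setIntegral_congr_fun measurableSet_Ioc c2, ← intervalIntegral.integral_of_le hN,
      integral_inv_of_pos one_pos hN0, div_one]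
  have b3 : ∫ ξ in Set.Ioi N, hh T N ξ = 1 := by
    rw [setIntegral_congr_fun measurableSet_Ioi c3, integral_const_mul,
      integral_Ioi_rpow_of_lt (by norm_num) hN0]
    have : N ^ (-2 + 1 : ℝ) = N⁻¹ := by
      rw [show (-2 + 1 : ℝ) = -1 by norm_num, Real.rpow_neg_one]
    rw [this]
    field_simp
    norm_num
  rw [e1, e2, b1, b2, b3]
  ring

lemma gg_zero {a b : ℝ} (hab : a < b) : gg a b 0 = a + b := by
  unfold gg th
  have h : b - a ≠ 0 := by linarith
  simp only [mul_zero, Real.sinc_zero, one_pow, mul_one]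
  field_simp
  ring

lemma gg_le_hh {a b T N : ℝ} (ha : 0 ≤ a) (hab : a < b) (hT : a + b ≤ T) (hN : (b - a)⁻¹ ≤ N)
    (ξ : ℝ) : |gg a b ξ| ≤ hh T N |ξ| := by
  rw [← gg_abs_arg]
  rcases (abs_nonneg ξ).eq_or_lt with h | h
  · rw [← h, gg_zero hab]
    unfold hh
    rw [if_pos zero_le_one, abs_of_nonneg (by linarith)]
    exact hT
  · unfold hh
    split_ifs
    · exact (gg_bound1 ha hab h).trans hT
    · exact gg_bound2 ha hab h
    · exact (gg_bound3 hab h).trans
        (mul_le_mul_of_nonneg_right hN (Real.rpow_nonneg h.le _))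

end SepU

open SepU H336V.SepSharp in
theorem sep_uniform : ∃ C : ℝ, 0 < C ∧ ∀ Z : ℕ, 1 ≤ Z → ∃ G0 : ℝ → ℝ, Integrable G0 ∧
    (∀ η, 0 ≤ G0 η) ∧ (∫ η, G0 η) ≤ C * (1 + Real.log Z) ∧
    ∀ y : ℕ, y ≤ Z → ∃ G : ℝ → ℂ, Continuous G ∧ (∀ η, ‖G η‖ ≤ G0 η) ∧
      ∀ n : ℕ, 1 ≤ n → (∫ η, G η * ex (η * Real.log n)) = if n ≤ y then 1 else 0 := by
  refine ⟨10, by norm_num, fun Z hZ => ?_⟩
  have hZ0 : (0:ℝ) < Z := by exact_mod_cast hZ
  have hZ1 : (1:ℝ) ≤ Z := by exact_mod_cast hZ
  have hlZ : 0 ≤ Real.log Z := Real.log_nonneg hZ1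
  have hlog2 : Real.log 2 ≤ 1 := by have := Real.log_two_lt_d9; linarith
  set T : ℝ := 2 * Real.log ((Z : ℝ) + 1) with hTdef
  set N : ℝ := 2 * Z with hNdef
  have hN1 : 1 ≤ N := by rw [hNdef]; linarith
  have hT0 : 0 ≤ T := mul_nonneg (by norm_num) (Real.log_nonneg (by linarith))
  have hlN : Real.log N = Real.log 2 + Real.log Z := Real.log_mul (by norm_num) hZ0.ne'
  have hT1 : T ≤ 2 * (1 + Real.log Z) := by
    have h1 : Real.log ((Z : ℝ) + 1) ≤ Real.log N :=
      Real.log_le_log (by linarith) (by rw [hNdef]; linarith)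
    rw [hTdef]
    linarith
  obtain ⟨hi, he⟩ := hh_half hT0 hN1
  have heven : ∀ x, (fun η => hh T N |η|) |x| = (fun η => hh T N |η|) x := fun x => by
    simp only [abs_abs]
  have hion : IntegrableOn (fun η => hh T N |η|) (Set.Ioi 0) := by
    refine hi.congr_fun ?_ measurableSet_Ioi
    intro x hx
    simp only [abs_of_pos (show 0 < x from hx)]
  refine ⟨fun η => hh T N |η|, integrable_of_even heven hion,
    fun η => hh_nonneg hT0 (by linarith) (abs_nonneg η), ?_, ?_⟩
  · have h4 := integral_comp_abs (f := hh T N)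
    rw [h4, he, hlN]
    linarith
  · intro y hyZ
    rcases Nat.eq_zero_or_pos y with hy0' | hy
    · refine ⟨fun _ => 0, continuous_const, fun η => ?_, fun n hn => ?_⟩
      · rw [norm_zero]
        exact hh_nonneg hT0 (by linarith) (abs_nonneg η)
      · rw [if_neg (by omega)]
        simp
    · set a : ℝ := Real.log y with ha
      set b : ℝ := Real.log ((y + 1 : ℕ) : ℝ) with hb
      have hy0 : (0:ℝ) < y := by exact_mod_cast hy
      have hy1 : (1:ℝ) ≤ y := by exact_mod_cast hy
      have hyZ' : (y:ℝ) ≤ Z := by exact_mod_cast hyZ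
      have ha0 : 0 ≤ a := Real.log_nonneg hy1
      have hab : a < b := by
        apply Real.log_lt_log hy0
        push_cast; linarith
      have hba : b - a = Real.log (1 + 1 / y) := by
        rw [ha, hb, ← Real.log_div (by positivity) (by positivity)]
        congr 1; push_cast; field_simp
      have hd1 : b - a ≤ 1 := by
        rw [hba]
        have h1 := Real.log_le_sub_one_of_pos (show (0:ℝ) < 1 + 1 / y by positivity)
        have h2 : 1 / (y:ℝ) ≤ 1 := by rw [div_le_one hy0]; exact hy1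
        linarith
      have hd2 : 1 / ((y:ℝ) + 1) ≤ b - a := by
        rw [hba]
        have h1 := Real.one_sub_inv_le_log_of_pos (show (0:ℝ) < 1 + 1 / y by positivity)
        refine le_trans (le_of_eq ?_) h1
        field_simp
        ring
      have hd0 : 0 < b - a := by linarith
      have hinv : (b - a)⁻¹ ≤ N := by
        rw [inv_le_comm₀ hd0 (by linarith)]
        refine le_trans ?_ hd2
        rw [← one_div]
        apply one_div_le_one_div_of_le (by positivity)
        rw [hNdef]
        linarith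
      have hbZ : b ≤ Real.log ((Z : ℝ) + 1) := by
        apply Real.log_le_log (by positivity)
        push_cast; linarith
      have hTab : a + b ≤ T := by rw [hTdef]; linarith
      refine ⟨fun ξ => (gg a b ξ : ℂ), Complex.continuous_ofReal.comp (gg_continuous a b), ?_, ?_⟩
      · intro η
        rw [Complex.norm_real, Real.norm_eq_abs]
        exact gg_le_hh ha0 hab hTab hinv η
      · intro n hn
        rw [inversion ha0 hab hd1]
        have hn0 : (0:ℝ) < n := by exact_mod_cast hn
        have hn1 : (1:ℝ) ≤ n := by exact_mod_cast hn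
        have hln : 0 ≤ Real.log n := Real.log_nonneg hn1
        split_ifs with h
        · have h1 : Real.log n ≤ a := Real.log_le_log hn0 (by exact_mod_cast h)
          have : TT a b (Real.log n) = 1 := by
            unfold TT tent
            rw [abs_of_nonneg hln, max_eq_left (by linarith), max_eq_left (by linarith)]
            field_simp
            ring
          rw [this]; simp
        · have h1 : b ≤ Real.log n := by
            apply Real.log_le_log (by positivity)
            exact_mod_cast (by omega : y + 1 ≤ n)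
          have : TT a b (Real.log n) = 0 := by
            unfold TT
            rw [tent_zero (by rw [abs_of_nonneg hln]; exact h1),
              tent_zero (by rw [abs_of_nonneg hln]; linarith)]
            simp
          rw [this]; simp

end H426AM
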