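import Pool.Agent.H426AM.Defs

/-!
A6: small conductors (adapted from `H336V.KeySharp.key_sharp_of`).
-/

open Finset MeasureTheory

namespace H426AM

open H343 H343.KF H343.KeyAux H336V H336V.PairA KeySharp

theorem small_bound (M ε : ℝ) (hM : 0 < M) (hε : 0 < ε) (hε1 : ε ≤ 1 / 100) :
    ∃ X0 : ℝ, ∀ (X Y : ℝ) (Q R N D0 y : ℕ), X0 ≤ X → 0 < Y → Y ≤ 1 → X ^ (4 * ε) / Y ≤ Q →
      (R : ℝ) ≤ X → (D0 : ℝ) ≤ 2 * X ^ ε → (y : ℝ) ≤ 2 * X →
      ∀ (B : ℝ) (l : ℝ → ℂ), CTest B M l →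
      ∑ q ∈ Mod Q R, 1 / (Nat.totient q : ℝ) ^ 2 *
        ∑ d ∈ q.divisors.filter (fun d => d ≠ 1 ∧ d ≤ D0), KeySharp.GGs l Y N y (q / d) d ≤
      X * Y * X ^ (-(ε / 2)) := by
  set δ : ℝ := ε / 1000 with hδdef
  have hδ : 0 < δ := by positivity
  obtain ⟨C1, hC1, hdiv⟩ := div_bound δ hδ
  obtain ⟨c2, hc2, hphi⟩ := phi_bound δ hδ
  obtain ⟨C3, hC3, hGG0⟩ := GGs_le M hM
  set K1 : ℝ := 16 * ((1 / c2 ^ 2) * (C3 * C1 ^ 2)) with hK1
  have hK1p : 0 < K1 := by positivity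
  have hev := (tendsto_rpow_atTop (by positivity : 0 < ε / 100)).eventually_ge_atTop K1
  obtain ⟨HE, hHE⟩ := Filter.eventually_atTop.mp hev
  refine ⟨max HE 1, ?_⟩
  intro X Y Q R N D0 y hX0 hY hY1 hQ hRX hD0 hyX B l hl
  have hGG := hGG0 B l hl
  have hX1 : 1 ≤ X := le_trans (le_max_right _ _) hX0
  have hXE : HE ≤ X := le_trans (le_max_left _ _) hX0
  have hXpos : 0 < X := by linarith
  have hfin := hHE X hXE
  have hQpos : (0 : ℝ) < Q := lt_of_lt_of_le (by positivity) hQ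
  have hQ1 : 1 ≤ Q := by
    have : 0 < Q := by exact_mod_cast hQpos
    omega
  have h1 : ∀ q ∈ Mod Q R, 1 / (Nat.totient q : ℝ) ^ 2 *
      ∑ d ∈ q.divisors.filter (fun d => d ≠ 1 ∧ d ≤ D0), GGs l Y N y (q / d) d ≤
      ((1 / c2 ^ 2) * (C3 * C1 ^ 2) * X ^ (4 * δ) * (2 * X) * (D0 : ℝ) ^ 3) *
        (1 / (q : ℝ) ^ 2) := by
    intro q hq
    unfold H343.Mod at hq
    rw [mem_filter, mem_Ioc] at hq
    have hq1 : 1 ≤ q := by omega
    have hqR : (q : ℝ) ≤ X := by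
      refine le_trans ?_ hRX
      exact_mod_cast hq.1.2
    have hq0 : (0 : ℝ) < q := by exact_mod_cast hq1
    have h2 := phi_inv_sq hδ hc2 hphi X q hq1 hqR
    have hdq : (q.divisors.card : ℝ) ≤ C1 * X ^ δ := by
      refine (hdiv q hq1).trans ?_
      gcongr
    have h3 : ∀ d ∈ q.divisors.filter (fun d => d ≠ 1 ∧ d ≤ D0),
        GGs l Y N y (q / d) d ≤ C3 * (2 * X) * (C1 * X ^ δ) * (D0 : ℝ) ^ 3 := by
      intro d hd
      rw [mem_filter, Nat.mem_divisors] at hd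
      have hd0 : 0 < d := Nat.pos_of_dvd_of_pos hd.1.1 hq1
      have hm1 : 1 ≤ q / d := Nat.div_pos (Nat.le_of_dvd hq1 hd.1.1) hd0
      refine (hGG (2 * X) Y N y (q / d) d (by positivity) hY hm1 (by omega) hyX).trans ?_
      have h4 : ((q / d).divisors.card : ℝ) ≤ C1 * X ^ δ := by
        refine le_trans ?_ hdq
        have h5 : (q / d).divisors ⊆ q.divisors :=
          Nat.divisors_subset_of_dvd (by omega) (Nat.div_dvd_of_dvd hd.1.1)
        exact_mod_cast card_le_card h5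
      have h6 : (d : ℝ) ≤ D0 := by exact_mod_cast hd.2.2
      gcongr
    have h4 := sum_le_card_nsmul _ _ _ h3
    rw [nsmul_eq_mul] at h4
    have h5 : ((q.divisors.filter (fun d => d ≠ 1 ∧ d ≤ D0)).card : ℝ) ≤ C1 * X ^ δ := by
      refine le_trans ?_ hdq
      exact_mod_cast card_le_card (filter_subset _ _)
    calc _ ≤ ((1 / c2 ^ 2) * X ^ (2 * δ) * (1 / (q : ℝ) ^ 2)) *
          ((C1 * X ^ δ) * (C3 * (2 * X) * (C1 * X ^ δ) * (D0 : ℝ) ^ 3)) := by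
          apply mul_le_mul h2 _ _ (by positivity)
          · refine h4.trans ?_
            gcongr
          · exact sum_nonneg fun d _ => GGs_nonneg l Y N y (q / d) d
      _ = ((1 / c2 ^ 2) * (C3 * C1 ^ 2) * (X ^ (2 * δ) * X ^ δ * X ^ δ) * (2 * X) *
          (D0 : ℝ) ^ 3) * (1 / (q : ℝ) ^ 2) := by ring
      _ = _ := by
          rw [← Real.rpow_add hXpos, ← Real.rpow_add hXpos]
          congr 4
          ring_nf
  refine (sum_le_sum h1).trans ?_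
  rw [← mul_sum]
  have h2 : ∑ q ∈ Mod Q R, 1 / (q : ℝ) ^ 2 ≤ 1 / (Q : ℝ) := by
    refine le_trans ?_ (sum_inv_sq_Ioc Q R hQ1)
    unfold H343.Mod
    exact sum_le_sum_of_subset_of_nonneg (filter_subset _ _) fun q _ _ => by positivity
  have h3 : 1 / (Q : ℝ) ≤ Y * X ^ (-(4 * ε)) := by
    have h4 : 0 < X ^ (4 * ε) := by positivity
    have h5 : 1 / (Q : ℝ) ≤ 1 / (X ^ (4 * ε) / Y) := one_div_le_one_div_of_le (by positivity) hQ
    refine h5.trans (le_of_eq ?_)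
    rw [Real.rpow_neg hXpos.le]
    field_simp
  have h9 : (D0 : ℝ) ^ 3 ≤ 8 * X ^ (3 * ε) := by
    calc (D0 : ℝ) ^ 3 ≤ (2 * X ^ ε) ^ 3 := by gcongr
      _ = 8 * (X ^ ε) ^ 3 := by ring
      _ = 8 * X ^ (3 * ε) := by
          rw [← Real.rpow_natCast, ← Real.rpow_mul hXpos.le]
          congr 2
          push_cast
          ring
  calc _ ≤ ((1 / c2 ^ 2) * (C3 * C1 ^ 2) * X ^ (4 * δ) * (2 * X) * (D0 : ℝ) ^ 3) *
        (1 / (Q : ℝ)) := by gcongr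
    _ ≤ ((1 / c2 ^ 2) * (C3 * C1 ^ 2) * X ^ (4 * δ) * (2 * X) * (8 * X ^ (3 * ε))) *
        (Y * X ^ (-(4 * ε))) := by gcongr
    _ = K1 * (X * Y) * (X ^ (4 * δ) * X ^ (3 * ε) * X ^ (-(4 * ε))) := by rw [hK1]; ring
    _ = K1 * (X * Y) * X ^ (4 * δ + 3 * ε + -(4 * ε)) := by
        rw [← Real.rpow_add hXpos, ← Real.rpow_add hXpos]
    _ ≤ X ^ (ε / 100) * (X * Y) * X ^ (4 * δ + 3 * ε + -(4 * ε)) := by
        have : 0 ≤ X ^ (4 * δ + 3 * ε + -(4 * ε)) := by positivity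
        have h10 : K1 * (X * Y) ≤ X ^ (ε / 100) * (X * Y) :=
          mul_le_mul_of_nonneg_right hfin (by positivity)
        exact mul_le_mul_of_nonneg_right h10 this
    _ = X * Y * (X ^ (ε / 100) * X ^ (4 * δ + 3 * ε + -(4 * ε))) := by ring
    _ = X * Y * X ^ (ε / 100 + (4 * δ + 3 * ε + -(4 * ε))) := by
        rw [← Real.rpow_add hXpos]
    _ ≤ X * Y * X ^ (-(ε / 2)) := by
        apply mul_le_mul_of_nonneg_left _ (by positivity)
        exact Real.rpow_le_rpow_of_exponent_le hX1 (by rw [hδdef]; linarith)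

end H426AM
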