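import Pool.Agent.H426AM.Defs
import Pool.Agent.H336R2.V.TTs

/-!
Separation of variables for the conductors in `(D, 2D]` (task A9).
-/

open Finset MeasureTheory

namespace H426AM

open H343 H343.KF H336V H336V.PairA

namespace UUSepAux

lemma intF {M : ℝ} {F : ℝ → ℂ} (hFc : Continuous F) (hF : ∀ ξ, ‖F ξ‖ ≤ M / (1 + ξ ^ 2)) :
    Integrable F := by
  refine Integrable.mono' (g := fun ξ => M * (1 + ξ ^ 2)⁻¹)
    (integrable_inv_one_add_sq.const_mul M) hFc.aestronglyMeasurable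
    (Filter.Eventually.of_forall fun ξ => ?_)
  rw [← div_eq_mul_inv]
  exact hF ξ

lemma int_ex {F : ℝ → ℂ} (hFi : Integrable F) (v : ℝ) : Integrable (fun ξ => F ξ * ex (ξ * v)) := by
  refine Integrable.mono' hFi.norm (hFi.aestronglyMeasurable.mul
    (ex_cont.comp (by fun_prop : Continuous fun ξ : ℝ => ξ * v)).aestronglyMeasurable)
    (Filter.Eventually.of_forall fun ξ => ?_)
  rw [norm_mul, norm_ex, mul_one]

lemma KK_id {F : ℝ → ℂ} (hFi : Integrable F) {B M : ℝ} {l : ℝ → ℂ}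
    (hf : ∀ v : ℝ, l v = ∫ ξ, F ξ * ex (ξ * v))
    (hl : CTest B M l) (Y : ℝ) (hY : 0 < Y) (N m q A : ℕ) (hq : 1 ≤ q)
    (hm : 1 ≤ m) (hA : Real.exp B * (q * m) * Y < A + 1) (hAN : A ≤ N)
    (χ : DirichletCharacter ℂ q) :
    KKcm l Y N m χ = ∫ ξ, F ξ * ex (-(ξ * Real.log (m * Y))) *
      (ex (-(ξ * Real.log q)) * PP (fun _ => 1) m A ξ χ) := by
  have hqm : (0 : ℝ) < (q * m : ℕ) * Y := by
    have : 0 < q * m := Nat.mul_pos hq hm
    positivity
  have hq0 : (0 : ℝ) < q := by exact_mod_cast hq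
  have hm0 : (0 : ℝ) < m := by exact_mod_cast hm
  rw [TTsL.KKcm_cut hl Y hY N m q A hq hm hA hAN χ]
  have e2 : ∀ a ∈ (Icc 1 A).filter (fun a => a.Coprime m), χ (a : ZMod q) *
      l (Real.log (a / ((q * m : ℕ) * Y))) =
      ∫ ξ, χ (a : ZMod q) * (F ξ * ex (ξ * Real.log (a / ((q * m : ℕ) * Y)))) := by
    intro a _
    rw [hf, integral_const_mul]
  rw [sum_congr rfl e2, ← integral_finsetSum _ (fun a _ => (int_ex hFi _).const_mul _)]
  apply integral_congr_ae
  refine Filter.Eventually.of_forall fun ξ => ?_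
  simp only
  unfold PP
  rw [mul_sum, mul_sum, sum_filter]
  apply sum_congr rfl
  intro a ha
  unfold tw
  split_ifs
  · have ha0 : (0 : ℝ) < a := by exact_mod_cast (mem_Icc.1 ha).1
    have : ξ * Real.log (a / ((q * m : ℕ) * Y)) =
        ξ * Real.log a + (-(ξ * Real.log (m * Y)) + -(ξ * Real.log q)) := by
      rw [Real.log_div ha0.ne' hqm.ne']
      push_cast
      rw [mul_assoc, Real.log_mul hq0.ne' (by positivity)]
      ring
    rw [this, ex_add, ex_add]
    ring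
  · simp

lemma psi_id {G : ℝ → ℂ} (hGi : Integrable G) (y Z m q : ℕ) (hy : y ≤ Z)
    (hGy : ∀ n : ℕ, 1 ≤ n → (∫ η, G η * ex (η * Real.log n)) = if n ≤ y then 1 else 0)
    (χ : DirichletCharacter ℂ q) :
    psiCm y m χ = ∫ η, G η * PP (fun n => (ArithmeticFunction.vonMangoldt n : ℂ)) m Z η χ := by
  have e1 : (∫ η, G η * PP (fun n => (ArithmeticFunction.vonMangoldt n : ℂ)) m Z η χ) =
      ∫ η, ∑ n ∈ Icc 1 Z, (if n.Coprime m then
        (ArithmeticFunction.vonMangoldt n : ℂ) * χ (n : ZMod q) else 0) *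
          (G η * ex (η * Real.log n)) := by
    apply integral_congr_ae
    refine Filter.Eventually.of_forall fun η => ?_
    simp only
    unfold PP
    rw [mul_sum]
    apply sum_congr rfl
    intro n _
    unfold tw
    split_ifs
    · ring
    · ring
  rw [e1, integral_finsetSum _ (fun n _ => (int_ex hGi _).const_mul _)]
  have e2 : ∀ n ∈ Icc 1 Z, (∫ η, (if n.Coprime m then
        (ArithmeticFunction.vonMangoldt n : ℂ) * χ (n : ZMod q) else 0) *
          (G η * ex (η * Real.log n))) = if n ≤ y ∧ n.Coprime m then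
        (ArithmeticFunction.vonMangoldt n : ℂ) * χ (n : ZMod q) else 0 := by
    intro n hn
    rw [integral_const_mul, hGy n (mem_Icc.1 hn).1]
    by_cases h1 : n ≤ y <;> by_cases h2 : n.Coprime m <;> simp [h1, h2]
  rw [sum_congr rfl e2, ← sum_filter]
  unfold psiCm
  apply sum_congr _ (fun _ _ => rfl)
  ext n
  simp only [mem_filter, mem_Icc]
  constructor
  · rintro ⟨⟨h1, h2⟩, h3⟩
    exact ⟨⟨h1, h2.trans hy⟩, h2, h3⟩
  · rintro ⟨⟨h1, h2⟩, h3, h4⟩
    exact ⟨⟨h1, h3⟩, h4⟩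

lemma SS_cont (Q R m D A Z k : ℕ) :
    Continuous (fun p : ℝ × ℝ => SS Q R m D A Z p.1 p.2 k) := by
  unfold SS
  apply continuous_finset_sum
  intro p _
  have h1 : Continuous (fun x : ℝ × ℝ => ex (-(x.1 * Real.log p.1))) :=
    ex_cont.comp (by fun_prop)
  have h2 : Continuous (fun x : ℝ × ℝ => PP (fun _ => 1) m A x.1 p.2) :=
    (PP_cont (fun _ => 1) m A p.2).comp continuous_fst
  have h3 : Continuous (fun x : ℝ × ℝ =>
      PP (fun n => (ArithmeticFunction.vonMangoldt n : ℂ)) m Z x.2 p.2) :=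
    (PP_cont (fun n => (ArithmeticFunction.vonMangoldt n : ℂ)) m Z p.2).comp continuous_snd
  exact ((continuous_const.mul h1).mul (h2.mul h3)).mul continuous_const

lemma SS_bdd (Q R m D A Z k : ℕ) : ∃ C, 0 ≤ C ∧ ∀ ξ η : ℝ, ‖SS Q R m D A Z ξ η k‖ ≤ C := by
  have h1 : ∀ p : Σ q : ℕ, DirichletCharacter ℂ q, ∃ C, ∀ ξ,
      ‖PP (fun _ => 1) m A ξ p.2‖ ≤ C := fun p => PP_bdd _ m A p.2
  have h2 : ∀ p : Σ q : ℕ, DirichletCharacter ℂ q, ∃ C, ∀ ξ,
      ‖PP (fun n => (ArithmeticFunction.vonMangoldt n : ℂ)) m Z ξ p.2‖ ≤ C :=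
    fun p => PP_bdd _ m Z p.2
  choose C1 hC1 using h1
  choose C2 hC2 using h2
  have hC10 : ∀ p, 0 ≤ C1 p := fun p => (norm_nonneg _).trans (hC1 p 0)
  have hC20 : ∀ p, 0 ≤ C2 p := fun p => (norm_nonneg _).trans (hC2 p 0)
  refine ⟨∑ p ∈ PC D, ‖ww Q R m p‖ * (C1 p * C2 p), sum_nonneg fun p _ =>
    mul_nonneg (norm_nonneg _) (mul_nonneg (hC10 p) (hC20 p)), fun ξ η => ?_⟩
  unfold SS
  refine (norm_sum_le _ _).trans (sum_le_sum fun p _ => ?_)
  rw [norm_mul, norm_mul, norm_mul, norm_mul, norm_ex, mul_one]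
  calc ‖ww Q R m p‖ * (‖PP (fun _ => 1) m A ξ p.2‖ *
        ‖PP (fun n => (ArithmeticFunction.vonMangoldt n : ℂ)) m Z η p.2‖) *
        ‖p.2⁻¹ (-(k : ZMod p.1))‖ ≤ ‖ww Q R m p‖ * (‖PP (fun _ => 1) m A ξ p.2‖ *
        ‖PP (fun n => (ArithmeticFunction.vonMangoldt n : ℂ)) m Z η p.2‖) * 1 :=
        mul_le_mul_of_nonneg_left (DirichletCharacter.norm_le_one _ _) (by positivity)
    _ ≤ ‖ww Q R m p‖ * (C1 p * C2 p) := by
        rw [mul_one]
        exact mul_le_mul_of_nonneg_left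
          (mul_le_mul (hC1 p ξ) (hC2 p η) (norm_nonneg _) (hC10 p)) (norm_nonneg _)

end UUSepAux

open UUSepAux

theorem UU_sep {B M : ℝ} {l : ℝ → ℂ} (hM : 0 < M) (hl : CT B M l) (Y : ℝ) (hY : 0 < Y)
    (k Q R N y m D A Z : ℕ) (hD : 1 ≤ D) (hm : 1 ≤ m)
    (hA : Real.exp B * (2 * D * m) * Y < A + 1) (hAN : A ≤ N) (hy : y ≤ Z)
    (G0 : ℝ → ℝ) (hG0 : Integrable G0) (G : ℝ → ℂ) (hGc : Continuous G)
    (hG : ∀ η, ‖G η‖ ≤ G0 η)
    (hGy : ∀ n : ℕ, 1 ≤ n → (∫ η, G η * ex (η * Real.log n)) = if n ≤ y then 1 else 0) :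
    ‖UU l Y k Q R N y m D‖ ≤
      ∫ ξ : ℝ, M / (1 + ξ ^ 2) * ∫ η, G0 η * ‖SS Q R m D A Z ξ η k‖ := by
  obtain ⟨F, hFc, hFb, hFl⟩ := hl.sep
  have hFi : Integrable F := intF hFc hFb
  have hGi : Integrable G := Integrable.mono' hG0 hGc.aestronglyMeasurable
    (Filter.Eventually.of_forall hG)
  have hG00 : ∀ η, 0 ≤ G0 η := fun η => (norm_nonneg _).trans (hG η)
  obtain ⟨C, hC0, hC⟩ := SS_bdd Q R m D A Z k
  -- abbreviations
  set P1 : (Σ q : ℕ, DirichletCharacter ℂ q) → ℝ → ℂ := fun p ξ =>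
    PP (fun _ => 1) m A ξ p.2 with hP1
  set P2 : (Σ q : ℕ, DirichletCharacter ℂ q) → ℝ → ℂ := fun p η =>
    PP (fun n => (ArithmeticFunction.vonMangoldt n : ℂ)) m Z η p.2 with hP2
  have hP1c : ∀ p, Continuous (P1 p) := fun p => PP_cont _ m A p.2
  have hP2c : ∀ p, Continuous (P2 p) := fun p => PP_cont _ m Z p.2
  have hint2 : ∀ p, Integrable (fun η => G η * P2 p η) := by
    intro p
    obtain ⟨C', hC'⟩ := PP_bdd (fun n => (ArithmeticFunction.vonMangoldt n : ℂ)) m Z p.2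
    refine Integrable.mono' (hGi.norm.mul_const C')
      (hGc.mul (hP2c p)).aestronglyMeasurable (Filter.Eventually.of_forall fun η => ?_)
    rw [norm_mul]
    exact mul_le_mul_of_nonneg_left (hC' η) (norm_nonneg _)
  have hint1 : ∀ p : Σ q : ℕ, DirichletCharacter ℂ q,
      Integrable (fun ξ => F ξ * ex (-(ξ * Real.log (m * Y))) *
      (ex (-(ξ * Real.log p.1)) * P1 p ξ)) := by
    intro p
    obtain ⟨C', hC'⟩ := PP_bdd (fun _ => (1 : ℂ)) m A p.2
    have hc1 : Continuous (fun ξ : ℝ => ex (-(ξ * Real.log (m * Y)))) :=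
      ex_cont.comp (by fun_prop)
    have hc2 : Continuous (fun ξ : ℝ => ex (-(ξ * Real.log p.1))) :=
      ex_cont.comp (by fun_prop)
    refine Integrable.mono' (hFi.norm.mul_const C')
      ((hFc.mul hc1).mul (hc2.mul (hP1c p))).aestronglyMeasurable
      (Filter.Eventually.of_forall fun ξ => ?_)
    rw [norm_mul, norm_mul, norm_mul, norm_ex, norm_ex, mul_one, one_mul]
    exact mul_le_mul_of_nonneg_left (hC' ξ) (norm_nonneg _)
  -- inner integral
  have hinner : ∀ ξ : ℝ, (∫ η, G η * SS Q R m D A Z ξ η k) =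
      ∑ p ∈ PC D, (ww Q R m p * p.2⁻¹ (-(k : ZMod p.1)) * (∫ η, G η * P2 p η)) *
        (ex (-(ξ * Real.log p.1)) * P1 p ξ) := by
    intro ξ
    have e1 : (∫ η, G η * SS Q R m D A Z ξ η k) = ∫ η, ∑ p ∈ PC D,
        (ww Q R m p * p.2⁻¹ (-(k : ZMod p.1)) * (ex (-(ξ * Real.log p.1)) * P1 p ξ)) *
          (G η * P2 p η) := by
      apply integral_congr_ae
      refine Filter.Eventually.of_forall fun η => ?_
      simp only
      unfold SS
      rw [mul_sum]
      apply sum_congr rfl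
      intro p _
      simp only [hP1, hP2]
      ring
    rw [e1, integral_finsetSum _ (fun p _ => (hint2 p).const_mul _)]
    apply sum_congr rfl
    intro p _
    rw [integral_const_mul]
    ring
  -- main identity
  have hmain : UU l Y k Q R N y m D = ∫ ξ, F ξ * ex (-(ξ * Real.log (m * Y))) *
      ∫ η, G η * SS Q R m D A Z ξ η k := by
    have e1 : (∫ ξ, F ξ * ex (-(ξ * Real.log (m * Y))) *
      ∫ η, G η * SS Q R m D A Z ξ η k) = ∫ ξ, ∑ p ∈ PC D,
        (ww Q R m p * p.2⁻¹ (-(k : ZMod p.1)) * (∫ η, G η * P2 p η)) *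
        (F ξ * ex (-(ξ * Real.log (m * Y))) * (ex (-(ξ * Real.log p.1)) * P1 p ξ)) := by
      apply integral_congr_ae
      refine Filter.Eventually.of_forall fun ξ => ?_
      simp only
      rw [hinner ξ, mul_sum]
      apply sum_congr rfl
      intro p _
      ring
    rw [e1, integral_finsetSum _ (fun p _ => (hint1 p).const_mul _)]
    unfold UU
    apply sum_congr rfl
    intro p hp
    obtain ⟨h1, h2, h3⟩ := mem_PC hp
    rw [integral_const_mul]
    have hA' : Real.exp B * (p.1 * m) * Y < A + 1 := by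
      refine lt_of_le_of_lt ?_ hA
      have : (p.1 : ℝ) ≤ 2 * D := by exact_mod_cast h2
      gcongr
    rw [psi_id hGi y Z m p.1 hy hGy p.2,
      KK_id hFi hFl hl.ct Y hY N m p.1 A (by omega) hm hA' hAN p.2]
    ring
  rw [hmain]
  -- bound
  have hcont : Continuous (fun ξ : ℝ => ∫ η, G0 η * ‖SS Q R m D A Z ξ η k‖) := by
    refine continuous_of_dominated (bound := fun η => G0 η * C) ?_ ?_ (hG0.mul_const C) ?_
    · intro ξ
      exact hG0.aestronglyMeasurable.mul (((SS_cont Q R m D A Z k).comp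
        (by fun_prop : Continuous fun η : ℝ => (ξ, η))).norm.aestronglyMeasurable)
    · intro ξ
      refine Filter.Eventually.of_forall fun η => ?_
      rw [norm_mul, norm_norm, Real.norm_eq_abs, abs_of_nonneg (hG00 η)]
      exact mul_le_mul_of_nonneg_left (hC ξ η) (hG00 η)
    · refine Filter.Eventually.of_forall fun η => ?_
      exact continuous_const.mul ((SS_cont Q R m D A Z k).comp
        (by fun_prop : Continuous fun ξ : ℝ => (ξ, η))).norm
  have hnn : ∀ ξ : ℝ, 0 ≤ ∫ η, G0 η * ‖SS Q R m D A Z ξ η k‖ := fun ξ =>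
    integral_nonneg fun η => mul_nonneg (hG00 η) (norm_nonneg _)
  have hint3 : ∀ ξ : ℝ, Integrable (fun η => G0 η * ‖SS Q R m D A Z ξ η k‖) := by
    intro ξ
    refine Integrable.mono' (hG0.mul_const C) (hG0.aestronglyMeasurable.mul
      (((SS_cont Q R m D A Z k).comp
        (by fun_prop : Continuous fun η : ℝ => (ξ, η))).norm.aestronglyMeasurable))
      (Filter.Eventually.of_forall fun η => ?_)
    rw [norm_mul, norm_norm, Real.norm_eq_abs, abs_of_nonneg (hG00 η)]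
    exact mul_le_mul_of_nonneg_left (hC ξ η) (hG00 η)
  have hbd : ∀ ξ : ℝ, (∫ η, G0 η * ‖SS Q R m D A Z ξ η k‖) ≤ (∫ η, G0 η) * C := by
    intro ξ
    rw [← integral_mul_const]
    exact integral_mono (hint3 ξ) (hG0.mul_const C)
      (fun η => mul_le_mul_of_nonneg_left (hC ξ η) (hG00 η))
  have hint4 : Integrable (fun ξ : ℝ => M / (1 + ξ ^ 2) *
      ∫ η, G0 η * ‖SS Q R m D A Z ξ η k‖) := by
    have hc : Continuous (fun ξ : ℝ => M / (1 + ξ ^ 2)) := by
      refine continuous_const.div (by fun_prop) (fun ξ => ?_)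
      positivity
    refine Integrable.mono' ((integrable_inv_one_add_sq.const_mul M).mul_const
      ((∫ η, G0 η) * C)) (hc.mul hcont).aestronglyMeasurable
      (Filter.Eventually.of_forall fun ξ => ?_)
    have h0 : 0 ≤ M / (1 + ξ ^ 2) := by positivity
    rw [norm_mul, Real.norm_eq_abs, Real.norm_eq_abs, abs_of_nonneg h0, abs_of_nonneg (hnn ξ),
      ← div_eq_mul_inv]
    exact mul_le_mul_of_nonneg_left (hbd ξ) h0
  refine norm_integral_le_of_norm_le hint4 (Filter.Eventually.of_forall fun ξ => ?_)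
  rw [norm_mul, norm_mul, norm_ex, mul_one]
  refine mul_le_mul (hFb ξ) ?_ (norm_nonneg _) (by positivity)
  refine norm_integral_le_of_norm_le (hint3 ξ) (Filter.Eventually.of_forall fun η => ?_)
  rw [norm_mul]
  exact mul_le_mul_of_nonneg_right (hG η) (norm_nonneg _)

end H426AM
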