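import Pool.Agent.H426AM.CTUniform
import Pool.Agent.H426AM.SepUniform
import Pool.Agent.H426AM.DualLS
import Pool.Agent.H426AM.SSMean
import Pool.Agent.H426AM.Small
import Pool.Agent.H426AM.FTSplit
import Pool.Agent.H426AM.UUSep
import Pool.Agent.H426AM.EELe
import Pool.Agent.H426AM.IntMean
import Pool.Agent.H426AM.BlockNum

/-!
Task A13: almost all moduli in `(K,2K]`, all `X ∈ [X1,2X1]`.
-/

open Finset MeasureTheory

namespace H426AM

open H343 H343.KF H336V H336V.PairA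

namespace BlockAux

lemma CT_mono {B M M' : ℝ} {l : ℝ → ℂ} (h : M ≤ M') (hl : CT B M l) : CT B M' l := by
  obtain ⟨F, hF1, hF2, hF3⟩ := hl.sep
  refine ⟨⟨hl.ct.diff, hl.ct.supp, fun v => (hl.ct.bd v).trans h, hl.ct.var.trans h, ?_⟩, ?_⟩
  · obtain ⟨F, h1, h2, h3, h4⟩ := hl.ct.sep
    exact ⟨F, h1, h2, h3.trans h, h4⟩
  · refine ⟨F, hF1, fun ξ => (hF2 ξ).trans ?_, hF3⟩
    have : 0 < 1 + ξ ^ 2 := by positivity
    gcongr

lemma test_exp {B : ℝ} {lam : ℝ → ℝ} (hl : Test B lam) : Test B (fun v => lam v * Real.exp v) :=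
  ⟨hl.smooth.mul Real.contDiff_exp, fun v hv => by simp [hl.supp v hv]⟩

lemma ww_zero {Q R m D : ℕ} {p : Σ q : ℕ, DirichletCharacter ℂ q} (hp : p ∈ PC D)
    (h : R ≤ D * m) (hm : 1 ≤ m) : ww Q R m p = 0 := by
  have h1 := (mem_PC hp).1
  unfold ww
  rw [if_neg]
  intro h2
  unfold H343.Mod at h2
  rw [mem_filter, mem_Ioc] at h2
  have h3 : D * m < p.1 * m := Nat.mul_lt_mul_of_pos_right h1 hm
  omega

lemma UU_zero (l : ℝ → ℂ) (Y : ℝ) {k Q R N y m D : ℕ} (h : R ≤ D * m) (hm : 1 ≤ m) :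
    UU l Y k Q R N y m D = 0 := by
  unfold UU
  apply sum_eq_zero
  intro p hp
  rw [ww_zero hp h hm, zero_mul, zero_mul]

/-- the integral attached to a block -/
noncomputable def II (M : ℝ) (G0 : ℝ → ℝ) (Q R m D A Z k : ℕ) : ℝ :=
  ∫ ξ : ℝ, M / (1 + ξ ^ 2) * ∫ η, G0 η * ‖SS Q R m D A Z ξ η k‖

lemma II_nonneg {M : ℝ} (hM : 0 < M) {G0 : ℝ → ℝ} (hG0 : ∀ η, 0 ≤ G0 η) (Q R m D A Z k : ℕ) :
    0 ≤ II M G0 Q R m D A Z k := by
  unfold II
  apply integral_nonneg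
  intro ξ
  have : 0 ≤ ∫ η, G0 η * ‖SS Q R m D A Z ξ η k‖ :=
    integral_nonneg fun η => mul_nonneg (hG0 η) (norm_nonneg _)
  have h2 : 0 ≤ M / (1 + ξ ^ 2) := by positivity
  exact mul_nonneg h2 this

lemma harm (R : ℕ) (X : ℝ) (hX : 1 ≤ X) (hR : (R : ℝ) ≤ X) :
    ∑ m ∈ Icc 1 R, 1 / (m : ℝ) ≤ 1 + Real.log X := by
  have h := harmonic_le_one_add_log R
  have h5 : ∑ m ∈ Icc 1 R, 1 / (m : ℝ) = (harmonic R : ℝ) := by
    rw [harmonic_eq_sum_Icc]
    push_cast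
    exact sum_congr rfl fun m _ => one_div _
  rw [h5]
  refine h.trans ?_
  rcases Nat.eq_zero_or_pos R with h0 | h0
  · subst h0
    have := Real.log_nonneg hX
    simp
    linarith
  · have : (0 : ℝ) < R := by exact_mod_cast h0
    have := Real.log_le_log this hR
    linarith

lemma J_le (R : ℕ) (X : ℝ) (hX : 1 ≤ X) (hR : (R : ℝ) ≤ X) :
    ((Nat.log 2 R + 1 : ℕ) : ℝ) ≤ 2 * (1 + Real.log X) := by
  have hl2 : 1 / 2 < Real.log 2 := by
    have := Real.log_two_gt_d9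
    linarith
  have hlX : 0 ≤ Real.log X := Real.log_nonneg hX
  rcases Nat.eq_zero_or_pos R with h0 | h0
  · subst h0
    simp
    linarith
  · have h6 : ((Nat.log 2 R : ℕ) : ℝ) * Real.log 2 ≤ Real.log R := by
      have h7 : (2 : ℝ) ^ (Nat.log 2 R) ≤ R := by
        exact_mod_cast Nat.pow_log_le_self 2 (by omega)
      have h8 := Real.log_le_log (by positivity) h7
      rwa [Real.log_pow] at h8
    have hR0 : (0 : ℝ) < R := by exact_mod_cast h0
    have h7 : Real.log R ≤ Real.log X := Real.log_le_log hR0 hR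
    have hn0 : (0 : ℝ) ≤ ((Nat.log 2 R : ℕ) : ℝ) := by positivity
    push_cast
    nlinarith

/-- Markov -/
lemma markov (S : Finset ℕ) (W : ℕ → ℝ) (hW : ∀ k ∈ S, 0 ≤ W k) (T c : ℝ) (hc : 0 < c)
    (h : ∑ k ∈ S, W k ≤ T) : ∃ bad : Finset ℕ, bad ⊆ S ∧ (bad.card : ℝ) ≤ T / c ∧
      ∀ k ∈ S, k ∉ bad → W k ≤ c := by
  classical
  refine ⟨S.filter (fun k => c < W k), filter_subset _ _, ?_, ?_⟩
  · rw [le_div_iff₀ hc]
    calc ((S.filter (fun k => c < W k)).card : ℝ) * c = ∑ k ∈ S.filter (fun k => c < W k), c := by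
          rw [sum_const, nsmul_eq_mul]
      _ ≤ ∑ k ∈ S.filter (fun k => c < W k), W k :=
          sum_le_sum fun k hk => (mem_filter.1 hk).2.le
      _ ≤ ∑ k ∈ S, W k := sum_le_sum_of_subset_of_nonneg (filter_subset _ _)
          fun k hk _ => hW k hk
      _ ≤ T := h
  · intro k hk hkb
    rw [mem_filter, not_and] at hkb
    exact not_lt.1 (hkb hk)

end BlockAux

open BlockAux in
theorem block {B : ℝ} {lam : ℝ → ℝ} (hB : 1 ≤ B) (hl : Test B lam) (ε η : ℝ) (hε : 0 < ε)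
    (hε1 : ε ≤ 1 / 100) (hη : 0 < η) : ∃ X0 : ℝ, ∀ (X1 : ℝ) (K : ℕ), X0 ≤ X1 → 1 ≤ K →
    (K : ℝ) ≤ 2 * X1 → X1 ^ (1 / 2 + ε) ≤ 2 * K → ∃ bad : Finset ℕ, bad ⊆ Ioc K (2 * K) ∧
      (bad.card : ℝ) ≤ K * X1 ^ (-(ε / 5)) ∧
      ∀ k ∈ Ioc K (2 * K), k ∉ bad → ∀ X : ℝ, X1 ≤ X → X ≤ 2 * X1 → RangeA ε X k →
      ‖EE lam X (k / X) k ⌈(2 * X1) ^ (1 + 4 * ε) / K⌉₊ ⌊X1 ^ (1 / 2 - ε)⌋₊
        ⌈Real.exp B * (2 * ⌊X1 ^ (1 / 2 - ε)⌋₊) * (2 * K / X1)⌉₊‖ ≤ η * k := by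
  classical
  obtain ⟨M1, hM1, hf1⟩ := ctest_uniform hl
  obtain ⟨M2, hM2, hf2⟩ := ctest_uniform (test_exp hl)
  set M : ℝ := max M1 M2 with hMdef
  have hM : 0 < M := lt_of_lt_of_le hM1 (le_max_left _ _)
  have hf1' : ∀ τ : ℝ, |τ| ≤ 1 → CT B M (lt lam τ) := fun τ hτ =>
    CT_mono (le_max_left _ _) (hf1 τ hτ)
  have hf2' : ∀ τ : ℝ, |τ| ≤ 1 → CT B M (lt (fun v => lam v * Real.exp v) τ) := fun τ hτ =>
    CT_mono (le_max_right _ _) (hf2 τ hτ)
  obtain ⟨CG, hCG, hsep⟩ := sep_uniform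
  obtain ⟨CS, hCS, hSS⟩ := SS_mean_of dual_ls (ε / 30) (by positivity)
  obtain ⟨XS, hXS⟩ := small_bound M ε hM hε hε1
  set c : ℝ := 4 * Real.exp B with hcdef
  have hexp : 1 ≤ Real.exp B := Real.one_le_exp (by linarith)
  have hc1 : 1 ≤ c := by rw [hcdef]; linarith
  set E : ℝ := 1 + 12 * CS * (3 * c + 2) ^ 2 * (2 * c + 1) with hEdef
  have hE0 : 0 < E := by positivity
  set CT0 : ℝ := 2 * (M * Real.pi * (CG * 3) * E) with hCT0
  obtain ⟨XL, hXL1, hXL⟩ := BlockNum.large CT0 (3 / 20 * ε) (by positivity)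
  obtain ⟨XE, hXE1, hXE⟩ := BlockNum.large (24 / η) (ε / 10) (by positivity)
  refine ⟨max (max XS XL) (max XE 1), ?_⟩
  intro X1 K hX1 hK hKX hXK
  have hX1S : XS ≤ X1 := ((le_max_left _ _).trans (le_max_left _ _)).trans hX1
  have hX1L : XL ≤ X1 := ((le_max_right _ _).trans (le_max_left _ _)).trans hX1
  have hX1E : XE ≤ X1 := ((le_max_left _ _).trans (le_max_right _ _)).trans hX1
  have hX11 : 1 ≤ X1 := ((le_max_right _ _).trans (le_max_right _ _)).trans hX1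
  have hX0 : 0 < X1 := by linarith
  have hK1 : (1 : ℝ) ≤ K := by exact_mod_cast hK
  have hK0 : (0 : ℝ) < K := by linarith
  have hlog : 0 ≤ Real.log X1 := Real.log_nonneg hX11
  set Q : ℕ := ⌈(2 * X1) ^ (1 + 4 * ε) / K⌉₊ with hQ
  set R : ℕ := ⌊X1 ^ (1 / 2 - ε)⌋₊ with hR
  set N : ℕ := ⌈Real.exp B * (2 * R) * (2 * K / X1)⌉₊ with hN
  set D0 : ℕ := ⌈X1 ^ ε⌉₊ with hD0
  set J : ℕ := Nat.log 2 R + 1 with hJ
  set Z : ℕ := ⌊2 * X1⌋₊ with hZ
  have hXε : 1 ≤ X1 ^ ε := Real.one_le_rpow hX11 hε.le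
  have hD0ge : X1 ^ ε ≤ D0 := Nat.le_ceil _
  have hD01 : 1 ≤ D0 := by
    have : (1 : ℝ) ≤ D0 := hXε.trans hD0ge
    exact_mod_cast this
  have hD0le : (D0 : ℝ) ≤ 2 * X1 ^ ε := by
    have := Nat.ceil_lt_add_one (by linarith : 0 ≤ X1 ^ ε)
    linarith
  have hRle : (R : ℝ) ≤ X1 ^ (1 / 2 - ε) := Nat.floor_le (by positivity)
  have hX12 : X1 ^ (1 / 2 - ε) ≤ X1 := by
    calc X1 ^ (1 / 2 - ε) ≤ X1 ^ (1 : ℝ) :=
          Real.rpow_le_rpow_of_exponent_le hX11 (by linarith)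
      _ = X1 := Real.rpow_one _
  have hRX : (R : ℝ) ≤ X1 := hRle.trans hX12
  have hJR : R ≤ 2 ^ J * D0 := by
    have h1 : R < 2 ^ J := Nat.lt_pow_succ_log_self (by norm_num) R
    calc R ≤ 2 ^ J * 1 := by omega
      _ ≤ 2 ^ J * D0 := Nat.mul_le_mul_left _ hD01
  have hZ1 : 1 ≤ Z := Nat.le_floor (by push_cast; linarith)
  have hZle : (Z : ℝ) ≤ 2 * X1 := Nat.floor_le (by positivity)
  obtain ⟨G0, hG0i, hG00, hG0I, hG⟩ := hsep Z hZ1
  set Af : ℕ → ℕ → ℕ := fun j m => ⌊Real.exp B * (2 * ((2 ^ j * D0 : ℕ) : ℝ) * m) * (2 * K / X1)⌋₊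
    with hAf
  set W : ℕ → ℝ := fun k => ∑ j ∈ range J, ∑ m ∈ Icc 1 R,
    if (2 ^ j * D0) * m < R then II M G0 Q R m (2 ^ j * D0) (Af j m) Z k else 0 with hW
  have hW0 : ∀ k, 0 ≤ W k := by
    intro k
    apply sum_nonneg; intro j _
    apply sum_nonneg; intro m _
    split_ifs
    · exact II_nonneg hM hG00 _ _ _ _ _ _ _
    · exact le_rfl
  -- mean of W
  have hIG : ∫ η, G0 η ≤ CG * (3 * (1 + Real.log X1)) := by
    refine hG0I.trans ?_
    have h1 : Real.log Z ≤ Real.log (2 * X1) :=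
      Real.log_le_log (by exact_mod_cast hZ1) hZle
    have h2 : Real.log (2 * X1) = Real.log 2 + Real.log X1 :=
      Real.log_mul (by norm_num) hX0.ne'
    have h3 := Real.log_two_lt_d9
    have : 1 + Real.log Z ≤ 3 * (1 + Real.log X1) := by linarith
    gcongr
  have hIG0 : 0 ≤ ∫ η, G0 η := integral_nonneg hG00
  have hblock : ∀ j ∈ range J, ∀ m ∈ Icc 1 R, ∑ k ∈ Ioc K (2 * K),
      (if (2 ^ j * D0) * m < R then II M G0 Q R m (2 ^ j * D0) (Af j m) Z k else 0) ≤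
      M * Real.pi * (CG * (3 * (1 + Real.log X1))) * (E * (K : ℝ) ^ 2 * X1 ^ (-(9 / 20 * ε))) *
        (1 / (m : ℝ)) := by
    intro j _ m hm
    rw [mem_Icc] at hm
    have hm1 : (1 : ℝ) ≤ m := by exact_mod_cast hm.1
    have hlog1 : 0 ≤ 1 + Real.log X1 := by linarith
    by_cases hlt : (2 ^ j * D0) * m < R
    · simp only [if_pos hlt]
      set D : ℕ := 2 ^ j * D0 with hD
      have hDD0 : D0 ≤ D := Nat.le_mul_of_pos_left _ (by positivity)
      have hD1 : 1 ≤ D := by omega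
      set A : ℕ := Af j m with hA
      have hDr : X1 ^ ε ≤ (D : ℝ) := hD0ge.trans (by exact_mod_cast hDD0)
      have hDm : (D : ℝ) * m ≤ X1 ^ (1 / 2 - ε) := by
        refine le_trans ?_ hRle
        exact_mod_cast hlt.le
      have hAle : (A : ℝ) ≤ c * ((D : ℝ) * m) * (K / X1) := by
        refine (Nat.floor_le (by positivity)).trans (le_of_eq ?_)
        rw [hcdef]
        ring
      have hnum := BlockNum.numS hCS hc1 hε hε1 hX11 hK1 hKX hXK hDr hm1 hDm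
        (Nat.cast_nonneg A) hAle (Nat.cast_nonneg Z) (by linarith)
      set S : ℝ := CS * ((D : ℝ) * m * (A + 1) * (Z + 1)) ^ (ε / 30) * ((K : ℝ) + (D : ℝ) ^ 2) *
        ((A : ℝ) * Z + (D : ℝ) ^ 2) * ((A : ℝ) * Z) / ((D : ℝ) ^ 3 * (m : ℝ) ^ 4) with hS
      have hS0 : 0 ≤ S := by positivity
      have h1 := int_mean hM G0 hG0i hG00 K Q R m D A Z S hS0 (by
        intro ξ η'
        refine (hSS K Q R m D A Z ξ η' hD1 hm.1).trans (le_of_eq ?_)
        rw [hS]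
        push_cast
        rfl)
      have h2 : ∑ k ∈ Ioc K (2 * K), II M G0 Q R m D A Z k ≤
          M * Real.pi * (∫ η, G0 η) * Real.sqrt (K * S) := h1
      refine h2.trans ?_
      have hπ := Real.pi_pos
      calc M * Real.pi * (∫ η, G0 η) * Real.sqrt (K * S)
          ≤ M * Real.pi * (CG * (3 * (1 + Real.log X1))) *
            (E * (K : ℝ) ^ 2 * X1 ^ (-(9 / 20 * ε)) * (1 / (m : ℝ))) := by
            gcongr
        _ = _ := by ring
    · simp only [if_neg hlt]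
      rw [sum_const_zero]
      have hπ := Real.pi_pos
      positivity
  have hmean : ∑ k ∈ Ioc K (2 * K), W k ≤ K * X1 ^ (-(ε / 5)) * (K * X1 ^ (-(ε / 10))) := by
    have h1 : ∑ k ∈ Ioc K (2 * K), W k = ∑ j ∈ range J, ∑ m ∈ Icc 1 R, ∑ k ∈ Ioc K (2 * K),
      (if (2 ^ j * D0) * m < R then II M G0 Q R m (2 ^ j * D0) (Af j m) Z k else 0) := by
      rw [hW]
      simp only
      rw [sum_comm]
      apply sum_congr rfl
      intro j _
      rw [sum_comm]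
    rw [h1]
    refine (sum_le_sum fun j hj => sum_le_sum fun m hm => hblock j hj m hm).trans ?_
    simp_rw [← mul_sum]
    rw [sum_const, card_range, nsmul_eq_mul]
    have hJle := J_le R X1 hX11 hRX
    rw [← hJ] at hJle
    have hh := harm R X1 hX11 hRX
    have hh0 : 0 ≤ ∑ m ∈ Icc 1 R, 1 / (m : ℝ) := sum_nonneg fun m _ => by positivity
    have hlog1 : 0 ≤ 1 + Real.log X1 := by linarith
    have hπ := Real.pi_pos
    have hlarge := hXL X1 hX1L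
    calc M * Real.pi * (CG * (3 * (1 + Real.log X1))) *
          (E * (K : ℝ) ^ 2 * X1 ^ (-(9 / 20 * ε))) * ((J : ℝ) * ∑ m ∈ Icc 1 R, 1 / (m : ℝ))
        ≤ M * Real.pi * (CG * (3 * (1 + Real.log X1))) *
          (E * (K : ℝ) ^ 2 * X1 ^ (-(9 / 20 * ε))) *
            ((2 * (1 + Real.log X1)) * (1 + Real.log X1)) := by gcongr
      _ = (CT0 * (1 + Real.log X1) ^ 3) * ((K : ℝ) ^ 2 * X1 ^ (-(9 / 20 * ε))) := by
          rw [hCT0]; ring
      _ ≤ X1 ^ (3 / 20 * ε) * ((K : ℝ) ^ 2 * X1 ^ (-(9 / 20 * ε))) := by gcongr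
      _ = (K : ℝ) ^ 2 * (X1 ^ (3 / 20 * ε) * X1 ^ (-(9 / 20 * ε))) := by ring
      _ = (K : ℝ) ^ 2 * (X1 ^ (-(ε / 5)) * X1 ^ (-(ε / 10))) := by
          rw [← Real.rpow_add hX0, ← Real.rpow_add hX0]
          congr 2
          ring
      _ = K * X1 ^ (-(ε / 5)) * (K * X1 ^ (-(ε / 10))) := by ring
  obtain ⟨bad, hbad1, hbad2, hbad3⟩ := markov (Ioc K (2 * K)) W (fun k _ => hW0 k) _
    (K * X1 ^ (-(ε / 10))) (by positivity) hmean
  refine ⟨bad, hbad1, ?_, ?_⟩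
  · refine hbad2.trans (le_of_eq ?_)
    have : (K : ℝ) * X1 ^ (-(ε / 10)) ≠ 0 := by positivity
    field_simp
  intro k hk hkb X hX hX2 hr
  have hWk := hbad3 k hk hkb
  rw [mem_Ioc] at hk
  have hkK : (K : ℝ) < k := by exact_mod_cast hk.1
  have hk2K : (k : ℝ) ≤ 2 * K := by exact_mod_cast hk.2
  have hkX := hr.hkX
  have hX11' : 1 ≤ X := hX11.trans hX
  have hXp : 0 < X := by linarith
  have hk0 : (0 : ℝ) < k := hK0.trans hkK
  have hk1 : 1 ≤ k := by omega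
  set Y : ℝ := k / X with hY
  have hY0 : 0 < Y := by positivity
  have hY1 : Y ≤ 1 := by rw [hY, div_le_one hXp]; exact hkX
  have hY2 : Y ≤ 2 * K / X1 := by
    rw [hY]
    gcongr
  have hXY : X * Y = k := by rw [hY]; field_simp
  -- bound for FT
  have hFT : ∀ (l : ℝ → ℂ), CT B M l → ∀ y : ℕ, y ≤ ⌊X⌋₊ →
      ‖FT l Y k Q R N y‖ ≤ 3 * (K * X1 ^ (-(ε / 10))) := by
    intro l hlct y hy
    have hyX : (y : ℝ) ≤ X := by
      refine le_trans ?_ (Nat.floor_le hXp.le)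
      exact_mod_cast hy
    have hyZ : y ≤ Z := by
      rw [hZ]
      apply Nat.le_floor
      linarith
    refine (FT_split l Y k Q R N y D0 J hk1 hD01 hJR).trans ?_
    have hsm : ∑ q ∈ Mod Q R, 1 / (Nat.totient q : ℝ) ^ 2 *
        ∑ d ∈ q.divisors.filter (fun d => d ≠ 1 ∧ d ≤ D0), KeySharp.GGs l Y N y (q / d) d ≤
        2 * (K * X1 ^ (-(ε / 10))) := by
      have hQle : X ^ (4 * ε) / Y ≤ Q := by
        refine le_trans ?_ (Nat.le_ceil _)
        have h1 : X ^ (4 * ε) / Y = X ^ (1 + 4 * ε) / k := by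
          rw [hY, Real.rpow_add hXp, Real.rpow_one]
          field_simp
        rw [h1]
        gcongr
      have h1 := hXS X Y Q R N D0 y (hX1S.trans hX) hY0 hY1 hQle (hRX.trans hX)
        (hD0le.trans (by gcongr)) (by linarith) B l hlct.ct
      refine h1.trans ?_
      rw [hXY]
      have h2 : X ^ (-(ε / 2)) ≤ X1 ^ (-(ε / 10)) := by
        calc X ^ (-(ε / 2)) ≤ X1 ^ (-(ε / 2)) :=
              Real.rpow_le_rpow_of_nonpos hX0 hX (by linarith)
          _ ≤ X1 ^ (-(ε / 10)) := Real.rpow_le_rpow_of_exponent_le hX11 (by linarith)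
      calc (k : ℝ) * X ^ (-(ε / 2)) ≤ (2 * K) * X1 ^ (-(ε / 10)) := by gcongr
        _ = _ := by ring
    have hlg : ∑ j ∈ range J, ∑ m ∈ Icc 1 R, ‖UU l Y k Q R N y m (2 ^ j * D0)‖ ≤ W k := by
      rw [hW]
      apply sum_le_sum
      intro j _
      apply sum_le_sum
      intro m hm
      rw [mem_Icc] at hm
      split_ifs with hlt
      · set D : ℕ := 2 ^ j * D0 with hD
        have hD1 : 1 ≤ D := by
          have : 0 < 2 ^ j := by positivity
          exact Nat.mul_pos this hD01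
        obtain ⟨G, hGc, hGb, hGy⟩ := hG y hyZ
        have hmr : (0 : ℝ) < m := by exact_mod_cast hm.1
        have hDr : (0 : ℝ) < D := by exact_mod_cast hD1
        refine UU_sep hM hlct Y hY0 k Q R N y m D (Af j m) Z hD1 hm.1 ?_ ?_ hyZ G0 hG0i G hGc
          hGb hGy
        · refine lt_of_le_of_lt ?_ (Nat.lt_floor_add_one _)
          gcongr
        · rw [hN, hAf]
          refine (Nat.floor_le_floor (b := Real.exp B * (2 * R) * (2 * K / X1)) ?_).trans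
            (Nat.floor_le_ceil _)
          have : (D : ℝ) * m ≤ R := by exact_mod_cast hlt.le
          calc Real.exp B * (2 * ((2 ^ j * D0 : ℕ) : ℝ) * m) * (2 * K / X1)
              = Real.exp B * (2 * ((D : ℝ) * m)) * (2 * K / X1) := by rw [hD]; ring
            _ ≤ _ := by gcongr
      · rw [UU_zero l Y (not_lt.1 hlt) hm.1, norm_zero]
    linarith
  have hEE := EE_le lam X Y hX11' hY0 k Q R N (3 * (K * X1 ^ (-(ε / 10))))
    (fun y hy τ hτ => hFT _ (hf1' τ hτ) y hy) (fun y hy τ hτ => hFT _ (hf2' τ hτ) y hy)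
  refine hEE.trans ?_
  have hE24 := hXE X1 hX1E
  have h24 : 24 / η ≤ X1 ^ (ε / 10) := by
    refine le_trans ?_ hE24
    have h1 : (1 : ℝ) ≤ (1 + Real.log X1) ^ 3 := by
      have : (1 : ℝ) ≤ 1 + Real.log X1 := by linarith
      exact one_le_pow₀ this
    have h2 : 0 < 24 / η := by positivity
    nlinarith
  have hπ4 := Real.pi_lt_four
  have hπ : Real.pi ≤ 3.15 := Real.pi_lt_d2.le
  have h3 : 24 * X1 ^ (-(ε / 10)) ≤ η := by
    rw [Real.rpow_neg hX0.le, ← div_eq_mul_inv, div_le_iff₀ (by positivity)]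
    rw [div_le_iff₀ hη] at h24
    linarith
  calc (1 + 2 * Real.pi) * (3 * (K * X1 ^ (-(ε / 10))))
      ≤ 8 * (3 * (K * X1 ^ (-(ε / 10)))) := by
        gcongr
        linarith
    _ = K * (24 * X1 ^ (-(ε / 10))) := by ring
    _ ≤ K * η := by gcongr
    _ ≤ η * k := by nlinarith

end H426AM
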