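import Pool.Agent.H426AM.Defs
import Pool.Agent.H336R2.V.CTestFamily

/-! Task A7: uniform family of test functions (helper113; adapted from H336R2/V/CTestFamily) -/

open Finset MeasureTheory

namespace H426AM

open H343 H343.KF H336V H336V.PairA

namespace CTU

open H336V.CTF

open FourierTransform in
lemma sep_of {R C : ℝ} (hR : 0 ≤ R) (hC : 0 ≤ C) {f f1 f2 : ℝ → ℂ}
    (hs : ContDiff ℝ ((⊤ : ℕ∞) : WithTop ℕ∞) f)
    (h1 : ∀ v, HasDerivAt f (f1 v) v) (h2 : ∀ v, HasDerivAt f1 (f2 v) v) (hc2 : Continuous f2)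
    (b0 : ∀ v, ‖f v‖ ≤ C) (b2 : ∀ v, ‖f2 v‖ ≤ C)
    (z0 : ∀ v, R < |v| → f v = 0) (z1 : ∀ v, R < |v| → f1 v = 0) (z2 : ∀ v, R < |v| → f2 v = 0) :
    ∃ F : ℝ → ℂ, Continuous F ∧
      (∀ ξ, ‖F ξ‖ ≤ (C + 2 * R * C + 4 * R * C * Real.pi + 1) / (1 + ξ ^ 2)) ∧
      ∀ v : ℝ, f v = ∫ ξ, F ξ * ex (ξ * v) := by
  have hRC : 0 ≤ R * C := mul_nonneg hR hC
  have hRCp : 0 ≤ R * C * Real.pi := mul_nonneg hRC Real.pi_pos.le
  have hRCp1 : R * C ≤ R * C * Real.pi := by nlinarith [Real.pi_gt_three]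
  have d1 : deriv f = f1 := funext fun v => (h1 v).deriv
  have d2 : deriv f1 = f2 := funext fun v => (h2 v).deriv
  have c0 : Continuous f := hs.continuous
  have c1 : Continuous f1 := continuous_iff_continuousAt.mpr fun v => (h2 v).continuousAt
  have i0 := integrable_of c0 z0
  have i1 := integrable_of c1 z1
  have i2 := integrable_of hc2 z2
  have hc : HasCompactSupport f := by
    apply HasCompactSupport.intro (isCompact_Icc : IsCompact (Set.Icc (-R) R))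
    intro v hv
    apply z0
    by_contra h
    push Not at h
    exact hv (Set.mem_Icc.mpr (abs_le.mp h))
  set g : SchwartzMap ℝ ℂ := hc.toSchwartzMap hs with hg
  have hgf : (g : ℝ → ℂ) = f := rfl
  have hgF : ∀ ξ, (𝓕 g) ξ = 𝓕 f ξ := by
    intro ξ
    rw [SchwartzMap.fourier_coe, hgf]
  have e1 : 𝓕 f1 = fun (x : ℝ) ↦ (2 * Real.pi * Complex.I * x) • (𝓕 f x) := by
    rw [← d1]
    exact Real.fourier_deriv i0 (fun v => (h1 v).differentiableAt) (by rw [d1]; exact i1)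
  have e2 : 𝓕 f2 = fun (x : ℝ) ↦ (2 * Real.pi * Complex.I * x) • (𝓕 f1 x) := by
    rw [← d2]
    exact Real.fourier_deriv i1 (fun v => (h2 v).differentiableAt) (by rw [d2]; exact i2)
  have nb : ∀ (u : ℝ → ℂ) (ξ : ℝ), ‖𝓕 u ξ‖ ≤ ∫ v, ‖u v‖ := by
    intro u ξ
    exact VectorFourier.norm_fourierIntegral_le_integral_norm _ _ _ _ _
  have n0 : ∀ ξ : ℝ, ‖𝓕 f ξ‖ ≤ 2 * R * C := fun ξ => (nb f ξ).trans (zero_off hR z0 b0)
  have n2 : ∀ ξ : ℝ, ξ ^ 2 * ‖𝓕 f ξ‖ ≤ 2 * R * C := by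
    intro ξ
    have h3 : ‖𝓕 f2 ξ‖ ≤ 2 * R * C := (nb f2 ξ).trans (zero_off hR z2 b2)
    have h4 : ‖𝓕 f2 ξ‖ = (2 * Real.pi * |ξ|) ^ 2 * ‖𝓕 f ξ‖ := by
      rw [e2]
      simp only [e1]
      rw [norm_smul, norm_smul]
      have : ‖(2 * Real.pi * Complex.I * ξ : ℂ)‖ = 2 * Real.pi * |ξ| := by
        rw [norm_mul, norm_mul, norm_mul, Complex.norm_I, Complex.norm_real, Complex.norm_real]
        simp [abs_of_pos Real.pi_pos]
      rw [this]
      ring
    rw [h4] at h3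
    refine le_trans ?_ h3
    apply mul_le_mul_of_nonneg_right _ (norm_nonneg _)
    rw [mul_pow, sq_abs]
    have : (1 : ℝ) ≤ (2 * Real.pi) ^ 2 := by nlinarith [Real.pi_gt_three]
    nlinarith [sq_nonneg ξ]
  have n3 : ∀ ξ : ℝ, ‖𝓕 f ξ‖ ≤ 4 * R * C * (1 + ξ ^ 2)⁻¹ := by
    intro ξ
    have hp : 0 < 1 + ξ ^ 2 := by positivity
    rw [← div_eq_mul_inv, le_div_iff₀ hp]
    nlinarith [n0 ξ, n2 ξ]
  refine ⟨fun ξ => (𝓕 g) ξ, (𝓕 g).continuous, ?_, ?_⟩
  · intro ξ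
    simp only [hgF]
    refine (n3 ξ).trans ?_
    rw [div_eq_mul_inv]
    refine mul_le_mul_of_nonneg_right ?_ (by positivity)
    nlinarith
  · intro v
    have h2 : 𝓕⁻ (𝓕 g) = g := FourierTransform.fourierInv_fourier_eq g
    have h3 : f v = g v := rfl
    rw [h3]
    conv_lhs => rw [← h2]
    rw [SchwartzMap.fourierInv_coe, Real.fourierInv_eq']
    congr 1
    ext ξ
    unfold ex
    simp only [smul_eq_mul]
    rw [mul_comm]
    congr 2
    simp only [RCLike.inner_apply, conj_trivial]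
    push_cast
    ring


end CTU

open CTF CTU in
theorem ctest_uniform {B : ℝ} {lam : ℝ → ℝ} (hl : Test B lam) : ∃ M : ℝ, 0 < M ∧
    ∀ τ : ℝ, |τ| ≤ 1 → CT B M (lt lam τ) := by
  set R : ℝ := |B| with hRdef
  have hR : 0 ≤ R := abs_nonneg B
  have hsm := hl.smooth
  have hd0 : ∀ v, HasDerivAt lam (deriv lam v) v := fun v =>
    (hsm.differentiable (by simp)).differentiableAt.hasDerivAt
  have hsm1 : ContDiff ℝ ((⊤ : ℕ∞) : WithTop ℕ∞) (deriv lam) :=
    (contDiff_infty_iff_deriv.mp hsm).2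
  have hd1 : ∀ v, HasDerivAt (deriv lam) (deriv (deriv lam) v) v := fun v =>
    (hsm1.differentiable (by simp)).differentiableAt.hasDerivAt
  have hsm2 : ContDiff ℝ ((⊤ : ℕ∞) : WithTop ℕ∞) (deriv (deriv lam)) :=
    (contDiff_infty_iff_deriv.mp hsm1).2
  have l0 : ∀ v, R < |v| → lam v = 0 := fun v hv => hl.supp v ((le_abs_self B).trans hv.le)
  have l1 : ∀ v, R < |v| → deriv lam v = 0 := by
    intro v hv
    have h : lam =ᶠ[nhds v] fun _ => 0 := by
      filter_upwards [(continuous_abs.isOpen_preimage _ isOpen_Ioi).mem_nhds hv] with u hu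
      exact l0 u hu
    rw [h.deriv_eq, deriv_const]
  have l2 : ∀ v, R < |v| → deriv (deriv lam) v = 0 := by
    intro v hv
    have h : deriv lam =ᶠ[nhds v] fun _ => 0 := by
      filter_upwards [(continuous_abs.isOpen_preimage _ isOpen_Ioi).mem_nhds hv] with u hu
      exact l1 u hu
    rw [h.deriv_eq, deriv_const]
  set E : ℝ → ℝ → ℂ := fun τ w => ex (Real.exp w * τ) with hE
  set c : ℝ → ℝ → ℂ := fun τ w => 2 * Real.pi * Complex.I * (τ * Real.exp w : ℝ) with hc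
  have hEd : ∀ τ w, HasDerivAt (E τ) (c τ w * E τ w) w := by
    intro τ w
    have h1 : HasDerivAt (fun w : ℝ => Real.exp w * τ) (Real.exp w * τ) w :=
      (Real.hasDerivAt_exp w).mul_const τ
    have := (H343.KF.hasDerivAt_ex (Real.exp w * τ)).scomp w h1
    convert! this using 1
    simp only [hc, hE, Complex.real_smul]
    push_cast
    ring
  have hcd : ∀ τ w, HasDerivAt (c τ) (c τ w) w := by
    intro τ w
    have h1 : HasDerivAt (fun w : ℝ => τ * Real.exp w) (τ * Real.exp w) w :=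
      (Real.hasDerivAt_exp w).const_mul τ
    exact h1.ofReal_comp.const_mul _
  have ha : ∀ w, HasDerivAt (fun w => (lam w : ℂ)) (deriv lam w : ℝ) w := fun w => (hd0 w).ofReal_comp
  have hb : ∀ w, HasDerivAt (fun w => ((deriv lam w : ℝ) : ℂ)) (deriv (deriv lam) w : ℝ) w :=
    fun w => (hd1 w).ofReal_comp
  set f : ℝ → ℝ → ℂ := fun τ w => (lam w : ℂ) * E τ w with hf
  set f1 : ℝ → ℝ → ℂ := fun τ w => ((deriv lam w : ℝ) : ℂ) * E τ w + (lam w : ℂ) * (c τ w * E τ w)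
    with hf1
  set f2 : ℝ → ℝ → ℂ := fun τ w => (((deriv (deriv lam) w : ℝ) : ℂ) * E τ w +
    ((deriv lam w : ℝ) : ℂ) * (c τ w * E τ w)) + (((deriv lam w : ℝ) : ℂ) * (c τ w * E τ w) +
      (lam w : ℂ) * (c τ w * E τ w + c τ w * (c τ w * E τ w))) with hf2
  have D1 : ∀ τ w, HasDerivAt (f τ) (f1 τ w) w := fun τ w => (ha w).mul (hEd τ w)
  have D2 : ∀ τ w, HasDerivAt (f1 τ) (f2 τ w) w := fun τ w =>
    ((hb w).mul (hEd τ w)).add ((ha w).mul ((hcd τ w).mul (hEd τ w)))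
  have cl0 : Continuous lam := hsm.continuous
  have cl1 : Continuous (deriv lam) := hsm1.continuous
  have cl2 : Continuous (deriv (deriv lam)) := hsm2.continuous
  have cE : Continuous (fun p : ℝ × ℝ => E p.1 p.2) := by
    simp only [hE]
    unfold ex
    fun_prop
  have cc : Continuous (fun p : ℝ × ℝ => c p.1 p.2) := by
    simp only [hc]
    fun_prop
  have cf0 : Continuous (fun p : ℝ × ℝ => f p.1 p.2) := by
    simp only [hf]
    fun_prop
  have cf1 : Continuous (fun p : ℝ × ℝ => f1 p.1 p.2) := by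
    simp only [hf1]
    fun_prop
  have cf2 : Continuous (fun p : ℝ × ℝ => f2 p.1 p.2) := by
    simp only [hf2]
    fun_prop
  have z0 : ∀ τ v, R < |v| → f τ v = 0 := fun τ v hv => by simp [hf, l0 v hv]
  have z1 : ∀ τ v, R < |v| → f1 τ v = 0 := fun τ v hv => by simp [hf1, l0 v hv, l1 v hv]
  have z2 : ∀ τ v, R < |v| → f2 τ v = 0 := fun τ v hv => by simp [hf2, l0 v hv, l1 v hv, l2 v hv]
  have hK : IsCompact (Set.Icc (-1 : ℝ) 1 ×ˢ Set.Icc (-R) R) := isCompact_Icc.prod isCompact_Icc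
  obtain ⟨C0, hC0⟩ := hK.exists_bound_of_continuousOn cf0.continuousOn
  obtain ⟨C1, hC1⟩ := hK.exists_bound_of_continuousOn cf1.continuousOn
  obtain ⟨C2, hC2⟩ := hK.exists_bound_of_continuousOn cf2.continuousOn
  set C : ℝ := max 0 (max C0 (max C1 C2)) with hCdef
  have hC : 0 ≤ C := le_max_left _ _
  have bd : ∀ (u : ℝ → ℝ → ℂ) (C' : ℝ), C' ≤ C → (∀ τ v, R < |v| → u τ v = 0) →
      (∀ p ∈ Set.Icc (-1 : ℝ) 1 ×ˢ Set.Icc (-R) R, ‖u p.1 p.2‖ ≤ C') →
      ∀ τ, |τ| ≤ 1 → ∀ v, ‖u τ v‖ ≤ C := by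
    intro u C' hC' hz hb τ hτ v
    by_cases hv : R < |v|
    · rw [hz τ v hv, norm_zero]
      exact hC
    · push Not at hv
      exact (hb (τ, v) ⟨Set.mem_Icc.mpr (abs_le.mp hτ), Set.mem_Icc.mpr (abs_le.mp hv)⟩).trans hC'
  refine ⟨C + 2 * R * C + 4 * R * C * Real.pi + 1, by positivity, fun τ hτ => ?_⟩
  have hEs : ContDiff ℝ ((⊤ : ℕ∞) : WithTop ℕ∞) (f τ) := by
    simp only [hf, hE]
    unfold ex
    have h1 : ContDiff ℝ ((⊤ : ℕ∞) : WithTop ℕ∞) (fun w : ℝ => (lam w : ℂ)) :=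
      Complex.ofRealCLM.contDiff.comp hsm
    have h2 : ContDiff ℝ ((⊤ : ℕ∞) : WithTop ℕ∞)
        (fun w : ℝ => ((2 * Real.pi * (Real.exp w * τ) : ℝ) : ℂ)) :=
      Complex.ofRealCLM.contDiff.comp (contDiff_const.mul (Real.contDiff_exp.mul contDiff_const))
    exact h1.mul ((h2.mul contDiff_const).cexp)
  have cf2τ : Continuous (f2 τ) := cf2.comp (Continuous.prodMk continuous_const continuous_id)
  have B0 := bd f C0 ((le_max_left _ _).trans (le_max_right _ _)) z0 hC0 τ hτ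
  have B1 := bd f1 C1 (((le_max_left _ _).trans (le_max_right _ _)).trans (le_max_right _ _)) z1 hC1 τ hτ
  have B2 := bd f2 C2 (((le_max_right _ _).trans (le_max_right _ _)).trans (le_max_right _ _)) z2 hC2 τ hτ
  have hct : CTest B (C + 2 * R * C + 4 * R * C * Real.pi + 1) (f τ) :=
    ctest_of hR hC hEs (D1 τ) (D2 τ) cf2τ
    (fun v hv => by simp [hf, hl.supp v hv]) B0 B1 B2 (z0 τ) (z1 τ) (z2 τ)
  exact ⟨hct, sep_of hR hC hEs (D1 τ) (D2 τ) cf2τ B0 B2 (z0 τ) (z1 τ) (z2 τ)⟩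

end H426AM
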