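import Pool.Agent.H336R2.V.PairB

/-!
Variance of primes in the residue classes modulo ALMOST ALL moduli `k ≥ X^(1/2+ε)`:
definitions (on top of the files of H336R2/V).
-/

open Finset MeasureTheory

namespace H426AM

open H343 H343.KF H336V H336V.PairA

/-- admissible moduli: `X^(1/2+ε) ≤ k ≤ X` -/
structure RangeA (ε X : ℝ) (k : ℕ) : Prop where
  hX : 1 ≤ X
  hkX : (k : ℝ) ≤ X
  hlow : X ^ (1 / 2 + ε) ≤ k

/-- admissible cut-offs; application `Y = k / X` -/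
structure CutsA (ε B X Y : ℝ) (Q R N : ℕ) : Prop where
  hQ : X ^ (4 * ε) / Y ≤ Q
  hR : (R : ℝ) ≤ X ^ (1 / 2 - ε)
  hN : Real.exp B * R * Y ≤ N

/-- `μ(q)/φ(q)^2` -/
noncomputable def mph (q : ℕ) : ℂ :=
  ((((ArithmeticFunction.moebius q : ℤ) : ℝ) / (Nat.totient q : ℝ) ^ 2 : ℝ) : ℂ)

open Classical in
/-- signed contribution of the non-principal characters to the pairing of the primes with the
test vector; `χ⁻¹(-k) = χ(t)` for `t k ≡ -1 (mod q)` -/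
noncomputable def EE (lam : ℝ → ℝ) (X Y : ℝ) (k Q R N : ℕ) : ℂ :=
  ∑ q ∈ ModK k Q R, mph q *
    ∑ χ ∈ (univ : Finset (DirichletCharacter ℂ q)).filter (fun χ => χ ≠ 1),
      χ⁻¹ (-(k : ZMod q)) * GS χ⁻¹ * ZZ lam X Y N χ

open Classical in
/-- the same with a sharp cut-off `n ≤ y` and numerators weighted by `l` -/
noncomputable def FT (l : ℝ → ℂ) (Y : ℝ) (k Q R N y : ℕ) : ℂ :=
  ∑ q ∈ ModK k Q R, mph q *
    ∑ χ ∈ (univ : Finset (DirichletCharacter ℂ q)).filter (fun χ => χ ≠ 1),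
      χ⁻¹ (-(k : ZMod q)) * GS χ⁻¹ * (psiC y χ * KKc l Y N χ)

/-- complex test functions with the uniform Fourier majorant `M/(1+ξ²)` -/
structure CT (B M : ℝ) (l : ℝ → ℂ) : Prop where
  ct : CTest B M l
  sep : ∃ F : ℝ → ℂ, Continuous F ∧ (∀ ξ, ‖F ξ‖ ≤ M / (1 + ξ ^ 2)) ∧
    ∀ v : ℝ, l v = ∫ ξ, F ξ * ex (ξ * v)

/-- weight of the primitive character `p` with cofactor `m` -/
noncomputable def ww (Q R m : ℕ) (p : Σ q : ℕ, DirichletCharacter ℂ q) : ℂ :=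
  if p.1 * m ∈ Mod Q R then mph (p.1 * m) *
    GS (DirichletCharacter.changeLevel (Dvd.intro m rfl : p.1 ∣ p.1 * m) p.2)⁻¹ else 0

/-- conductors in `(D,2D]`, cofactor `m` -/
noncomputable def UU (l : ℝ → ℂ) (Y : ℝ) (k Q R N y m D : ℕ) : ℂ :=
  ∑ p ∈ PC D, ww Q R m p * p.2⁻¹ (-(k : ZMod p.1)) * (psiCm y m p.2 * KKcm l Y N m p.2)

/-- the separated form -/
noncomputable def SS (Q R m D A Z : ℕ) (ξ η : ℝ) (k : ℕ) : ℂ :=
  ∑ p ∈ PC D, (ww Q R m p * ex (-(ξ * Real.log p.1)) *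
    (PP (fun _ => 1) m A ξ p.2 * PP (fun n => (ArithmeticFunction.vonMangoldt n : ℂ)) m Z η p.2)) *
      p.2⁻¹ (-(k : ZMod p.1))

end H426AM
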