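import Pool.Agent.H426AM.Defs
import Pool.Agent.H336R2.V.MeanSum

set_option autoImplicit false

/-! A2: mean of the test vector (adapted from `Pool.Agent.H336R2.V.MeanSum`). -/

open Finset MeasureTheory

namespace H426AM

open H343 H343.KF H336V H336V.PairA

namespace MeanA

open H336V.MeanSum

theorem mean_sumA_of
    (hr : ∀ (k : ℕ), 1 ≤ k → ∀ b : ℤ,
      ‖∑ n ∈ (range k).filter (fun n => n.Coprime k), ex ((n : ℝ) * b / k)‖ ≤
        ∑ d ∈ k.divisors.filter (fun d : ℕ => (d : ℤ) ∣ b), (d : ℝ))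
    {B : ℝ} {lam : ℝ → ℝ} (hB : 1 ≤ B) (hl : Test B lam) (ε η : ℝ) (hε : 0 < ε)
    (hε1 : ε ≤ 1 / 100) (hη : 0 < η) : ∃ X0 : ℝ, ∀ (X : ℝ) (k : ℕ), X0 ≤ X →
    RangeA ε X k → ∀ Q R N : ℕ, CutsA ε B X (k / X) Q R N →
    ‖∑ n ∈ (range k).filter (fun n => n.Coprime k), FF lam (k / X) k Q R N n‖ ≤
      η * Nat.totient k * (k / X) := by
  obtain ⟨M, hM0, hM⟩ := hl.bounded
  set δ : ℝ := ε / 2 with hδ
  have hδ0 : 0 < δ := by positivity
  obtain ⟨C, hC, hdiv⟩ := div_bound δ hδ0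
  obtain ⟨c, hc, hphi⟩ := phi_bound δ hδ0
  set E : ℝ := M * Real.exp B * C / (c * c * η) with hE
  have hE0 : 0 < E := by positivity
  refine ⟨E ^ (2 / ε), fun X k hX hR Q R N hcut => ?_⟩
  have hX1 : 1 ≤ X := hR.hX
  have hX0 : 0 < X := by linarith
  have hk1r : (1 : ℝ) ≤ k := le_trans (Real.one_le_rpow hX1 (by positivity)) hR.hlow
  have hk1 : 1 ≤ k := by exact_mod_cast hk1r
  have hk0 : (0 : ℝ) < k := by linarith
  have hY : 0 < (k : ℝ) / X := by positivity
  have hEX : E ≤ X ^ (ε / 2) := by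
    have := Real.rpow_le_rpow (by positivity) hX (by positivity : (0 : ℝ) ≤ ε / 2)
    rwa [← Real.rpow_mul hE0.le, show (2 / ε * (ε / 2) : ℝ) = 1 by field_simp,
      Real.rpow_one] at this
  have hRle : (R : ℝ) ≤ X ^ (1 / 2 - ε) := hcut.hR
  have hRX : (R : ℝ) ≤ X := by
    refine hRle.trans ?_
    calc X ^ (1 / 2 - ε) ≤ X ^ (1 : ℝ) := Real.rpow_le_rpow_of_exponent_le hX1 (by linarith)
      _ = X := Real.rpow_one X
  set Y : ℝ := k / X with hYdef
  -- the sum
  have step1 : ‖∑ n ∈ (range k).filter (fun n => n.Coprime k), FF lam Y k Q R N n‖ ≤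
      ∑ q ∈ ModK k Q R, ∑ a ∈ (Icc 1 N).filter (fun a => a.Coprime q),
        ‖co lam Y q a‖ * ∑ d ∈ k.divisors.filter (fun d => d ∣ a), (d : ℝ) := by
    have h1 : ∑ n ∈ (range k).filter (fun n => n.Coprime k), FF lam Y k Q R N n =
        ∑ q ∈ ModK k Q R, ∑ a ∈ (Icc 1 N).filter (fun a => a.Coprime q),
          co lam Y q a * ∑ n ∈ (range k).filter (fun n => n.Coprime k),
            ex ((n : ℝ) * ((a * inv k q : ℕ) : ℝ) / k) := by
      unfold FF
      rw [sum_comm]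
      apply sum_congr rfl
      intro q _
      rw [sum_comm]
      apply sum_congr rfl
      intro a _
      rw [mul_sum]
    rw [h1]
    refine (norm_sum_le _ _).trans (sum_le_sum fun q hq => ?_)
    refine (norm_sum_le _ _).trans (sum_le_sum fun a ha => ?_)
    rw [norm_mul]
    apply mul_le_mul_of_nonneg_left _ (norm_nonneg _)
    have h2 := hr k hk1 ((a * inv k q : ℕ) : ℤ)
    rw [Int.cast_natCast] at h2
    refine h2.trans ?_
    apply sum_le_sum_of_subset_of_nonneg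
    · intro d hd
      simp only [mem_filter, Nat.mem_divisors] at hd ⊢
      refine ⟨hd.1, ?_⟩
      have h3 : d ∣ a * inv k q := by exact_mod_cast hd.2
      exact dvd_of_dvd_mul_inv (mem_filter.1 hq).2 hd.1.1 h3
    · intros; positivity
  refine step1.trans ?_
  have step2 : ∀ q ∈ ModK k Q R, ∑ a ∈ (Icc 1 N).filter (fun a => a.Coprime q),
        ‖co lam Y q a‖ * ∑ d ∈ k.divisors.filter (fun d => d ∣ a), (d : ℝ) ≤
      M * Real.exp B * C / c * Y * ((k : ℝ) ^ δ * X ^ δ) := by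
    intro q hq
    simp only [ModK, H343.Mod, mem_filter, mem_Ioc] at hq
    have hq1 : 1 ≤ q := by omega
    have hq0 : (0 : ℝ) < q := by exact_mod_cast hq1
    set n := ⌊Real.exp B * q * Y⌋₊ with hn
    have htot : (0 : ℝ) < Nat.totient q := by exact_mod_cast Nat.totient_pos.2 hq1
    have h1 : ∑ a ∈ (Icc 1 N).filter (fun a => a.Coprime q),
        ‖co lam Y q a‖ * ∑ d ∈ k.divisors.filter (fun d => d ∣ a), (d : ℝ) ≤
        ∑ a ∈ Icc 1 n, M / Nat.totient q * ∑ d ∈ k.divisors.filter (fun d => d ∣ a), (d : ℝ) := by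
      have h2 : ∀ a ∈ (Icc 1 N).filter (fun a => a.Coprime q),
          ‖co lam Y q a‖ * ∑ d ∈ k.divisors.filter (fun d => d ∣ a), (d : ℝ) ≤
          if a ≤ n then M / Nat.totient q * ∑ d ∈ k.divisors.filter (fun d => d ∣ a), (d : ℝ)
            else 0 := by
        intro a ha
        simp only [mem_filter, mem_Icc] at ha
        have h3 := norm_co hl hM hM0.le hY q a hq1 ha.1.1
        rw [← hn] at h3
        have h4 : 0 ≤ ∑ d ∈ k.divisors.filter (fun d => d ∣ a), (d : ℝ) :=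
          sum_nonneg fun _ _ => by positivity
        split_ifs at h3 ⊢ with h5
        · exact mul_le_mul_of_nonneg_right h3 h4
        · have : ‖co lam Y q a‖ = 0 := le_antisymm h3 (norm_nonneg _)
          rw [this, zero_mul]
      refine (sum_le_sum h2).trans ?_
      rw [← sum_filter]
      apply sum_le_sum_of_subset_of_nonneg
      · intro a ha
        simp only [mem_filter, mem_Icc] at ha ⊢
        exact ⟨ha.1.1.1, ha.2⟩
      · intro a _ _
        exact mul_nonneg (by positivity) (sum_nonneg fun _ _ => by positivity)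
    refine h1.trans ?_
    rw [← mul_sum]
    have h2 := sum_div_count k n
    have h3 : (n : ℝ) ≤ Real.exp B * q * Y := Nat.floor_le (by positivity)
    have h4 := hdiv k hk1
    have h5 := hphi q hq1
    have h6 : (q : ℝ) / Nat.totient q ≤ X ^ δ / c := by
      rw [div_le_div_iff₀ htot hc]
      have h7 : (q : ℝ) = (q : ℝ) ^ δ * (q : ℝ) ^ (1 - δ : ℝ) := by
        rw [← Real.rpow_add hq0]; norm_num
      have h8 : (q : ℝ) ^ δ ≤ X ^ δ := by
        apply Real.rpow_le_rpow hq0.le _ hδ0.le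
        refine le_trans ?_ hRX
        exact_mod_cast hq.1.1.2
      calc (q : ℝ) * c = (q : ℝ) ^ δ * (c * (q : ℝ) ^ (1 - δ : ℝ)) := by
            conv_lhs => rw [h7]
            ring
        _ ≤ X ^ δ * Nat.totient q := by gcongr
    calc M / Nat.totient q * ∑ a ∈ Icc 1 n, ∑ d ∈ k.divisors.filter (fun d => d ∣ a), (d : ℝ)
        ≤ M / Nat.totient q * ((C * (k : ℝ) ^ δ) * (Real.exp B * q * Y)) := by
          apply mul_le_mul_of_nonneg_left _ (by positivity)
          refine h2.trans ?_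
          gcongr
      _ = M * Real.exp B * C * Y * (k : ℝ) ^ δ * ((q : ℝ) / Nat.totient q) := by
          field_simp
      _ ≤ M * Real.exp B * C * Y * (k : ℝ) ^ δ * (X ^ δ / c) := by
          gcongr
      _ = M * Real.exp B * C / c * Y * ((k : ℝ) ^ δ * X ^ δ) := by
          ring
  refine (sum_le_sum step2).trans ?_
  rw [sum_const, nsmul_eq_mul]
  have hcard : ((ModK k Q R).card : ℝ) ≤ X ^ (1 / 2 - ε) := by
    refine le_trans ?_ hRle
    have h1 : (ModK k Q R).card ≤ (Ioc Q R).card :=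
      (card_filter_le _ _).trans (card_filter_le _ _)
    rw [Nat.card_Ioc] at h1
    exact_mod_cast h1.trans (Nat.sub_le _ _)
  have hφ := hphi k hk1
  have hkey : X ^ (ε / 2) * (X ^ (1 / 2 - ε) * X ^ δ) ≤ (k : ℝ) ^ (1 - 2 * δ) := by
    have h1 : (X ^ (1 / 2 + ε)) ^ (1 - 2 * δ) ≤ (k : ℝ) ^ (1 - 2 * δ) :=
      Real.rpow_le_rpow (by positivity) hR.hlow (by rw [hδ]; linarith)
    refine le_trans ?_ h1
    rw [← Real.rpow_add hX0, ← Real.rpow_add hX0, ← Real.rpow_mul hX0.le]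
    apply Real.rpow_le_rpow_of_exponent_le hX1
    rw [hδ]
    nlinarith
  calc ((ModK k Q R).card : ℝ) * (M * Real.exp B * C / c * Y * ((k : ℝ) ^ δ * X ^ δ))
      ≤ X ^ (1 / 2 - ε) * (M * Real.exp B * C / c * Y * ((k : ℝ) ^ δ * X ^ δ)) := by
        gcongr
    _ = (E * η * c) * Y * (X ^ (1 / 2 - ε) * X ^ δ * (k : ℝ) ^ δ) := by
        rw [hE]; field_simp
    _ ≤ (X ^ (ε / 2) * η * c) * Y * (X ^ (1 / 2 - ε) * X ^ δ * (k : ℝ) ^ δ) := by gcongr
    _ = η * c * Y * ((X ^ (ε / 2) * (X ^ (1 / 2 - ε) * X ^ δ)) * (k : ℝ) ^ δ) := by ring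
    _ ≤ η * c * Y * ((k : ℝ) ^ (1 - 2 * δ) * (k : ℝ) ^ δ) := by gcongr
    _ = η * (c * (k : ℝ) ^ (1 - δ : ℝ)) * Y := by
        rw [← Real.rpow_add hk0, show 1 - 2 * δ + δ = 1 - δ by ring]
        ring
    _ ≤ η * Nat.totient k * Y := by gcongr

end MeanA

theorem mean_sumA {B : ℝ} {lam : ℝ → ℝ} (hB : 1 ≤ B) (hl : Test B lam) (ε η : ℝ) (hε : 0 < ε)
    (hε1 : ε ≤ 1 / 100) (hη : 0 < η) : ∃ X0 : ℝ, ∀ (X : ℝ) (k : ℕ), X0 ≤ X →
    RangeA ε X k → ∀ Q R N : ℕ, CutsA ε B X (k / X) Q R N →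
    ‖∑ n ∈ (range k).filter (fun n => n.Coprime k), FF lam (k / X) k Q R N n‖ ≤
      η * Nat.totient k * (k / X) :=
  MeanA.mean_sumA_of raman hB hl ε η hε hε1 hη

end H426AM
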