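import Pool.Agent.H426AM.Defs
import Pool.Agent.H336R2.V.NormSum

/-!
A1: norm of the test vector, for `X^(1/2+ε) ≤ k ≤ X` and `R ≤ X^(1/2-ε)`.
The off-diagonal terms are regrouped as pairs `(n, m) = (a q', a' q)`.
-/

open Finset MeasureTheory

namespace H426AM.NA

/-- weight: sum of the common divisors of `k` and `n + σ m` -/
noncomputable def hh (k : ℕ) (σ : ℤ) (n m : ℕ) : ℝ :=
  if ((n : ℤ) + σ * m) = 0 then 0 else
    ∑ d ∈ k.divisors.filter (fun d : ℕ => (d : ℤ) ∣ ((n : ℤ) + σ * m)), (d : ℝ)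

lemma hh_nonneg (k : ℕ) (σ : ℤ) (n m : ℕ) : 0 ≤ hh k σ n m := by
  unfold hh
  split_ifs
  · exact le_rfl
  · exact sum_nonneg (fun _ _ => by positivity)

lemma hh_symm (k : ℕ) (σ : ℤ) (hσ : σ = 1 ∨ σ = -1) (n m : ℕ) : hh k σ n m = hh k σ m n := by
  have h : ((m : ℤ) + σ * n) = σ * ((n : ℤ) + σ * m) := by
    rcases hσ with h | h <;> rw [h] <;> ring
  have hs : σ ≠ 0 := by rcases hσ with h | h <;> rw [h] <;> norm_num
  unfold hh
  rw [h]
  have h0 : (σ * ((n : ℤ) + σ * m) = 0) ↔ ((n : ℤ) + σ * m) = 0 := by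
    simp [hs]
  by_cases h1 : ((n : ℤ) + σ * m) = 0
  · rw [if_pos h1, if_pos (h0.mpr h1)]
  · rw [if_neg h1, if_neg (fun h2 => h1 (h0.mp h2))]
    refine sum_congr (filter_congr fun d _ => ?_) fun _ _ => rfl
    rcases hσ with h | h
    · have e : σ * ((n : ℤ) + σ * m) = ((n : ℤ) + σ * m) := by rw [h]; ring
      rw [e]
    · have e : σ * ((n : ℤ) + σ * m) = -((n : ℤ) + σ * m) := by rw [h]; ring
      rw [e, dvd_neg]

/-- for one divisor -/
lemma one_d (σ : ℤ) (hσ : σ = 1 ∨ σ = -1) (n d : ℕ) :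
    (((Icc 1 n).filter (fun m : ℕ => ((n : ℤ) + σ * m) ≠ 0 ∧ (d : ℤ) ∣ ((n : ℤ) + σ * m))).card : ℝ)
      * d ≤ 3 * n := by
  set S := (Icc 1 n).filter (fun m : ℕ => ((n : ℤ) + σ * m) ≠ 0 ∧ (d : ℤ) ∣ ((n : ℤ) + σ * m))
    with hS
  rcases le_or_gt d (2 * n) with hdn | hdn
  · have hcard : S.card ≤ n / d + 1 := by
      have : S.card ≤ (range (n / d + 1)).card := by
        refine Finset.card_le_card_of_injOn (fun m => m / d) ?_ ?_
        · intro m hm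
          rw [Finset.mem_coe, hS, mem_filter, mem_Icc] at hm
          rw [Finset.mem_coe, mem_range, Nat.lt_succ_iff]
          exact Nat.div_le_div_right hm.1.2
        · intro m hm m' hm' heq
          rw [Finset.mem_coe, hS, mem_filter, mem_Icc] at hm hm'
          have h1 : (d : ℤ) ∣ (m : ℤ) - m' := by
            have h2 := dvd_sub hm.2.2 hm'.2.2
            rcases hσ with h | h
            · rw [h] at h2
              have e : (n : ℤ) + 1 * m - (n + 1 * m') = m - m' := by ring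
              rwa [e] at h2
            · rw [h] at h2
              have e : (n : ℤ) + (-1) * m - (n + (-1) * m') = -((m : ℤ) - m') := by ring
              rw [e, dvd_neg] at h2
              exact h2
          have h3 : m % d = m' % d := by
            have := (Nat.modEq_iff_dvd (n := d) (a := m') (b := m)).mpr h1
            exact this.symm
          have h4 := Nat.div_add_mod m d
          have h5 := Nat.div_add_mod m' d
          simp only at heq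
          rw [heq, h3] at h4
          omega
      rwa [card_range] at this
    have h1 : S.card * d ≤ 3 * n := by
      calc S.card * d ≤ (n / d + 1) * d := Nat.mul_le_mul_right _ hcard
        _ = n / d * d + d := by ring
        _ ≤ n + d := Nat.add_le_add_right (Nat.div_mul_le_self n d) _
        _ ≤ 3 * n := by omega
    exact_mod_cast h1
  · have : S = ∅ := by
      rw [hS, filter_eq_empty_iff]
      rintro m hm ⟨h1, h2⟩
      rw [mem_Icc] at hm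
      have h3 := Int.le_of_dvd (abs_pos.mpr h1) ((dvd_abs _ _).mpr h2)
      have h4 : |(n : ℤ) + σ * m| ≤ 2 * n := by
        rw [abs_le]
        rcases hσ with h | h <;> rw [h] <;> constructor <;> omega
      omega
    rw [this]
    simp

lemma hsum (k : ℕ) (σ : ℤ) (hσ : σ = 1 ∨ σ = -1) (n : ℕ) :
    ∑ m ∈ Icc 1 n, hh k σ n m ≤ 3 * n * k.divisors.card := by
  have h1 : ∀ m ∈ Icc 1 n, hh k σ n m =
      ∑ d ∈ k.divisors, if ((n : ℤ) + σ * m) ≠ 0 ∧ (d : ℤ) ∣ ((n : ℤ) + σ * m) then (d : ℝ) else 0 := by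
    intro m _
    unfold hh
    by_cases h : ((n : ℤ) + σ * m) = 0
    · rw [if_pos h]
      symm
      refine sum_eq_zero fun d _ => ?_
      rw [if_neg]
      exact fun h' => h'.1 h
    · rw [if_neg h, sum_filter]
      refine sum_congr rfl fun d _ => ?_
      simp [h]
  rw [sum_congr rfl h1, sum_comm]
  calc ∑ d ∈ k.divisors, ∑ m ∈ Icc 1 n,
        (if ((n : ℤ) + σ * m) ≠ 0 ∧ (d : ℤ) ∣ ((n : ℤ) + σ * m) then (d : ℝ) else 0)
      ≤ ∑ d ∈ k.divisors, (3 * n : ℝ) := by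
        refine sum_le_sum fun d _ => ?_
        rw [← sum_filter, sum_const, nsmul_eq_mul]
        exact one_d σ hσ n d
    _ = _ := by rw [sum_const, nsmul_eq_mul]; ring

lemma hmax (k : ℕ) (σ : ℤ) (hσ : σ = 1 ∨ σ = -1) (M : ℕ) :
    ∑ n ∈ Icc 1 M, ∑ m ∈ Icc 1 M, hh k σ n m / (max n m : ℕ) ≤ 6 * M * k.divisors.card := by
  have key : ∑ n ∈ Icc 1 M, ∑ m ∈ Icc 1 n, hh k σ n m / n ≤ 3 * M * k.divisors.card := by
    calc ∑ n ∈ Icc 1 M, ∑ m ∈ Icc 1 n, hh k σ n m / n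
        ≤ ∑ n ∈ Icc 1 M, (3 * k.divisors.card : ℝ) := by
          refine sum_le_sum fun n hn => ?_
          have hn0 : (0:ℝ) < n := by
            have := (mem_Icc.mp hn).1
            exact_mod_cast this
          rw [← sum_div, div_le_iff₀ hn0]
          have := hsum k σ hσ n
          linarith
      _ = 3 * M * k.divisors.card := by
          rw [sum_const, nsmul_eq_mul, Nat.card_Icc, Nat.add_sub_cancel]
          ring
  have h2 : ∀ n ∈ Icc 1 M, ∀ m ∈ Icc 1 M, hh k σ n m / (max n m : ℕ) ≤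
      (if m ≤ n then hh k σ n m / n else 0) + (if n ≤ m then hh k σ m n / m else 0) := by
    intro n _ m _
    have h0 := hh_nonneg k σ n m
    have h0' := hh_nonneg k σ m n
    rcases le_total m n with h | h
    · rw [if_pos h, max_eq_left h]
      have : 0 ≤ (if n ≤ m then hh k σ m n / m else 0) := by
        split_ifs
        · positivity
        · exact le_rfl
      linarith
    · rw [if_pos h, max_eq_right h, hh_symm k σ hσ m n]
      have : 0 ≤ (if m ≤ n then hh k σ n m / n else 0) := by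
        split_ifs
        · positivity
        · exact le_rfl
      linarith
  have h3 : ∑ n ∈ Icc 1 M, ∑ m ∈ Icc 1 M, (if m ≤ n then hh k σ n m / n else 0) =
      ∑ n ∈ Icc 1 M, ∑ m ∈ Icc 1 n, hh k σ n m / n := by
    refine sum_congr rfl fun n hn => ?_
    rw [← sum_filter]
    refine sum_congr ?_ fun _ _ => rfl
    ext m
    rw [mem_Icc] at hn
    rw [mem_filter, mem_Icc, mem_Icc]
    omega
  calc ∑ n ∈ Icc 1 M, ∑ m ∈ Icc 1 M, hh k σ n m / (max n m : ℕ)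
      ≤ ∑ n ∈ Icc 1 M, ∑ m ∈ Icc 1 M, ((if m ≤ n then hh k σ n m / n else 0) +
          (if n ≤ m then hh k σ m n / m else 0)) :=
        sum_le_sum fun n hn => sum_le_sum fun m hm => h2 n hn m hm
    _ = ∑ n ∈ Icc 1 M, ∑ m ∈ Icc 1 n, hh k σ n m / n +
        ∑ n ∈ Icc 1 M, ∑ m ∈ Icc 1 n, hh k σ n m / n := by
        simp_rw [sum_add_distrib]
        rw [h3]
        congr 1
        rw [sum_comm, h3]
    _ ≤ _ := by linarith

/-- regrouping: the pairs of moduli `q' ∣ n`, `q ∣ m` -/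
lemma regroup (I J : Finset ℕ) (hJ : ∀ n ∈ J, n ≠ 0) (G : ℕ → ℕ → ℝ) (hG : ∀ n m, 0 ≤ G n m)
    (D : ℝ) (hD : ∀ n ∈ J, (n.divisors.card : ℝ) ≤ D) :
    ∑ q ∈ I, ∑ q' ∈ I, ∑ n ∈ J.filter (fun n => q' ∣ n), ∑ m ∈ J.filter (fun m => q ∣ m), G n m ≤
      D ^ 2 * ∑ n ∈ J, ∑ m ∈ J, G n m := by
  have hcount : ∀ n ∈ J, (∑ q ∈ I, if q ∣ n then (1:ℝ) else 0) ≤ D := by
    intro n hn
    rw [← sum_filter, sum_const, nsmul_eq_mul, mul_one]
    refine le_trans ?_ (hD n hn)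
    have : (I.filter (fun q => q ∣ n)).card ≤ n.divisors.card := by
      apply card_le_card
      intro q hq
      rw [mem_filter] at hq
      rw [Nat.mem_divisors]
      exact ⟨hq.2, hJ n hn⟩
    exact_mod_cast this
  have hc0 : ∀ n, 0 ≤ (∑ q ∈ I, if q ∣ n then (1:ℝ) else 0) := fun n =>
    sum_nonneg fun q _ => by split_ifs <;> norm_num
  calc ∑ q ∈ I, ∑ q' ∈ I, ∑ n ∈ J.filter (fun n => q' ∣ n), ∑ m ∈ J.filter (fun m => q ∣ m), G n m
      = ∑ q ∈ I, ∑ q' ∈ I, ∑ n ∈ J, ∑ m ∈ J,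
          (if q ∣ m then (1:ℝ) else 0) * (if q' ∣ n then (1:ℝ) else 0) * G n m := by
        refine sum_congr rfl fun q _ => sum_congr rfl fun q' _ => ?_
        rw [sum_filter]
        refine sum_congr rfl fun n _ => ?_
        split_ifs with h
        · rw [sum_filter]
          refine sum_congr rfl fun m _ => ?_
          split_ifs <;> ring
        · symm
          refine sum_eq_zero fun m _ => ?_
          ring
    _ = ∑ n ∈ J, ∑ m ∈ J, (∑ q ∈ I, if q ∣ m then (1:ℝ) else 0) *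
          (∑ q' ∈ I, if q' ∣ n then (1:ℝ) else 0) * G n m := by
        have e1 : ∀ (q : ℕ), ∑ q' ∈ I, ∑ n ∈ J, ∑ m ∈ J,
          (if q ∣ m then (1:ℝ) else 0) * (if q' ∣ n then (1:ℝ) else 0) * G n m =
          ∑ n ∈ J, ∑ m ∈ J, ∑ q' ∈ I,
          (if q ∣ m then (1:ℝ) else 0) * (if q' ∣ n then (1:ℝ) else 0) * G n m := by
          intro q
          rw [sum_comm]
          refine sum_congr rfl fun n _ => ?_
          rw [sum_comm]
        simp_rw [e1]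
        rw [sum_comm]
        refine sum_congr rfl fun n _ => ?_
        rw [sum_comm]
        refine sum_congr rfl fun m _ => ?_
        rw [sum_mul_sum, sum_mul]
        refine sum_congr rfl fun q _ => ?_
        rw [sum_mul]
    _ ≤ ∑ n ∈ J, ∑ m ∈ J, D * D * G n m := by
        refine sum_le_sum fun n hn => sum_le_sum fun m hm => ?_
        apply mul_le_mul_of_nonneg_right _ (hG n m)
        exact mul_le_mul (hcount m hm) (hcount n hn) (hc0 n) ((hc0 m).trans (hcount m hm))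
    _ = _ := by
        rw [mul_sum]
        refine sum_congr rfl fun n _ => ?_
        rw [mul_sum]
        refine sum_congr rfl fun m _ => ?_
        ring

/-- for one pair of moduli -/
lemma one_pair (k : ℕ) (σ : ℤ) (c Y : ℝ) (hc : 0 < c) (hY : 0 < Y) (q q' R M : ℕ)
    (hq : 1 ≤ q) (hq' : 1 ≤ q') (hqR : q ≤ R) (hqR' : q' ≤ R)
    (hM : M = ⌊c * (R : ℝ) ^ 2 * Y⌋₊) :
    (1 / (q : ℝ)) * (1 / (q' : ℝ)) * ∑ a ∈ Icc 1 ⌊c * q * Y⌋₊, ∑ a' ∈ Icc 1 ⌊c * q' * Y⌋₊,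
      hh k σ (a * q') (a' * q) ≤
    ∑ n ∈ (Icc 1 M).filter (fun n => q' ∣ n), ∑ m ∈ (Icc 1 M).filter (fun m => q ∣ m),
      c * Y * (hh k σ n m / (max n m : ℕ)) := by
  have hq0 : (0:ℝ) < q := by exact_mod_cast hq
  have hq0' : (0:ℝ) < q' := by exact_mod_cast hq'
  have hqR1 : (q:ℝ) ≤ R := by exact_mod_cast hqR
  have hqR1' : (q':ℝ) ≤ R := by exact_mod_cast hqR'
  have hb : ∀ a ∈ Icc 1 ⌊c * q * Y⌋₊, ((a * q' : ℕ) : ℝ) ≤ c * (q * q') * Y := by
    intro a ha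
    have h1 : (a : ℝ) ≤ c * q * Y := (Nat.le_floor_iff (by positivity)).mp (mem_Icc.mp ha).2
    push_cast
    calc (a:ℝ) * q' ≤ (c * q * Y) * q' := mul_le_mul_of_nonneg_right h1 hq0'.le
      _ = _ := by ring
  have hb' : ∀ a ∈ Icc 1 ⌊c * q' * Y⌋₊, ((a * q : ℕ) : ℝ) ≤ c * (q * q') * Y := by
    intro a ha
    have h1 : (a : ℝ) ≤ c * q' * Y := (Nat.le_floor_iff (by positivity)).mp (mem_Icc.mp ha).2
    push_cast
    calc (a:ℝ) * q ≤ (c * q' * Y) * q := mul_le_mul_of_nonneg_right h1 hq0.le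
      _ = _ := by ring
  have hR : c * ((q:ℝ) * q') * Y ≤ c * (R:ℝ) ^ 2 * Y := by
    have : (q:ℝ) * q' ≤ (R:ℝ) ^ 2 := by
      rw [sq]; exact mul_le_mul hqR1 hqR1' hq0'.le (by positivity)
    gcongr
  have hterm : ∀ a ∈ Icc 1 ⌊c * q * Y⌋₊, ∀ a' ∈ Icc 1 ⌊c * q' * Y⌋₊,
      (1 / (q : ℝ)) * (1 / (q' : ℝ)) * hh k σ (a * q') (a' * q) ≤
      c * Y * (hh k σ (a * q') (a' * q) / (max (a * q') (a' * q) : ℕ)) := by
    intro a ha a' ha'
    have h0 := hh_nonneg k σ (a * q') (a' * q)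
    have h1 : ((max (a * q') (a' * q) : ℕ) : ℝ) ≤ c * (q * q') * Y := by
      rw [Nat.cast_max]
      exact max_le (hb a ha) (hb' a' ha')
    have h2 : (0:ℝ) < ((max (a * q') (a' * q) : ℕ) : ℝ) := by
      have : 0 < a * q' := Nat.mul_pos (mem_Icc.mp ha).1 hq'
      exact_mod_cast lt_of_lt_of_le this (le_max_left _ _)
    have h3 : (1 / (q : ℝ)) * (1 / (q' : ℝ)) ≤ c * Y * (1 / ((max (a * q') (a' * q) : ℕ) : ℝ)) := by
      rw [div_mul_div_comm, one_mul, mul_one_div, div_le_div_iff₀ (by positivity) h2]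
      linarith
    calc (1 / (q : ℝ)) * (1 / (q' : ℝ)) * hh k σ (a * q') (a' * q)
        ≤ (c * Y * (1 / ((max (a * q') (a' * q) : ℕ) : ℝ))) * hh k σ (a * q') (a' * q) :=
          mul_le_mul_of_nonneg_right h3 h0
      _ = _ := by ring
  have hpos : ∀ n m : ℕ, 0 ≤ c * Y * (hh k σ n m / (max n m : ℕ)) := fun n m => by
    have := hh_nonneg k σ n m
    positivity
  rw [mul_sum]
  calc ∑ a ∈ Icc 1 ⌊c * q * Y⌋₊, (1 / (q : ℝ)) * (1 / (q' : ℝ)) *
        ∑ a' ∈ Icc 1 ⌊c * q' * Y⌋₊, hh k σ (a * q') (a' * q)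
      ≤ ∑ a ∈ Icc 1 ⌊c * q * Y⌋₊, ∑ a' ∈ Icc 1 ⌊c * q' * Y⌋₊,
        c * Y * (hh k σ (a * q') (a' * q) / (max (a * q') (a' * q) : ℕ)) := by
        refine sum_le_sum fun a ha => ?_
        rw [mul_sum]
        exact sum_le_sum fun a' ha' => hterm a ha a' ha'
    _ ≤ ∑ a ∈ Icc 1 ⌊c * q * Y⌋₊, ∑ m ∈ (Icc 1 M).filter (fun m => q ∣ m),
        c * Y * (hh k σ (a * q') m / (max (a * q') m : ℕ)) := by
        refine sum_le_sum fun a ha => ?_
        have : ∑ a' ∈ Icc 1 ⌊c * q' * Y⌋₊,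
            c * Y * (hh k σ (a * q') (a' * q) / (max (a * q') (a' * q) : ℕ)) =
            ∑ m ∈ (Icc 1 ⌊c * q' * Y⌋₊).image (fun a' => a' * q),
            c * Y * (hh k σ (a * q') m / (max (a * q') m : ℕ)) := by
          rw [sum_image]
          intro x _ y _ hxy
          exact Nat.eq_of_mul_eq_mul_right hq hxy
        rw [this]
        apply sum_le_sum_of_subset_of_nonneg
        · intro m hm
          obtain ⟨a', ha', rfl⟩ := mem_image.mp hm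
          rw [mem_filter, mem_Icc]
          refine ⟨⟨Nat.mul_pos (mem_Icc.mp ha').1 hq, ?_⟩, dvd_mul_left _ _⟩
          rw [hM]
          exact Nat.le_floor ((hb' a' ha').trans hR)
        · intro m _ _
          exact hpos _ _
    _ ≤ _ := by
        have : ∑ a ∈ Icc 1 ⌊c * q * Y⌋₊, ∑ m ∈ (Icc 1 M).filter (fun m => q ∣ m),
            c * Y * (hh k σ (a * q') m / (max (a * q') m : ℕ)) =
            ∑ n ∈ (Icc 1 ⌊c * q * Y⌋₊).image (fun a => a * q'),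
              ∑ m ∈ (Icc 1 M).filter (fun m => q ∣ m),
            c * Y * (hh k σ n m / (max n m : ℕ)) := by
          rw [sum_image]
          intro x _ y _ hxy
          exact Nat.eq_of_mul_eq_mul_right hq' hxy
        rw [this]
        apply sum_le_sum_of_subset_of_nonneg
        · intro m hm
          obtain ⟨a', ha', rfl⟩ := mem_image.mp hm
          rw [mem_filter, mem_Icc]
          refine ⟨⟨Nat.mul_pos (mem_Icc.mp ha').1 hq', ?_⟩, dvd_mul_left _ _⟩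
          rw [hM]
          exact Nat.le_floor ((hb a' ha').trans hR)
        · intro m _ _
          exact sum_nonneg fun _ _ => hpos _ _

/-- the total off-diagonal count -/
lemma total (k : ℕ) (σ : ℤ) (hσ : σ = 1 ∨ σ = -1) (c Y : ℝ) (hc : 0 < c) (hY : 0 < Y) (R M : ℕ)
    (I : Finset ℕ) (hI : ∀ q ∈ I, 1 ≤ q ∧ q ≤ R) (hM : M = ⌊c * (R : ℝ) ^ 2 * Y⌋₊) (D : ℝ)
    (hD : ∀ n ∈ Icc 1 M, (n.divisors.card : ℝ) ≤ D) :
    ∑ q ∈ I, ∑ q' ∈ I, (1 / (q : ℝ)) * (1 / (q' : ℝ)) * ∑ a ∈ Icc 1 ⌊c * q * Y⌋₊,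
      ∑ a' ∈ Icc 1 ⌊c * q' * Y⌋₊, hh k σ (a * q') (a' * q) ≤
    D ^ 2 * (c * Y * (6 * M * k.divisors.card)) := by
  calc ∑ q ∈ I, ∑ q' ∈ I, (1 / (q : ℝ)) * (1 / (q' : ℝ)) * ∑ a ∈ Icc 1 ⌊c * q * Y⌋₊,
      ∑ a' ∈ Icc 1 ⌊c * q' * Y⌋₊, hh k σ (a * q') (a' * q)
      ≤ ∑ q ∈ I, ∑ q' ∈ I, ∑ n ∈ (Icc 1 M).filter (fun n => q' ∣ n),
        ∑ m ∈ (Icc 1 M).filter (fun m => q ∣ m), c * Y * (hh k σ n m / (max n m : ℕ)) :=
        sum_le_sum fun q hq => sum_le_sum fun q' hq' =>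
          one_pair k σ c Y hc hY q q' R M (hI q hq).1 (hI q' hq').1 (hI q hq).2 (hI q' hq').2 hM
    _ ≤ D ^ 2 * ∑ n ∈ Icc 1 M, ∑ m ∈ Icc 1 M, c * Y * (hh k σ n m / (max n m : ℕ)) := by
        apply regroup I (Icc 1 M) (fun n hn => by have := (mem_Icc.mp hn).1; omega) _ _ D hD
        intro n m
        have := hh_nonneg k σ n m
        positivity
    _ = D ^ 2 * (c * Y * ∑ n ∈ Icc 1 M, ∑ m ∈ Icc 1 M, hh k σ n m / (max n m : ℕ)) := by
        simp_rw [← mul_sum]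
    _ ≤ _ := by
        have := hmax k σ hσ M
        gcongr

open H343 H336V H336V.NormSumAux

lemma HH_eq (k : ℕ) (σ : ℤ) (q a q' a' : ℕ) : HH k σ q a q' a' = hh k σ (a * q') (a' * q) := by
  unfold HH hh
  push_cast
  rfl

/-- the off-diagonal terms -/
lemma offdiagA {B : ℝ} {lam : ℝ → ℝ} (hB : 1 ≤ B) (hl : Test B lam) {L : ℝ}
    (hL : ∀ v, |lam v| ≤ L) (δ : ℝ) (hδ : 0 < δ) : ∃ C : ℝ, 0 ≤ C ∧
    ∀ (Y : ℝ) (k Q R N : ℕ), 0 < Y → Y ≤ 1 → ∀ σ : ℤ, (σ = 1 ∨ σ = -1) →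
    ∑ q ∈ ModK k Q R, ∑ a ∈ (Icc 1 N).filter (fun a => a.Coprime q),
      ∑ q' ∈ ModK k Q R, ∑ a' ∈ (Icc 1 N).filter (fun a => a.Coprime q'),
        ‖co lam Y q a‖ * ‖co lam Y q' a'‖ * HH k σ q a q' a' ≤
      C * ((R : ℝ) ^ 2 * ((R : ℝ) ^ δ) ^ 6) * Y ^ 2 * k.divisors.card := by
  have hL0 : 0 ≤ L := (abs_nonneg _).trans (hL 0)
  obtain ⟨C1, hC1, h1⟩ := div_bound δ hδ
  obtain ⟨c1, hc1, h2⟩ := phi_bound δ hδ
  set c := Real.exp B with hc
  have hc0 : 0 < c := Real.exp_pos B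
  have hc11 : 1 ≤ c := Real.one_le_exp (by linarith)
  refine ⟨6 * (L / c1) ^ 2 * C1 ^ 2 * (c ^ δ) ^ 2 * c ^ 2, by positivity, ?_⟩
  intro Y k Q R N hY hY1 σ hσ
  have hmem : ∀ q ∈ ModK k Q R, 1 ≤ q ∧ q ≤ R := by
    intro q hq
    unfold ModK H343.Mod at hq
    rw [mem_filter, mem_filter, mem_Ioc] at hq
    exact ⟨by omega, hq.1.1.2⟩
  have hpair : ∀ q ∈ ModK k Q R, ∀ q' ∈ ModK k Q R,
      ∑ a ∈ (Icc 1 N).filter (fun a => a.Coprime q),
        ∑ a' ∈ (Icc 1 N).filter (fun a => a.Coprime q'),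
        ‖co lam Y q a‖ * ‖co lam Y q' a'‖ * HH k σ q a q' a' ≤
      ((L / c1) ^ 2 * ((R : ℝ) ^ δ) ^ 2) * ((1 / (q : ℝ)) * (1 / (q' : ℝ)) *
        ∑ a ∈ Icc 1 ⌊c * q * Y⌋₊, ∑ a' ∈ Icc 1 ⌊c * q' * Y⌋₊, hh k σ (a * q') (a' * q)) := by
    intro q hq q' hq'
    obtain ⟨hq1, hqR⟩ := hmem q hq
    obtain ⟨hq1', hqR'⟩ := hmem q' hq'
    have hφ : (0 : ℝ) < Nat.totient q := by exact_mod_cast Nat.totient_pos.mpr hq1
    have hφ' : (0 : ℝ) < Nat.totient q' := by exact_mod_cast Nat.totient_pos.mpr hq1'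
    have hphi : ∀ q : ℕ, 1 ≤ q → q ≤ R →
        L / Nat.totient q ≤ (L / c1) * (R : ℝ) ^ δ * (1 / (q : ℝ)) := by
      intro q hq1 hqR
      have hq0 : (0 : ℝ) < q := by exact_mod_cast hq1
      have hφ : (0 : ℝ) < Nat.totient q := by exact_mod_cast Nat.totient_pos.mpr hq1
      have h3 := h2 q hq1
      have h4 : (q : ℝ) = (q : ℝ) ^ (1 - δ) * (q : ℝ) ^ δ := by
        rw [← Real.rpow_add hq0]; simp
      have h5 : (q : ℝ) ^ δ ≤ (R : ℝ) ^ δ :=
        Real.rpow_le_rpow hq0.le (by exact_mod_cast hqR) hδ.le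
      rw [div_le_iff₀ hφ]
      have h6 : (q : ℝ) * c1 ≤ (R : ℝ) ^ δ * Nat.totient q := by
        calc (q : ℝ) * c1 = c1 * (q : ℝ) ^ (1 - δ) * (q : ℝ) ^ δ := by
              rw [mul_assoc, ← h4]; ring
          _ ≤ Nat.totient q * (R : ℝ) ^ δ := by gcongr
          _ = _ := by ring
      calc L = L / (c1 * q) * (q * c1) := by field_simp
        _ ≤ L / (c1 * q) * ((R : ℝ) ^ δ * Nat.totient q) := by gcongr
        _ = L / c1 * (R : ℝ) ^ δ * (1 / q) * Nat.totient q := by field_simp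
    have hS0 : 0 ≤ ∑ a ∈ Icc 1 ⌊c * q * Y⌋₊, ∑ a' ∈ Icc 1 ⌊c * q' * Y⌋₊,
        hh k σ (a * q') (a' * q) :=
      sum_nonneg fun _ _ => sum_nonneg fun _ _ => hh_nonneg _ _ _ _
    calc ∑ a ∈ (Icc 1 N).filter (fun a => a.Coprime q),
          ∑ a' ∈ (Icc 1 N).filter (fun a => a.Coprime q'),
          ‖co lam Y q a‖ * ‖co lam Y q' a'‖ * HH k σ q a q' a'
        = ∑ a ∈ (Icc 1 N).filter (fun a => a.Coprime q), ‖co lam Y q a‖ *
          ∑ a' ∈ (Icc 1 N).filter (fun a => a.Coprime q'),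
            ‖co lam Y q' a'‖ * HH k σ q a q' a' := by
          apply sum_congr rfl
          intro a _
          rw [mul_sum]
          apply sum_congr rfl
          intro a' _
          ring
      _ ≤ ∑ a ∈ (Icc 1 N).filter (fun a => a.Coprime q), ‖co lam Y q a‖ *
          ∑ a' ∈ Icc 1 ⌊c * q' * Y⌋₊, L / Nat.totient q' * HH k σ q a q' a' := by
          apply sum_le_sum
          intro a _
          apply mul_le_mul_of_nonneg_left _ (norm_nonneg _)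
          exact restrict hl hL hY hq1' N (fun a' => HH k σ q a q' a')
            (fun a' => HH_nonneg k σ q a q' a')
      _ ≤ ∑ a ∈ Icc 1 ⌊c * q * Y⌋₊, L / Nat.totient q *
          ∑ a' ∈ Icc 1 ⌊c * q' * Y⌋₊, L / Nat.totient q' * HH k σ q a q' a' :=
          restrict hl hL hY hq1 N (fun a => ∑ a' ∈ Icc 1 ⌊c * q' * Y⌋₊,
            L / Nat.totient q' * HH k σ q a q' a')
            (fun a => sum_nonneg (fun a' _ => mul_nonneg (by positivity) (HH_nonneg _ _ _ _ _ _)))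
      _ = (L / Nat.totient q * (L / Nat.totient q')) *
          ∑ a ∈ Icc 1 ⌊c * q * Y⌋₊, ∑ a' ∈ Icc 1 ⌊c * q' * Y⌋₊,
            hh k σ (a * q') (a' * q) := by
          rw [mul_sum]
          apply sum_congr rfl
          intro a _
          rw [mul_sum, mul_sum]
          apply sum_congr rfl
          intro a' _
          rw [HH_eq]
          ring
      _ ≤ (((L / c1) * (R : ℝ) ^ δ * (1 / (q : ℝ))) * ((L / c1) * (R : ℝ) ^ δ * (1 / (q' : ℝ)))) *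
          ∑ a ∈ Icc 1 ⌊c * q * Y⌋₊, ∑ a' ∈ Icc 1 ⌊c * q' * Y⌋₊,
            hh k σ (a * q') (a' * q) := by
          apply mul_le_mul_of_nonneg_right _ hS0
          exact mul_le_mul (hphi q hq1 hqR) (hphi q' hq1' hqR') (by positivity) (by positivity)
      _ = _ := by ring
  set M := ⌊c * (R : ℝ) ^ 2 * Y⌋₊ with hM
  have hM1 : (M : ℝ) ≤ c * (R : ℝ) ^ 2 * Y := Nat.floor_le (by positivity)
  have hMδ : (M : ℝ) ^ δ ≤ c ^ δ * ((R : ℝ) ^ δ) ^ 2 := by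
    calc (M : ℝ) ^ δ ≤ (c * (R : ℝ) ^ 2) ^ δ := by
          apply Real.rpow_le_rpow (by positivity) _ hδ.le
          refine hM1.trans ?_
          exact mul_le_of_le_one_right (by positivity) hY1
      _ = c ^ δ * ((R : ℝ) ^ δ) ^ 2 := by
          rw [Real.mul_rpow hc0.le (by positivity), ← Real.rpow_natCast ((R:ℝ) ^ δ) 2,
            ← Real.rpow_mul (by positivity), mul_comm δ, Real.rpow_mul (by positivity),
            Real.rpow_natCast]
  have hD : ∀ n ∈ Icc 1 M, (n.divisors.card : ℝ) ≤ C1 * (M : ℝ) ^ δ := by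
    intro n hn
    obtain ⟨hn1, hn2⟩ := mem_Icc.mp hn
    refine (h1 n hn1).trans ?_
    have : (n : ℝ) ^ δ ≤ (M : ℝ) ^ δ :=
      Real.rpow_le_rpow (by positivity) (by exact_mod_cast hn2) hδ.le
    gcongr
  have htot := total k σ hσ c Y hc0 hY R M (ModK k Q R) hmem hM (C1 * (M : ℝ) ^ δ) hD
  calc ∑ q ∈ ModK k Q R, ∑ a ∈ (Icc 1 N).filter (fun a => a.Coprime q),
      ∑ q' ∈ ModK k Q R, ∑ a' ∈ (Icc 1 N).filter (fun a => a.Coprime q'),
        ‖co lam Y q a‖ * ‖co lam Y q' a'‖ * HH k σ q a q' a'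
      = ∑ q ∈ ModK k Q R, ∑ q' ∈ ModK k Q R,
        ∑ a ∈ (Icc 1 N).filter (fun a => a.Coprime q),
        ∑ a' ∈ (Icc 1 N).filter (fun a => a.Coprime q'),
        ‖co lam Y q a‖ * ‖co lam Y q' a'‖ * HH k σ q a q' a' := by
        apply sum_congr rfl
        intro q _
        rw [sum_comm]
    _ ≤ ∑ q ∈ ModK k Q R, ∑ q' ∈ ModK k Q R,
        ((L / c1) ^ 2 * ((R : ℝ) ^ δ) ^ 2) * ((1 / (q : ℝ)) * (1 / (q' : ℝ)) *
        ∑ a ∈ Icc 1 ⌊c * q * Y⌋₊, ∑ a' ∈ Icc 1 ⌊c * q' * Y⌋₊, hh k σ (a * q') (a' * q)) :=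
        sum_le_sum (fun q hq => sum_le_sum (fun q' hq' => hpair q hq q' hq'))
    _ = ((L / c1) ^ 2 * ((R : ℝ) ^ δ) ^ 2) * ∑ q ∈ ModK k Q R, ∑ q' ∈ ModK k Q R,
        (1 / (q : ℝ)) * (1 / (q' : ℝ)) *
        ∑ a ∈ Icc 1 ⌊c * q * Y⌋₊, ∑ a' ∈ Icc 1 ⌊c * q' * Y⌋₊, hh k σ (a * q') (a' * q) := by
        rw [mul_sum]
        apply sum_congr rfl
        intro q _
        rw [mul_sum]
    _ ≤ ((L / c1) ^ 2 * ((R : ℝ) ^ δ) ^ 2) *
        ((C1 * (M : ℝ) ^ δ) ^ 2 * (c * Y * (6 * M * k.divisors.card))) := by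
        apply mul_le_mul_of_nonneg_left htot (by positivity)
    _ ≤ ((L / c1) ^ 2 * ((R : ℝ) ^ δ) ^ 2) *
        ((C1 * (c ^ δ * ((R : ℝ) ^ δ) ^ 2)) ^ 2 *
          (c * Y * (6 * (c * (R : ℝ) ^ 2 * Y) * k.divisors.card))) := by
        gcongr
    _ = _ := by ring

/-- combination -/
lemma combineW {lam : ℝ → ℝ} (Y : ℝ) (k Q R N : ℕ) (hk : 1 ≤ k) (W : ℝ)
    (hW : ∀ σ : ℤ, (σ = 1 ∨ σ = -1) →
      ∑ q ∈ ModK k Q R, ∑ a ∈ (Icc 1 N).filter (fun a => a.Coprime q),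
      ∑ q' ∈ ModK k Q R, ∑ a' ∈ (Icc 1 N).filter (fun a => a.Coprime q'),
        ‖co lam Y q a‖ * ‖co lam Y q' a'‖ * HH k σ q a q' a' ≤ W) :
    ∑ n ∈ (range k).filter (fun n => n.Coprime k), (2 * (FF lam Y k Q R N n).re) ^ 2 ≤
      2 * (Nat.totient k * ∑ q ∈ ModK k Q R, ∑ a ∈ (Icc 1 N).filter (fun a => a.Coprime q),
        ‖co lam Y q a‖ ^ 2 + 2 * W) := by
  classical
  set S : Finset (Σ _ : ℕ, ℕ) := (ModK k Q R).sigma (fun q => (Icc 1 N).filter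
    (fun a => a.Coprime q)) with hS
  have hmem : ∀ p ∈ S, 1 ≤ p.1 ∧ p.1.Coprime k ∧ 1 ≤ p.2 ∧ p.2.Coprime p.1 := by
    intro p hp
    rw [hS, mem_sigma, mem_filter, mem_Icc] at hp
    unfold ModK H343.Mod at hp
    rw [mem_filter, mem_filter, mem_Ioc] at hp
    exact ⟨by omega, hp.1.2, hp.2.1.1, hp.2.2⟩
  have hF : ∀ n : ℕ, FF lam Y k Q R N n = ∑ p ∈ S, co lam Y p.1 p.2 *
      ex ((n : ℝ) * (((p.2 * inv k p.1 : ℕ) : ℤ) : ℝ) / k) := by
    intro n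
    unfold FF
    rw [sum_sigma']
    apply sum_congr rfl
    intro p _
    rw [Int.cast_natCast]
  simp_rw [hF]
  refine (expand k S (fun p => co lam Y p.1 p.2) (fun p => ((p.2 * inv k p.1 : ℕ) : ℤ))).trans ?_
  apply mul_le_mul_of_nonneg_left _ (by norm_num)
  have hterm : ∀ p ∈ S, ∀ p' ∈ S, ‖co lam Y p.1 p.2‖ * ‖co lam Y p'.1 p'.2‖ *
      (‖RR k (((p.2 * inv k p.1 : ℕ) : ℤ) - ((p'.2 * inv k p'.1 : ℕ) : ℤ))‖ +
       ‖RR k (((p.2 * inv k p.1 : ℕ) : ℤ) + ((p'.2 * inv k p'.1 : ℕ) : ℤ))‖) ≤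
      (if p = p' then Nat.totient k * ‖co lam Y p.1 p.2‖ ^ 2 else 0) +
      ‖co lam Y p.1 p.2‖ * ‖co lam Y p'.1 p'.2‖ * HH k (-1) p.1 p.2 p'.1 p'.2 +
      ‖co lam Y p.1 p.2‖ * ‖co lam Y p'.1 p'.2‖ * HH k 1 p.1 p.2 p'.1 p'.2 := by
    intro p hp p' hp'
    obtain ⟨h1, h2, h3, h4⟩ := hmem p hp
    obtain ⟨h1', h2', h3', h4'⟩ := hmem p' hp'
    have hm := RR_minus k p.1 p'.1 p.2 p'.2 hk h1 h2 h2' h4 h4'
    have hp2 := RR_plus k p.1 p'.1 p.2 p'.2 hk h1' h3 h2 h2'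
    have hc0 : 0 ≤ ‖co lam Y p.1 p.2‖ * ‖co lam Y p'.1 p'.2‖ := by positivity
    by_cases hpp : p = p'
    · subst hpp
      rw [if_pos ⟨rfl, rfl⟩] at hm
      rw [if_pos rfl]
      nlinarith
    · rw [if_neg hpp, zero_add]
      have hne : ¬ (p.1 = p'.1 ∧ p.2 = p'.2) := by
        rintro ⟨e1, e2⟩
        exact hpp (Sigma.ext e1 (heq_of_eq e2))
      rw [if_neg hne, zero_add] at hm
      rw [mul_add]
      exact add_le_add (mul_le_mul_of_nonneg_left hm hc0) (mul_le_mul_of_nonneg_left hp2 hc0)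
  refine (sum_le_sum (fun p hp => sum_le_sum (fun p' hp' => hterm p hp p' hp'))).trans ?_
  simp_rw [sum_add_distrib]
  have hd : ∑ p ∈ S, ∑ p' ∈ S, (if p = p' then (Nat.totient k : ℝ) * ‖co lam Y p.1 p.2‖ ^ 2 else 0)
      = Nat.totient k * ∑ q ∈ ModK k Q R, ∑ a ∈ (Icc 1 N).filter (fun a => a.Coprime q),
        ‖co lam Y q a‖ ^ 2 := by
    have : ∀ p ∈ S, ∑ p' ∈ S, (if p = p' then (Nat.totient k : ℝ) * ‖co lam Y p.1 p.2‖ ^ 2 else 0)
        = Nat.totient k * ‖co lam Y p.1 p.2‖ ^ 2 := by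
      intro p hp
      rw [sum_ite_eq, if_pos hp]
    rw [sum_congr rfl this, ← mul_sum, hS, sum_sigma]
  rw [hd]
  have ho : ∀ σ : ℤ, (σ = 1 ∨ σ = -1) → ∑ p ∈ S, ∑ p' ∈ S,
      ‖co lam Y p.1 p.2‖ * ‖co lam Y p'.1 p'.2‖ * HH k σ p.1 p.2 p'.1 p'.2 ≤ W := by
    intro σ hσ
    refine le_trans (le_of_eq ?_) (hW σ hσ)
    rw [hS, sum_sigma]
    apply sum_congr rfl
    intro q _
    apply sum_congr rfl
    intro a _
    rw [sum_sigma]
  have h1 := ho 1 (Or.inl rfl)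
  have h2 := ho (-1) (Or.inr rfl)
  linarith

/-- the numerical part -/
lemma numericA (ε η C C1 C2 C4 c0 J : ℝ) (hε : 0 < ε) (hε1 : ε ≤ 1 / 100) (hη : 0 < η)
    (hC : 0 ≤ C) (hC1 : 0 < C1) (hC2 : 0 < C2) (hC4 : 0 < C4) (hc0 : 0 < c0) :
    ∃ X0 : ℝ, ∀ (X Y k Qr Rr φ dk LK E D W : ℝ), X0 ≤ X → 1 ≤ X → 1 ≤ k → k ≤ X → Y = k / X →
      1 ≤ Qr → 0 ≤ Rr → X ^ (4 * ε) / Y ≤ Qr → Rr ≤ X ^ (1 / 2 - ε) →
      c0 * k ^ (1 - ε / 5) ≤ φ → dk ≤ C1 * k ^ (ε / 5) → 0 ≤ dk →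
      E ≤ C4 * Rr ^ ε / Qr → D ≤ Y * J * LK + C2 * E →
      W ≤ C * (Rr ^ 2 * (Rr ^ (ε / 5)) ^ 6) * Y ^ 2 * dk →
      2 * (φ * D + 2 * W) ≤ 2 * φ * Y * (J * LK + η) := by
  set M : ℝ := max 1 (max (2 * C2 * C4 / η) (4 * C * C1 / (c0 * η))) with hM
  have hM1 : 1 ≤ M := le_max_left _ _
  have hM2 : 2 * C2 * C4 / η ≤ M := (le_max_left _ _).trans (le_max_right _ _)
  have hM3 : 4 * C * C1 / (c0 * η) ≤ M := (le_max_right _ _).trans (le_max_right _ _)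
  refine ⟨M ^ (1 / ε), ?_⟩
  intro X Y k Qr Rr φ dk LK E D W hX hX1 hk hkX hYe hQ1 hR0 hQ hR hφ hdk hdk0 hE hD hW
  have hk0 : 0 < k := by linarith
  have hX0 : 0 < X := by linarith
  have hY : 0 < Y := by rw [hYe]; positivity
  have hXε : M ≤ X ^ ε := by
    have h2 := Real.rpow_le_rpow (by positivity) hX hε.le
    rw [← Real.rpow_mul (by positivity), one_div, inv_mul_cancel₀ hε.ne', Real.rpow_one] at h2
    exact h2
  have hφ0 : 0 < φ := lt_of_lt_of_le (by positivity) hφ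
  have hRX : Rr ≤ X := by
    refine hR.trans ?_
    calc X ^ (1 / 2 - ε) ≤ X ^ (1 : ℝ) := Real.rpow_le_rpow_of_exponent_le hX1 (by linarith)
      _ = X := Real.rpow_one X
  have hE2 : E ≤ C4 * Y / X ^ (3 * ε) := by
    have hQ0 : 0 < X ^ (4 * ε) / Y := by positivity
    calc E ≤ C4 * Rr ^ ε / Qr := hE
      _ ≤ C4 * X ^ ε / (X ^ (4 * ε) / Y) := by
          apply div_le_div₀ (by positivity) _ hQ0 hQ
          exact mul_le_mul_of_nonneg_left (Real.rpow_le_rpow hR0 hRX hε.le) hC4.le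
      _ = C4 * Y / X ^ (3 * ε) := by
          have : X ^ (4 * ε) = X ^ ε * X ^ (3 * ε) := by
            rw [← Real.rpow_add hX0]; congr 1; ring
          rw [this]
          field_simp
  have hE3 : 2 * C2 * E ≤ Y * η := by
    have h1 : 2 * C2 * C4 ≤ η * X ^ (3 * ε) := by
      have h2 : 2 * C2 * C4 ≤ M * η := by
        rwa [div_le_iff₀ hη] at hM2
      have h3 : X ^ ε ≤ X ^ (3 * ε) := Real.rpow_le_rpow_of_exponent_le hX1 (by linarith)
      calc 2 * C2 * C4 ≤ M * η := h2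
        _ ≤ X ^ (3 * ε) * η := by gcongr; exact hXε.trans h3
        _ = η * X ^ (3 * ε) := by ring
    calc 2 * C2 * E ≤ 2 * C2 * (C4 * Y / X ^ (3 * ε)) := by gcongr
      _ = (2 * C2 * C4) * Y / X ^ (3 * ε) := by ring
      _ ≤ (η * X ^ (3 * ε)) * Y / X ^ (3 * ε) := by gcongr
      _ = Y * η := by
          have : X ^ (3 * ε) ≠ 0 := by positivity
          field_simp
  -- the off-diagonal
  have hR2 : Rr ^ 2 * (Rr ^ (ε / 5)) ^ 6 ≤ X ^ (1 - 7 * ε / 5) := by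
    have h1 : Rr ^ 2 ≤ X ^ (1 - 2 * ε) := by
      calc Rr ^ 2 ≤ (X ^ (1 / 2 - ε)) ^ 2 := pow_le_pow_left₀ hR0 hR 2
        _ = X ^ (1 - 2 * ε) := by
            rw [← Real.rpow_natCast (X ^ _) 2, ← Real.rpow_mul hX0.le]
            congr 1
            push_cast
            ring
    have h2 : (Rr ^ (ε / 5)) ^ 6 ≤ X ^ (3 * ε / 5) := by
      have h3 : Rr ≤ X ^ (1 / 2 : ℝ) :=
        hR.trans (Real.rpow_le_rpow_of_exponent_le hX1 (by linarith))
      calc (Rr ^ (ε / 5)) ^ 6 ≤ ((X ^ (1 / 2 : ℝ)) ^ (ε / 5)) ^ 6 :=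
            pow_le_pow_left₀ (by positivity) (Real.rpow_le_rpow hR0 h3 (by positivity)) 6
        _ = X ^ (3 * ε / 5) := by
            rw [← Real.rpow_natCast _ 6, ← Real.rpow_mul (by positivity),
              ← Real.rpow_mul hX0.le]
            congr 1
            push_cast
            ring
    calc Rr ^ 2 * (Rr ^ (ε / 5)) ^ 6 ≤ X ^ (1 - 2 * ε) * X ^ (3 * ε / 5) :=
          mul_le_mul h1 h2 (by positivity) (by positivity)
      _ = X ^ (1 - 7 * ε / 5) := by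
          rw [← Real.rpow_add hX0]; congr 1; ring
  have hdk2 : dk ≤ C1 * X ^ (ε / 5) := by
    refine hdk.trans ?_
    have : k ^ (ε / 5) ≤ X ^ (ε / 5) := Real.rpow_le_rpow hk0.le hkX (by positivity)
    gcongr
  have hW2 : W ≤ C * C1 * (X ^ (-(6 * ε / 5))) * (k * Y) := by
    calc W ≤ C * (Rr ^ 2 * (Rr ^ (ε / 5)) ^ 6) * Y ^ 2 * dk := hW
      _ ≤ C * X ^ (1 - 7 * ε / 5) * Y ^ 2 * (C1 * X ^ (ε / 5)) := by gcongr
      _ = C * C1 * (X ^ (1 - 7 * ε / 5) * X ^ (ε / 5)) * (Y * (k / X)) := by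
          rw [hYe]; ring
      _ = C * C1 * (X ^ (-(6 * ε / 5)) * X) * (Y * (k / X)) := by
          congr 2
          rw [← Real.rpow_add hX0]
          nth_rewrite 3 [← Real.rpow_one X]
          rw [← Real.rpow_add hX0]
          congr 1
          ring
      _ = _ := by field_simp
  have hφ2 : c0 * (k * X ^ (-(ε / 5))) ≤ φ := by
    refine le_trans ?_ hφ
    have h1 : k ^ (1 - ε / 5) = k * k ^ (-(ε / 5)) := by
      nth_rewrite 2 [← Real.rpow_one k]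
      rw [← Real.rpow_add hk0]
      congr 1
    have h2 : X ^ (-(ε / 5)) ≤ k ^ (-(ε / 5)) :=
      Real.rpow_le_rpow_of_nonpos hk0 hkX (by linarith)
    rw [h1]
    gcongr
  have hW3 : 4 * W ≤ φ * η * Y := by
    have h1 : 4 * C * C1 ≤ X ^ ε * (c0 * η) := by
      rw [div_le_iff₀ (by positivity)] at hM3
      exact hM3.trans (mul_le_mul_of_nonneg_right hXε (by positivity))
    calc 4 * W ≤ 4 * (C * C1 * (X ^ (-(6 * ε / 5))) * (k * Y)) := by gcongr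
      _ = (4 * C * C1) * (X ^ (-(6 * ε / 5)) * (k * Y)) := by ring
      _ ≤ (X ^ ε * (c0 * η)) * (X ^ (-(6 * ε / 5)) * (k * Y)) := by gcongr
      _ = (c0 * (k * (X ^ ε * X ^ (-(6 * ε / 5))))) * η * Y := by ring
      _ = (c0 * (k * X ^ (-(ε / 5)))) * η * Y := by
          rw [← Real.rpow_add hX0]
          congr 5
          ring
      _ ≤ φ * η * Y := by gcongr
  have hA : φ * D ≤ φ * (Y * J * LK + C2 * E) := mul_le_mul_of_nonneg_left hD hφ0.le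
  have hB1 : φ * (2 * C2 * E) ≤ φ * (Y * η) := mul_le_mul_of_nonneg_left hE3 hφ0.le
  nlinarith

end H426AM.NA

namespace H426AM

open H343 H343.KF H336V H336V.PairA H426AM H336V.NormSumAux H426AM.NA

theorem norm_sumA {B : ℝ} {lam : ℝ → ℝ} (hB : 1 ≤ B) (hl : Test B lam) (ε η : ℝ) (hε : 0 < ε)
    (hε1 : ε ≤ 1 / 100) (hη : 0 < η) : ∃ X0 : ℝ, ∀ (X : ℝ) (k : ℕ), X0 ≤ X →
    RangeA ε X k → ∀ Q R N : ℕ, CutsA ε B X (k / X) Q R N →
    ∑ n ∈ (range k).filter (fun n => n.Coprime k), (2 * (FF lam (k / X) k Q R N n).re) ^ 2 ≤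
      2 * Nat.totient k * (k / X) * ((∫ v, lam v ^ 2 * Real.exp v) * LLK k Q R + η) := by
  obtain ⟨L, hL0, hL⟩ := hl.bounded
  obtain ⟨C1, hC1, h1⟩ := div_bound (ε / 5) (by positivity)
  obtain ⟨C2, hC2, h2⟩ := diag hl
  obtain ⟨C, hC, h3⟩ := offdiagA hB hl hL (ε / 5) (by positivity)
  obtain ⟨C4, hC4, h4⟩ := H343.NormAux.div_phi_sum ε hε
  obtain ⟨c0, hc0, h5⟩ := phi_bound (ε / 5) (by positivity)
  obtain ⟨X0, hX0⟩ := numericA ε η C C1 C2 C4 c0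
    (∫ v, lam v ^ 2 * Real.exp v) hε hε1 hη hC hC1 hC2 hC4 hc0
  refine ⟨X0, ?_⟩
  intro X k hX hr Q R N hcut
  have hX1 := hr.hX
  have hXp : 0 < X := by linarith
  have hk1 : (1 : ℝ) ≤ k := (Real.one_le_rpow hX1 (by positivity)).trans hr.hlow
  have hk : 1 ≤ k := by exact_mod_cast hk1
  have hY : 0 < (k : ℝ) / X := by positivity
  have hY1 : (k : ℝ) / X ≤ 1 := (div_le_one hXp).mpr hr.hkX
  have hQ1 : (1 : ℝ) ≤ Q := by
    refine le_trans ?_ hcut.hQ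
    rw [le_div_iff₀ hY, one_mul]
    exact hY1.trans (Real.one_le_rpow hX1 (by positivity))
  have hQn : 1 ≤ Q := by exact_mod_cast hQ1
  refine (combineW (k / X) k Q R N hk _ (h3 (k / X) k Q R N hY hY1)).trans ?_
  exact hX0 X (k / X) k Q R (Nat.totient k) (k.divisors.card) (LLK k Q R)
    (∑ q ∈ H343.Mod Q R, (q.divisors.card : ℝ) / (Nat.totient q : ℝ) ^ 2)
    (∑ q ∈ ModK k Q R, ∑ a ∈ (Icc 1 N).filter (fun a => a.Coprime q),
        ‖co lam (k / X) q a‖ ^ 2) _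
    hX hX1 hk1 hr.hkX rfl hQ1 (by positivity) hcut.hQ hcut.hR (h5 k hk) (h1 k hk) (by positivity)
    (h4 Q R hQn) (h2 (k / X) k Q R N hY hcut.hN) le_rfl

end H426AM
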