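import Pool.Agent.H426AM.Defs
import Pool.Agent.H336R2.V.PairC

/-!
Pairing of the primes with the test vector (task A3).
-/

open Finset MeasureTheory

namespace H426AM

open H343 H343.KF H336V H336V.PairA

namespace PairingAAux

/-- `t` with `k t ≡ -1 (mod q)` -/
theorem recip' (k q : ℕ) (hk : 1 ≤ k) (hq : 1 ≤ q) (h : q.Coprime k) : ∃ t : ℕ, t.Coprime q ∧
    ((k : ZMod q) * (t : ZMod q) = -1) ∧
    ∀ n a : ℕ, ex ((n : ℝ) * ((a * inv k q : ℕ) : ℝ) / k) =
      ex ((n : ℝ) * a / (q * k)) * ex ((n * a * t : ℕ) / q) := by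
  have hqR : (q : ℝ) ≠ 0 := by positivity
  have hkR : (k : ℝ) ≠ 0 := by positivity
  by_cases hk1 : k = 1
  · subst hk1
    refine ⟨q - 1, ?_, ?_, ?_⟩
    · have : (q - 1).Coprime (q - 1 + 1) := by simp
      rwa [Nat.sub_add_cancel hq] at this
    · rw [Nat.cast_sub hq]
      simp
    · intro n a
      have hinv : inv 1 q = 0 := by
        rw [inv]
        exact (ZMod.val_eq_zero _).2 (Subsingleton.elim _ _)
      rw [hinv, ← KF.ex_add]
      have e1 : (n : ℝ) * a / (q * (1 : ℕ)) + ((n * a * (q - 1) : ℕ) : ℝ) / q = ((n * a : ℕ) : ℝ) := by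
        rw [Nat.cast_mul, Nat.cast_sub hq]
        push_cast
        field_simp
        ring
      rw [e1, Recip.ex_natCast]
      simp [Recip.ex_zero']
  · have hk2 : 2 ≤ k := by omega
    have : NeZero k := ⟨by omega⟩
    have : Fact (1 < k) := ⟨by omega⟩
    have hmod : (q * inv k q) % k = 1 := by
      have h1 : ((q * inv k q : ℕ) : ZMod k) = 1 := by
        rw [inv]
        push_cast
        rw [ZMod.natCast_zmod_val]
        exact ZMod.coe_mul_inv_eq_one q h
      have h2 : ((q * inv k q : ℕ) : ZMod k) = ((1 : ℕ) : ZMod k) := by rw [h1]; simp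
      rw [ZMod.natCast_eq_natCast_iff'] at h2
      rwa [Nat.one_mod_eq_one.2 (by omega)] at h2
    set t : ℕ := (q * inv k q) / k with ht
    have hdiv : q * inv k q = k * t + 1 := by
      have := Nat.div_add_mod (q * inv k q) k
      rw [hmod] at this
      exact this.symm
    refine ⟨t, ?_, ?_, ?_⟩
    · rw [Nat.Coprime]
      have h3 : Nat.gcd t q ∣ 1 := by
        have h4 : Nat.gcd t q ∣ k * t + 1 := by
          rw [← hdiv]
          exact Dvd.dvd.mul_right (Nat.gcd_dvd_right t q) _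
        exact (Nat.dvd_add_right (Dvd.dvd.mul_left (Nat.gcd_dvd_left t q) k)).1 h4
      exact Nat.dvd_one.1 h3
    · have h6 : ((q * inv k q : ℕ) : ZMod q) = ((k * t + 1 : ℕ) : ZMod q) := by rw [hdiv]
      push_cast at h6
      rw [ZMod.natCast_self, zero_mul] at h6
      exact eq_neg_of_add_eq_zero_left h6.symm
    · intro n a
      rw [← KF.ex_add]
      congr 1
      have h5 : (q : ℝ) * (inv k q : ℝ) = k * t + 1 := by exact_mod_cast hdiv
      push_cast
      field_simp
      have : (a : ℝ) * inv k q * q = a * (k * t + 1) := by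
        rw [← h5]; ring
      linear_combination (n : ℝ) * this

open Classical in
/-- the signed contribution of the non-principal characters modulo `q` -/
noncomputable def EEq (lam : ℝ → ℝ) (X Y : ℝ) (k N q : ℕ) : ℂ := mph q *
    ∑ χ ∈ (univ : Finset (DirichletCharacter ℂ q)).filter (fun χ => χ ≠ 1),
      χ⁻¹ (-(k : ZMod q)) * GS χ⁻¹ * ZZ lam X Y N χ

open Classical in
/-- expansion into characters for one modulus -/
lemma termq_main' (lam : ℝ → ℝ) (X Y : ℝ) (k N q : ℕ) (hX : 1 ≤ X) (hk : 1 ≤ k) (hq : 1 ≤ q)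
    (hqk : q.Coprime k) (hsq : Squarefree q) (hY : Y = k / X) :
    ‖termq lam X Y k N q - mainq lam X Y N q - EEq lam X Y k N q‖ ≤
      1 / (Nat.totient q : ℝ) * (∑ a ∈ (Icc 1 N).filter (fun a => a.Coprime q),
        |lam (Real.log (a / (q * Y)))|) * ((k.divisors.card + q.divisors.card) * Real.log X) := by
  have hX0 : 0 < X := by linarith
  have htot : (0 : ℝ) < Nat.totient q := by exact_mod_cast Nat.totient_pos.2 hq
  obtain ⟨t, htq, hkt, ht⟩ := recip' k q hk hq hqk
  set c : ℂ := ((((ArithmeticFunction.moebius q : ℤ) : ℝ) / (Nat.totient q : ℝ) : ℝ) : ℂ) with hc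
  have hmu : ‖(((ArithmeticFunction.moebius q : ℤ) : ℝ) : ℂ)‖ ≤ 1 := by
    rw [Complex.norm_real, Real.norm_eq_abs]
    exact_mod_cast ArithmeticFunction.abs_moebius_le_one
  have hcn : ‖c‖ ≤ 1 / Nat.totient q := by
    rw [hc]
    push_cast
    rw [norm_div]
    have : ‖((Nat.totient q : ℕ) : ℂ)‖ = (Nat.totient q : ℝ) := by
      rw [Complex.norm_natCast]
    rw [this]
    have hmu' : ‖(((ArithmeticFunction.moebius q : ℤ)) : ℂ)‖ ≤ 1 := by
      have := hmu
      push_cast at this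
      exact this
    gcongr
  -- first form
  set u : ℕ → ℕ → ℂ := fun a n => gg X (a / (q * Y)) n * ex ((n * a * t : ℕ) / q) with hu
  have hun : ∀ a n, ‖u a n‖ ≤ 1 := by
    intro a n
    rw [hu]
    simp only
    rw [norm_mul, gg_norm, norm_ex, mul_one]
  have hterm : termq lam X Y k N q = c * ∑ a ∈ (Icc 1 N).filter (fun a => a.Coprime q),
      (lam (Real.log (a / (q * Y))) : ℂ) * ∑ n ∈ (Icc 1 ⌊X⌋₊).filter (fun n => n.Coprime k),
        (ArithmeticFunction.vonMangoldt n : ℂ) * u a n := by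
    unfold termq
    rw [mul_sum]
    apply sum_congr rfl
    intro a _
    rw [mul_sum, mul_sum, mul_sum]
    apply sum_congr rfl
    intro n _
    have := co_mul lam X Y k q a n t hX0 hk hq hY (ht n a)
    calc co lam Y q a * ((ArithmeticFunction.vonMangoldt n : ℂ) *
          ex ((n : ℝ) * ((a * inv k q : ℕ) : ℝ) / k))
        = (ArithmeticFunction.vonMangoldt n : ℂ) * (co lam Y q a *
          ex ((n : ℝ) * ((a * inv k q : ℕ) : ℝ) / k)) := by ring
      _ = _ := by rw [this, hu]; ring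
  -- second form
  set T2 : ℂ := c * ∑ a ∈ (Icc 1 N).filter (fun a => a.Coprime q),
      (lam (Real.log (a / (q * Y))) : ℂ) * ∑ n ∈ (Icc 1 ⌊X⌋₊).filter (fun n => n.Coprime q),
        (ArithmeticFunction.vonMangoldt n : ℂ) * u a n with hT2
  have hd : ‖termq lam X Y k N q - T2‖ ≤ 1 / (Nat.totient q : ℝ) *
      (∑ a ∈ (Icc 1 N).filter (fun a => a.Coprime q),
        |lam (Real.log (a / (q * Y)))|) * ((k.divisors.card + q.divisors.card) * Real.log X) := by
    rw [hterm, hT2, ← mul_sub, ← sum_sub_distrib, norm_mul, mul_assoc]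
    apply mul_le_mul hcn _ (norm_nonneg _) (by positivity)
    refine (norm_sum_le _ _).trans ?_
    rw [sum_mul]
    apply sum_le_sum
    intro a _
    rw [← mul_sub, norm_mul, Complex.norm_real, Real.norm_eq_abs]
    apply mul_le_mul_of_nonneg_left _ (abs_nonneg _)
    exact swap_cop X hX k q hk hq (u a) (hun a)
  -- characters
  have hT2' : T2 = c * ((1 / (Nat.totient q : ℝ) : ℝ) : ℂ) *
      ∑ χ : DirichletCharacter ℂ q, χ (t : ZMod q) * GS χ⁻¹ * ZZ lam X Y N χ := by
    rw [hT2, mul_assoc]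
    congr 1
    rw [sum_filter]
    have e1 : ∀ a ∈ Icc 1 N, (if a.Coprime q then (lam (Real.log (a / (q * Y))) : ℂ) *
        ∑ n ∈ (Icc 1 ⌊X⌋₊).filter (fun n => n.Coprime q),
          (ArithmeticFunction.vonMangoldt n : ℂ) * u a n else 0) =
        ((1 / (Nat.totient q : ℝ) : ℝ) : ℂ) * ∑ χ : DirichletCharacter ℂ q,
          χ (t : ZMod q) * GS χ⁻¹ * (χ (a : ZMod q) * (lam (Real.log (a / (q * Y))) : ℂ) *
            ∑ n ∈ Icc 1 ⌊X⌋₊, (ArithmeticFunction.vonMangoldt n : ℂ) * χ (n : ZMod q) *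
              gg X (a / (q * Y)) n) := by
      intro a _
      by_cases ha : a.Coprime q
      · rw [if_pos ha]
        have e2 : ∀ χ : DirichletCharacter ℂ q, χ (t : ZMod q) * GS χ⁻¹ *
            (χ (a : ZMod q) * (lam (Real.log (a / (q * Y))) : ℂ) *
            ∑ n ∈ Icc 1 ⌊X⌋₊, (ArithmeticFunction.vonMangoldt n : ℂ) * χ (n : ZMod q) *
              gg X (a / (q * Y)) n) =
            (lam (Real.log (a / (q * Y))) : ℂ) * ∑ n ∈ Icc 1 ⌊X⌋₊,
              (ArithmeticFunction.vonMangoldt n : ℂ) * gg X (a / (q * Y)) n *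
              (χ ((n * a * t : ℕ) : ZMod q) * GS χ⁻¹) := by
          intro χ
          rw [mul_sum, mul_sum, mul_sum]
          apply sum_congr rfl
          intro n _
          push_cast
          rw [map_mul, map_mul]
          ring
        rw [sum_congr rfl fun χ _ => e2 χ, ← mul_sum, sum_comm]
        rw [mul_left_comm]
        congr 1
        rw [sum_filter, mul_sum]
        apply sum_congr rfl
        intro n _
        rw [← mul_sum]
        by_cases hn : n.Coprime q
        · rw [if_pos hn]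
          have hcop : (n * a * t).Coprime q :=
            Nat.Coprime.mul_left (Nat.Coprime.mul_left hn ha) htq
          have h3 := GS_expand q (n * a * t) hq hcop
          rw [← h3, hu]
          have htc : ((Nat.totient q : ℕ) : ℂ) ≠ 0 := by
            have := htot.ne'
            exact_mod_cast this
          push_cast
          field_simp
        · rw [if_neg hn]
          have h3 : ∀ χ : DirichletCharacter ℂ q, χ ((n * a * t : ℕ) : ZMod q) * GS χ⁻¹ = 0 := by
            intro χ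
            have : ¬ IsUnit ((n * a * t : ℕ) : ZMod q) := by
              rw [ZMod.isUnit_iff_coprime]
              intro h4
              exact hn (Nat.Coprime.coprime_dvd_left ⟨a * t, by ring⟩ h4)
            rw [χ.map_nonunit this, zero_mul]
          rw [sum_congr rfl fun χ _ => h3 χ]
          simp
      · rw [if_neg ha]
        have h3 : ∀ χ : DirichletCharacter ℂ q, χ (a : ZMod q) = 0 := by
          intro χ
          apply χ.map_nonunit
          rw [ZMod.isUnit_iff_coprime]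
          exact ha
        simp [h3]
    rw [sum_congr rfl e1, ← mul_sum, sum_comm]
    congr 1
    apply sum_congr rfl
    intro χ _
    unfold ZZ
    rw [mul_sum]
  -- principal character
  have hZ1 : ZZ lam X Y N (1 : DirichletCharacter ℂ q) =
      ∑ a ∈ (Icc 1 N).filter (fun a => a.Coprime q),
      (lam (Real.log (a / (q * Y))) : ℂ) * ∑ n ∈ (Icc 1 ⌊X⌋₊).filter (fun n => n.Coprime q),
        (ArithmeticFunction.vonMangoldt n : ℂ) * gg X (a / (q * Y)) n := by
    have h1 : ∀ n : ℕ, (1 : DirichletCharacter ℂ q) (n : ZMod q) = if n.Coprime q then 1 else 0 := by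
      intro n
      by_cases hn : n.Coprime q
      · rw [if_pos hn, MulChar.one_apply ((ZMod.isUnit_iff_coprime n q).2 hn)]
      · rw [if_neg hn]
        apply MulChar.map_nonunit
        rw [ZMod.isUnit_iff_coprime]
        exact hn
    unfold ZZ
    rw [sum_filter]
    apply sum_congr rfl
    intro a _
    rw [h1]
    by_cases ha : a.Coprime q
    · rw [if_pos ha, if_pos ha, one_mul, sum_filter]
      congr 1
      apply sum_congr rfl
      intro n _
      rw [h1]
      split_ifs <;> simp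
    · rw [if_neg ha, if_neg ha]; simp
  have hmain : c * ((1 / (Nat.totient q : ℝ) : ℝ) : ℂ) *
      ((1 : DirichletCharacter ℂ q) (t : ZMod q) * GS (1 : DirichletCharacter ℂ q)⁻¹ *
        ZZ lam X Y N (1 : DirichletCharacter ℂ q)) = mainq lam X Y N q := by
    have h1 : (1 : DirichletCharacter ℂ q) (t : ZMod q) = 1 :=
      MulChar.one_apply ((ZMod.isUnit_iff_coprime t q).2 htq)
    rw [h1, inv_one, GS_one q hq, hZ1, hc]
    unfold mainq
    have h2 : ((ArithmeticFunction.moebius q : ℤ) : ℂ) * ((ArithmeticFunction.moebius q : ℤ) : ℂ) = 1 := by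
      have := ArithmeticFunction.moebius_sq_eq_one_of_squarefree hsq
      rw [← pow_two]
      exact_mod_cast this
    push_cast
    have h3 : ∀ (a b z : ℂ), a / b * (1 / b) * (1 * a * z) = (a * a) * (1 / b ^ 2 * z) := by
      intro a b z
      ring
    rw [h3, h2, one_mul]
  have hsplit : T2 - mainq lam X Y N q = c * ((1 / (Nat.totient q : ℝ) : ℝ) : ℂ) *
      ∑ χ ∈ (univ : Finset (DirichletCharacter ℂ q)).filter (fun χ => χ ≠ 1),
        χ (t : ZMod q) * GS χ⁻¹ * ZZ lam X Y N χ := by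
    rw [hT2', ← hmain, ← mul_sub]
    congr 1
    rw [filter_ne', ← Finset.add_sum_erase univ _ (mem_univ (1 : DirichletCharacter ℂ q))]
    ring
  have hval : ∀ χ : DirichletCharacter ℂ q, χ (t : ZMod q) = χ⁻¹ (-(k : ZMod q)) := by
    intro χ
    rw [MulChar.inv_apply_eq_inv']
    have h1 : χ (t : ZMod q) * χ (-(k : ZMod q)) = 1 := by
      rw [← map_mul]
      have : (t : ZMod q) * (-(k : ZMod q)) = 1 := by
        rw [mul_neg, mul_comm, hkt, neg_neg]
      rw [this, map_one]
    exact eq_inv_of_mul_eq_one_left h1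
  have hT3 : T2 - mainq lam X Y N q = EEq lam X Y k N q := by
    rw [hsplit]
    unfold EEq mph
    have e1 : c * ((1 / (Nat.totient q : ℝ) : ℝ) : ℂ) =
        ((((ArithmeticFunction.moebius q : ℤ) : ℝ) / (Nat.totient q : ℝ) ^ 2 : ℝ) : ℂ) := by
      rw [hc, ← Complex.ofReal_mul]
      congr 1
      field_simp
    rw [e1]
    congr 1
    apply sum_congr rfl
    intro χ _
    rw [hval]
  have : termq lam X Y k N q - mainq lam X Y N q - EEq lam X Y k N q =
      termq lam X Y k N q - T2 := by rw [← hT3]; ring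
  rw [this]
  exact hd

lemma mem_ModK {k Q R q : ℕ} (h : q ∈ ModK k Q R) :
    Q < q ∧ q ≤ R ∧ Squarefree q ∧ q.Coprime k := by
  unfold ModK H343.Mod at h
  simp only [mem_filter, mem_Ioc] at h
  exact ⟨h.1.1.1, h.1.1.2, h.1.2, h.2⟩

end PairingAAux

open PairingAAux in
theorem pairingA {B : ℝ} {lam : ℝ → ℝ} (hB : 1 ≤ B) (hl : Test B lam) (ε η : ℝ) (hε : 0 < ε)
    (hε1 : ε ≤ 1 / 100) (hη : 0 < η) : ∃ X0 : ℝ, ∀ (X : ℝ) (k : ℕ), X0 ≤ X →
    RangeA ε X k → ∀ Q R N : ℕ, CutsA ε B X (k / X) Q R N →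
    ‖EE lam X (k / X) k Q R N‖ ≤ η / 4 * k →
    k * ((∫ v, lam v * Real.sinc (Real.pi * Real.exp v) * Real.exp v) * LLK k Q R
        - η * (1 + LLK k Q R)) ≤
      (∑ n ∈ (Icc 1 ⌊X⌋₊).filter (fun n => n.Coprime k),
        (ArithmeticFunction.vonMangoldt n : ℂ) * FF lam (k / X) k Q R N n).re := by
  classical
  set δ : ℝ := ε / 10 with hδdef
  have hδ : 0 < δ := by positivity
  obtain ⟨C2, hC2, hmain⟩ := mainq_eval hl
  obtain ⟨C3, hC3, habs⟩ := abs_sum hB hl
  obtain ⟨C4, hC4, hdiv⟩ := div_bound δ hδ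
  obtain ⟨c5, hc5, hphi⟩ := phi_bound δ hδ
  set η' : ℝ := min 1 (η / (2 * C3)) with hη'
  have hη'0 : 0 < η' := by positivity
  have hη'1 : η' ≤ 1 := min_le_left _ _
  have hη'2 : η' * C3 ≤ η / 2 := by
    calc η' * C3 ≤ η / (2 * C3) * C3 := by
          have : η' ≤ η / (2 * C3) := min_le_right _ _
          gcongr
      _ = η / 2 := by field_simp
  obtain ⟨X1, hX1⟩ := hmain η' hη'0
  set CD : ℝ := C4 * (1 / c5 ^ 2) with hCD
  set CC : ℝ := 2 * (C3 * (1 + C4) * (2 * C4) * 2) + (C2 + C3) * CD with hCC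
  obtain ⟨H2, hH2, hlarge⟩ := large (CC * (2 / η)) (ε / 40) 1 (by positivity)
  set K0 : ℝ := max H2 1 with hK0
  refine ⟨max (max X1 1) (K0 ^ 2), ?_⟩
  intro X k hX hr Q R N hc hEE
  have hXX1 : X1 ≤ X := ((le_max_left _ _).trans (le_max_left _ _)).trans hX
  have hX1' : 1 ≤ X := ((le_max_right _ _).trans (le_max_left _ _)).trans hX
  have hXK : K0 ^ 2 ≤ X := (le_max_right _ _).trans hX
  have hX0 : 0 < X := by linarith
  have hXY : X * (k / X) = k := by field_simp
  have hXh1 : 1 ≤ X ^ (1 / 2 + ε) := Real.one_le_rpow hX1' (by positivity)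
  have hk1r : (1 : ℝ) ≤ k := hXh1.trans hr.hlow
  have hk : 1 ≤ k := by exact_mod_cast hk1r
  have hk0 : (0 : ℝ) < k := by linarith
  have hK01 : 1 ≤ K0 := le_max_right _ _
  have hkK : K0 ≤ k := by
    refine le_trans ?_ hr.hlow
    calc K0 = (K0 ^ 2) ^ (1 / 2 : ℝ) := by
          rw [← Real.sqrt_eq_rpow, Real.sqrt_sq (by linarith)]
      _ ≤ X ^ (1 / 2 : ℝ) := by gcongr
      _ ≤ X ^ (1 / 2 + ε) := by
          apply Real.rpow_le_rpow_of_exponent_le hX1'
          linarith
  have hkH2 : H2 ≤ k := (le_max_left _ _).trans hkK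
  have hlogX : Real.log X ≤ 2 * Real.log k := by
    have h1 := Real.log_le_log (by positivity) hr.hlow
    rw [Real.log_rpow hX0] at h1
    have h2 := Real.log_nonneg hX1'
    nlinarith
  have hlogk : 0 ≤ Real.log k := Real.log_nonneg hk1r
  have hlogX0 : 0 ≤ Real.log X := Real.log_nonneg hX1'
  have hY : 0 < (k : ℝ) / X := by positivity
  have hY1 : (k : ℝ) / X ≤ 1 := by rw [div_le_one hX0]; exact hr.hkX
  set Y : ℝ := k / X with hYdef
  set I := ∫ v, lam v * Real.sinc (Real.pi * Real.exp v) * Real.exp v with hI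
  set L := LLK k Q R with hL
  have hL0 : 0 ≤ L := sum_nonneg fun _ _ => by positivity
  -- facts on the moduli
  have hXk : X ^ (-(2 * ε)) ≤ (k : ℝ) ^ (-(2 * ε)) :=
    Real.rpow_le_rpow_of_nonpos hk0 hr.hkX (by linarith)
  have hXk4 : X ^ (-(4 * ε)) ≤ (k : ℝ) ^ (-(4 * ε)) :=
    Real.rpow_le_rpow_of_nonpos hk0 hr.hkX (by linarith)
  have hRk : (R : ℝ) ≤ (k : ℝ) ^ (1 - 2 * ε) := by
    refine hc.hR.trans ?_
    calc X ^ (1 / 2 - ε) = X ^ (1 / 2 + ε) * X ^ (-(2 * ε)) := by
          rw [← Real.rpow_add hX0]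
          congr 1
          ring
      _ ≤ k * (k : ℝ) ^ (-(2 * ε)) := by
          apply mul_le_mul hr.hlow hXk (by positivity) hk0.le
      _ = (k : ℝ) ^ (1 - 2 * ε) := by
          nth_rewrite 1 [← Real.rpow_one (k : ℝ)]
          rw [← Real.rpow_add hk0]
          congr 1
  have hRk' : (R : ℝ) ≤ k := by
    refine hRk.trans ?_
    calc (k : ℝ) ^ (1 - 2 * ε) ≤ (k : ℝ) ^ (1 : ℝ) :=
          Real.rpow_le_rpow_of_exponent_le hk1r (by linarith)
      _ = k := Real.rpow_one _
  have hq1 : ∀ q ∈ ModK k Q R, 1 ≤ q := fun q hq => by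
    have := (mem_ModK hq).1
    omega
  have hqk : ∀ q ∈ ModK k Q R, (q : ℝ) ≤ k := fun q hq => by
    have h1 := (mem_ModK hq).2.1
    have : (q : ℝ) ≤ R := by exact_mod_cast h1
    linarith
  have hdq : ∀ q ∈ ModK k Q R, (q.divisors.card : ℝ) ≤ C4 * (k : ℝ) ^ δ := by
    intro q hq
    refine (hdiv q (hq1 q hq)).trans ?_
    have := hqk q hq
    gcongr
  have hdk : (k.divisors.card : ℝ) ≤ C4 * (k : ℝ) ^ δ := hdiv k hk
  have hkδ1 : 1 ≤ (k : ℝ) ^ δ := Real.one_le_rpow hk1r hδ.le
  have hphi1 : ∀ q ∈ ModK k Q R, (1 : ℝ) ≤ Nat.totient q := by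
    intro q hq
    exact_mod_cast Nat.totient_pos.2 (hq1 q hq)
  -- the numerators
  set A : ℕ → ℝ := fun q => ∑ a ∈ (Icc 1 N).filter (fun a => a.Coprime q),
    |lam (Real.log (a / (q * Y)))| with hA
  have hA0 : ∀ q, 0 ≤ A q := fun q => sum_nonneg fun _ _ => abs_nonneg _
  have hAle : ∀ q ∈ ModK k Q R, A q ≤ C3 * (Nat.totient q * Y + q.divisors.card) :=
    fun q hq => habs q N Y (hq1 q hq) hY
  have hN : ∀ q ∈ ModK k Q R, Real.exp B * q * Y ≤ N := by
    intro q hq
    refine le_trans ?_ hc.hN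
    have h1 : (q : ℝ) ≤ R := by exact_mod_cast (mem_ModK hq).2.1
    gcongr
  -- D1
  have hD1 : X * ∑ q ∈ ModK k Q R, (q.divisors.card : ℝ) / (Nat.totient q : ℝ) ^ 2 ≤
      CD * (k : ℝ) ^ (1 - ε / 40) := by
    have hQ1 : 1 ≤ Q := by
      have h1 := hc.hQ
      have h2 : 1 ≤ X ^ (4 * ε) := Real.one_le_rpow hX1' (by positivity)
      have : (1 : ℝ) ≤ Q := by
        refine le_trans ?_ h1
        rw [le_div_iff₀ hY]
        linarith
      exact_mod_cast this
    have hQ0 : (0 : ℝ) < Q := by exact_mod_cast hQ1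
    have h1 : ∑ q ∈ ModK k Q R, (q.divisors.card : ℝ) / (Nat.totient q : ℝ) ^ 2 ≤
        ∑ q ∈ Ioc Q R, CD * (k : ℝ) ^ (3 * δ) * (1 / (q : ℝ) ^ 2) := by
      have hsub : ModK k Q R ⊆ Ioc Q R := by
        intro q hq
        have := mem_ModK hq
        rw [mem_Ioc]
        exact ⟨this.1, this.2.1⟩
      refine le_trans (sum_le_sum fun q hq => ?_) (sum_le_sum_of_subset_of_nonneg hsub ?_)
      · have h2 := KeyAux.phi_inv_sq hδ hc5 hphi k q (hq1 q hq) (hqk q hq)
        have h3 := hdq q hq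
        calc (q.divisors.card : ℝ) / (Nat.totient q : ℝ) ^ 2 =
              q.divisors.card * (1 / (Nat.totient q : ℝ) ^ 2) := by ring
          _ ≤ (C4 * (k : ℝ) ^ δ) * ((1 / c5 ^ 2) * (k : ℝ) ^ (2 * δ) * (1 / (q : ℝ) ^ 2)) := by
              gcongr
          _ = CD * ((k : ℝ) ^ δ * (k : ℝ) ^ (2 * δ)) * (1 / (q : ℝ) ^ 2) := by rw [hCD]; ring
          _ = _ := by
              rw [← Real.rpow_add hk0]
              congr 3
              ring
      · intro q _ _
        positivity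
    have h2 := KeyAux.sum_inv_sq_Ioc Q R hQ1
    rw [← mul_sum] at h1
    have h3 : X * (1 / (Q : ℝ)) ≤ (k : ℝ) ^ (1 - 4 * ε) := by
      have h4 := hc.hQ
      rw [mul_one_div, div_le_iff₀ hQ0]
      have h5 : X = (k * X ^ (-(4 * ε))) * (X ^ (4 * ε) / Y) := by
        have : (k * X ^ (-(4 * ε))) * (X ^ (4 * ε) / Y) =
            k / Y * (X ^ (-(4 * ε)) * X ^ (4 * ε)) := by ring
        rw [this, ← Real.rpow_add hX0, neg_add_cancel, Real.rpow_zero, mul_one, hYdef]
        field_simp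
      have h6 : k * X ^ (-(4 * ε)) ≤ (k : ℝ) ^ (1 - 4 * ε) := by
        calc k * X ^ (-(4 * ε)) ≤ k * (k : ℝ) ^ (-(4 * ε)) := by gcongr
          _ = (k : ℝ) ^ (1 - 4 * ε) := by
              nth_rewrite 1 [← Real.rpow_one (k : ℝ)]
              rw [← Real.rpow_add hk0]
              congr 1
      calc X = (k * X ^ (-(4 * ε))) * (X ^ (4 * ε) / Y) := h5
        _ ≤ (k : ℝ) ^ (1 - 4 * ε) * Q := by gcongr
    calc X * ∑ q ∈ ModK k Q R, (q.divisors.card : ℝ) / (Nat.totient q : ℝ) ^ 2
        ≤ X * (CD * (k : ℝ) ^ (3 * δ) * ∑ q ∈ Ioc Q R, 1 / (q : ℝ) ^ 2) := by gcongr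
      _ ≤ X * (CD * (k : ℝ) ^ (3 * δ) * (1 / (Q : ℝ))) := by gcongr
      _ = CD * (k : ℝ) ^ (3 * δ) * (X * (1 / (Q : ℝ))) := by ring
      _ ≤ CD * (k : ℝ) ^ (3 * δ) * (k : ℝ) ^ (1 - 4 * ε) := by gcongr
      _ = CD * (k : ℝ) ^ (3 * δ + (1 - 4 * ε)) := by
          rw [mul_assoc, ← Real.rpow_add hk0]
      _ ≤ CD * (k : ℝ) ^ (1 - ε / 40) := by
          have h6 : (k : ℝ) ^ (3 * δ + (1 - 4 * ε)) ≤ (k : ℝ) ^ (1 - ε / 40) := by
            apply Real.rpow_le_rpow_of_exponent_le hk1r
            rw [hδdef]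
            linarith
          gcongr
  -- bound 2
  have hb2 : ∀ q ∈ ModK k Q R, 1 / (Nat.totient q : ℝ) * A q *
      ((k.divisors.card + q.divisors.card) * Real.log X) ≤
      C3 * (1 + C4) * (2 * C4) * 2 * (1 + Real.log k) * (k : ℝ) ^ (2 * δ) := by
    intro q hq
    have hφ := hphi1 q hq
    have h1 : 1 / (Nat.totient q : ℝ) * A q ≤ C3 * (1 + C4) * (k : ℝ) ^ δ := by
      have h2 : 1 / (Nat.totient q : ℝ) * A q ≤
          1 / (Nat.totient q : ℝ) * (C3 * (Nat.totient q * Y + q.divisors.card)) :=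
        mul_le_mul_of_nonneg_left (hAle q hq) (by positivity)
      refine h2.trans ?_
      have h3 : 1 / (Nat.totient q : ℝ) * (C3 * (Nat.totient q * Y + q.divisors.card)) =
          C3 * (Y + q.divisors.card / Nat.totient q) := by
        field_simp
      rw [h3]
      have h4 : (q.divisors.card : ℝ) / Nat.totient q ≤ C4 * (k : ℝ) ^ δ := by
        refine le_trans ?_ (hdq q hq)
        exact div_le_self (by positivity) hφ
      calc C3 * (Y + q.divisors.card / Nat.totient q) ≤ C3 * ((k : ℝ) ^ δ + C4 * (k : ℝ) ^ δ) := by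
            have : Y ≤ (k : ℝ) ^ δ := hY1.trans hkδ1
            gcongr
        _ = _ := by ring
    have h5 : (k.divisors.card + q.divisors.card : ℝ) * Real.log X ≤
        (2 * C4) * (k : ℝ) ^ δ * (2 * (1 + Real.log k)) := by
      have h6 : (k.divisors.card + q.divisors.card : ℝ) ≤ (2 * C4) * (k : ℝ) ^ δ := by
        have := hdq q hq
        linarith
      have h7 : Real.log X ≤ 2 * (1 + Real.log k) := by linarith
      gcongr
    calc 1 / (Nat.totient q : ℝ) * A q * ((k.divisors.card + q.divisors.card) * Real.log X)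
        ≤ (C3 * (1 + C4) * (k : ℝ) ^ δ) * ((2 * C4) * (k : ℝ) ^ δ * (2 * (1 + Real.log k))) := by
          apply mul_le_mul h1 h5 (by positivity) (by positivity)
      _ = C3 * (1 + C4) * (2 * C4) * 2 * (1 + Real.log k) * ((k : ℝ) ^ δ * (k : ℝ) ^ δ) := by ring
      _ = _ := by
          rw [← Real.rpow_add hk0]
          congr 2
          ring
  have hcardR : (((ModK k Q R).card : ℕ) : ℝ) ≤ R := by
    have h1 : (ModK k Q R).card ≤ (Ioc Q R).card := by
      apply card_le_card
      intro q hq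
      have := mem_ModK hq
      rw [mem_Ioc]
      exact ⟨this.1, this.2.1⟩
    rw [Nat.card_Ioc] at h1
    have : (ModK k Q R).card ≤ R := h1.trans (Nat.sub_le _ _)
    exact_mod_cast this
  have hB2 : ∑ q ∈ ModK k Q R, 1 / (Nat.totient q : ℝ) * A q *
      ((k.divisors.card + q.divisors.card) * Real.log X) ≤
      C3 * (1 + C4) * (2 * C4) * 2 * (1 + Real.log k) * (k : ℝ) ^ (1 - ε / 40) := by
    refine (sum_le_sum hb2).trans ?_
    rw [sum_const, nsmul_eq_mul]
    calc (((ModK k Q R).card : ℕ) : ℝ) * (C3 * (1 + C4) * (2 * C4) * 2 * (1 + Real.log k) *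
          (k : ℝ) ^ (2 * δ))
        ≤ (k : ℝ) ^ (1 - 2 * ε) * (C3 * (1 + C4) * (2 * C4) * 2 * (1 + Real.log k) *
          (k : ℝ) ^ (2 * δ)) := by
          have := hcardR.trans hRk
          gcongr
      _ = C3 * (1 + C4) * (2 * C4) * 2 * (1 + Real.log k) * ((k : ℝ) ^ (1 - 2 * ε) *
          (k : ℝ) ^ (2 * δ)) := by ring
      _ ≤ C3 * (1 + C4) * (2 * C4) * 2 * (1 + Real.log k) * (k : ℝ) ^ (1 - ε / 40) := by
          have h6 : (k : ℝ) ^ (1 - 2 * ε) * (k : ℝ) ^ (2 * δ) ≤ (k : ℝ) ^ (1 - ε / 40) := by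
            rw [← Real.rpow_add hk0]
            apply Real.rpow_le_rpow_of_exponent_le hk1r
            rw [hδdef]
            linarith
          gcongr
  -- bound for one modulus, difference with the expected main term
  have hdiff : ∀ q ∈ ModK k Q R, ‖termq lam X Y k N q - EEq lam X Y k N q -
      ((k * I * (1 / (Nat.totient q : ℝ)) : ℝ) : ℂ)‖ ≤
      2 * (1 / (Nat.totient q : ℝ) * A q * ((k.divisors.card + q.divisors.card) * Real.log X)) +
      (C2 + C3) * (X * ((q.divisors.card : ℝ) / (Nat.totient q : ℝ) ^ 2)) +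
      η / 2 * k * (1 / (Nat.totient q : ℝ)) := by
    intro q hq
    have hφ := hphi1 q hq
    have hφ0 : (0 : ℝ) < Nat.totient q := by linarith
    obtain ⟨_, _, hsq, hcop⟩ := mem_ModK hq
    have h1 := termq_main' lam X Y k N q hX1' hk (hq1 q hq) hcop hsq hYdef
    have h2 := hX1 X Y q N hXX1 hX1' hY (hq1 q hq) (hN q hq)
    have h3 : 1 / (Nat.totient q : ℝ) ^ 2 * (X * (Nat.totient q * Y * I)) =
        k * I * (1 / (Nat.totient q : ℝ)) := by
      have : X * (Nat.totient q * Y * I) = Nat.totient q * (X * Y) * I := by ring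
      rw [this, hXY]
      field_simp
    rw [h3] at h2
    have h4 : 1 / (Nat.totient q : ℝ) ^ 2 * (X * (C2 * q.divisors.card) +
        (η' * X + q.divisors.card * Real.log X) * A q) ≤
        1 / (Nat.totient q : ℝ) * A q * ((k.divisors.card + q.divisors.card) * Real.log X) +
      (C2 + C3) * (X * ((q.divisors.card : ℝ) / (Nat.totient q : ℝ) ^ 2)) +
      η / 2 * k * (1 / (Nat.totient q : ℝ)) := by
      have e1 : 1 / (Nat.totient q : ℝ) ^ 2 * (X * (C2 * q.divisors.card) +
        (η' * X + q.divisors.card * Real.log X) * A q) =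
        C2 * (X * ((q.divisors.card : ℝ) / (Nat.totient q : ℝ) ^ 2)) +
        η' * X * (1 / (Nat.totient q : ℝ) ^ 2 * A q) +
        1 / (Nat.totient q : ℝ) ^ 2 * A q * (q.divisors.card * Real.log X) := by ring
      rw [e1]
      have e2 : η' * X * (1 / (Nat.totient q : ℝ) ^ 2 * A q) ≤
          C3 * (X * ((q.divisors.card : ℝ) / (Nat.totient q : ℝ) ^ 2)) +
            η / 2 * k * (1 / (Nat.totient q : ℝ)) := by
        calc η' * X * (1 / (Nat.totient q : ℝ) ^ 2 * A q) ≤
            η' * X * (1 / (Nat.totient q : ℝ) ^ 2 * (C3 * (Nat.totient q * Y + q.divisors.card))) := by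
              have := hAle q hq
              gcongr
          _ = η' * C3 * (X * Y) * (1 / (Nat.totient q : ℝ)) +
              η' * C3 * (X * ((q.divisors.card : ℝ) / (Nat.totient q : ℝ) ^ 2)) := by
              field_simp
          _ ≤ η / 2 * (X * Y) * (1 / (Nat.totient q : ℝ)) +
              1 * C3 * (X * ((q.divisors.card : ℝ) / (Nat.totient q : ℝ) ^ 2)) := by
              gcongr
          _ = _ := by rw [hXY]; ring
      have e3 : 1 / (Nat.totient q : ℝ) ^ 2 * A q * (q.divisors.card * Real.log X) ≤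
          1 / (Nat.totient q : ℝ) * A q * ((k.divisors.card + q.divisors.card) * Real.log X) := by
        have h5 : 1 / (Nat.totient q : ℝ) ^ 2 ≤ 1 / (Nat.totient q : ℝ) := by
          apply one_div_le_one_div_of_le hφ0
          nlinarith
        have h6 : (q.divisors.card : ℝ) ≤ k.divisors.card + q.divisors.card := by
          have : (0 : ℝ) ≤ k.divisors.card := by positivity
          linarith
        have h7 := hA0 q
        gcongr
      linarith
    have h5 : termq lam X Y k N q - EEq lam X Y k N q -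
        ((k * I * (1 / (Nat.totient q : ℝ)) : ℝ) : ℂ) =
        (termq lam X Y k N q - mainq lam X Y N q - EEq lam X Y k N q) +
        (mainq lam X Y N q - ((k * I * (1 / (Nat.totient q : ℝ)) : ℝ) : ℂ)) := by ring
    rw [h5]
    refine (norm_add_le _ _).trans ?_
    have h6 := add_le_add h1 (h2.trans h4)
    refine h6.trans (le_of_eq ?_)
    ring
  -- total
  rw [sum_termq]
  have hsumI : ∑ q ∈ ModK k Q R, ((k * I * (1 / (Nat.totient q : ℝ)) : ℝ) : ℂ) =
      ((k * I * L : ℝ) : ℂ) := by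
    rw [← Complex.ofReal_sum, ← mul_sum]
    rfl
  have hEEsum : EE lam X Y k Q R N = ∑ q ∈ ModK k Q R, EEq lam X Y k N q := rfl
  have htot0 : ‖∑ q ∈ ModK k Q R, termq lam X Y k N q - EE lam X Y k Q R N -
      ((k * I * L : ℝ) : ℂ)‖ ≤ η / 2 * k + η / 2 * k * L := by
    rw [← hsumI, hEEsum, ← sum_sub_distrib, ← sum_sub_distrib]
    refine (norm_sum_le _ _).trans ((sum_le_sum hdiff).trans ?_)
    rw [sum_add_distrib, sum_add_distrib, ← mul_sum, ← mul_sum, ← mul_sum, ← mul_sum]
    have hlog1 : 1 ≤ 1 + Real.log k := by linarith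
    have hpw : 0 ≤ (k : ℝ) ^ (1 - ε / 40) := by positivity
    have hCDp : 0 < CD := by positivity
    have g5 : (C2 + C3) * (X * ∑ q ∈ ModK k Q R, (q.divisors.card : ℝ) / (Nat.totient q : ℝ) ^ 2) ≤
        (C2 + C3) * CD * (1 + Real.log k) * (k : ℝ) ^ (1 - ε / 40) := by
      calc (C2 + C3) * (X * ∑ q ∈ ModK k Q R, (q.divisors.card : ℝ) / (Nat.totient q : ℝ) ^ 2)
          ≤ (C2 + C3) * (CD * (k : ℝ) ^ (1 - ε / 40)) := by gcongr
        _ = (C2 + C3) * CD * 1 * (k : ℝ) ^ (1 - ε / 40) := by ring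
        _ ≤ _ := by gcongr
    have hl' := hlarge k hkH2
    rw [pow_one] at hl'
    have g6 : CC * (1 + Real.log k) * (k : ℝ) ^ (1 - ε / 40) ≤ η / 2 * k := by
      calc CC * (1 + Real.log k) * (k : ℝ) ^ (1 - ε / 40) =
            η / 2 * ((CC * (2 / η) * (1 + Real.log k)) * (k : ℝ) ^ (1 - ε / 40)) := by
              field_simp
        _ ≤ η / 2 * ((k : ℝ) ^ (ε / 40) * (k : ℝ) ^ (1 - ε / 40)) := by gcongr
        _ = η / 2 * k := by
            rw [← Real.rpow_add hk0]
            have : (ε / 40 + (1 - ε / 40)) = (1 : ℝ) := by ring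
            rw [this, Real.rpow_one]
    have g7 : η / 2 * k * ∑ q ∈ ModK k Q R, 1 / (Nat.totient q : ℝ) = η / 2 * k * L := rfl
    rw [g7]
    have g9 : CC * (1 + Real.log k) * (k : ℝ) ^ (1 - ε / 40) =
        2 * (C3 * (1 + C4) * (2 * C4) * 2 * (1 + Real.log k) * (k : ℝ) ^ (1 - ε / 40)) +
        (C2 + C3) * CD * (1 + Real.log k) * (k : ℝ) ^ (1 - ε / 40) := by
      rw [hCC]; ring
    linarith
  have htot : ‖∑ q ∈ ModK k Q R, termq lam X Y k N q - ((k * I * L : ℝ) : ℂ)‖ ≤
      η * k * (1 + L) := by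
    have e1 : ∑ q ∈ ModK k Q R, termq lam X Y k N q - ((k * I * L : ℝ) : ℂ) =
        (∑ q ∈ ModK k Q R, termq lam X Y k N q - EE lam X Y k Q R N -
          ((k * I * L : ℝ) : ℂ)) + EE lam X Y k Q R N := by ring
    rw [e1]
    refine (norm_add_le _ _).trans ((add_le_add htot0 hEE).trans ?_)
    have h1 : 0 ≤ η * k := by positivity
    have h2 : 0 ≤ η * k * L := by positivity
    linarith
  have hre := (Complex.abs_re_le_norm (∑ q ∈ ModK k Q R, termq lam X Y k N q -
    ((k * I * L : ℝ) : ℂ))).trans htot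
  rw [Complex.sub_re, Complex.ofReal_re] at hre
  have := (abs_le.1 hre).1
  calc (k : ℝ) * (I * L - η * (1 + L)) = k * I * L - η * k * (1 + L) := by ring
    _ ≤ _ := by linarith

end H426AM
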