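import Pool.Agent.H426AM.GoodOf
import Pool.Agent.H426AM.NormA
import Pool.Agent.H426AM.MeanA
import Pool.Agent.H426AM.PairingA

/-!
The variance for a good modulus (task A14).
-/

open Finset MeasureTheory

namespace H426AM

open H343 H343.KF H336V H336V.PairA

theorem good (ε : ℝ) (hε : 0 < ε) (hε1 : ε ≤ 1) : ∃ (B : ℝ) (lam : ℝ → ℝ) (ε0 η X0 : ℝ),
    1 ≤ B ∧ Test B lam ∧ 0 < ε0 ∧ ε0 ≤ 1 / 100 ∧ 0 < η ∧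
    ∀ (X X1 : ℝ) (k K : ℕ), X0 ≤ X → X1 ≤ X → X ≤ 2 * X1 → K < k → k ≤ 2 * K → (k : ℝ) ≤ X →
      Real.log X * (1 / 2 + ε) ≤ Real.log k →
      RangeA ε0 X k ∧
      (‖EE lam X (k / X) k ⌈(2 * X1) ^ (1 + 4 * ε0) / K⌉₊ ⌊X1 ^ (1 / 2 - ε0)⌋₊
        ⌈Real.exp B * (2 * ⌊X1 ^ (1 / 2 - ε0)⌋₊) * (2 * K / X1)⌉₊‖ ≤ η * k →
      X * (Real.log k - 1 / 2 * Real.log X - ε * Real.log X) ≤ GV X k) :=
  good_of norm_sumA mean_sumA pairingA ε hε hε1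

end H426AM
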