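import Pool.Agent.H426AM.Block
import Pool.Agent.H426AM.Good
import Pool.Agent.H426AM.BlockNum

/-!
Task A15: the final theorem.
-/

open Finset MeasureTheory

namespace H426AM

open H343 H343.KF H336V H336V.PairA

lemma GV_nonneg (X : ℝ) (k : ℕ) : 0 ≤ GV X k := sum_nonneg fun _ _ => sq_nonneg _

open Classical in
theorem main (ε : ℝ) (hε : 0 < ε) : ∃ κ K0 : ℝ, 0 < κ ∧ ∀ K : ℕ, K0 ≤ K →
    (((Ioc K (2 * K)).filter (fun k : ℕ => ∃ X : ℝ, (k : ℝ) ≤ X ∧
      GV X k < X * (Real.log k - 1 / 2 * Real.log X - ε * Real.log X))).card : ℝ) ≤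
      (K : ℝ) ^ (1 - κ) := by
  set ε' : ℝ := min ε 1 with hε'
  have hε'0 : 0 < ε' := lt_min hε one_pos
  obtain ⟨B, lam, ε0, η, Xg, hB, hl, hε0, hε01, hη, hgood⟩ := good ε' hε'0 (min_le_right _ _)
  obtain ⟨Xb, hblock⟩ := block hB hl ε0 η hε0 hε01 hη
  obtain ⟨KL, hKL1, hKL⟩ := BlockNum.large 4 (ε0 / 30) (by positivity)
  refine ⟨ε0 / 6, max (max Xg Xb) (max KL 1), by positivity, ?_⟩
  intro K hK
  have hKg : Xg ≤ K := ((le_max_left _ _).trans (le_max_left _ _)).trans hK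
  have hKb : Xb ≤ K := ((le_max_right _ _).trans (le_max_left _ _)).trans hK
  have hKL' : KL ≤ K := ((le_max_left _ _).trans (le_max_right _ _)).trans hK
  have hK1r : (1 : ℝ) ≤ K := ((le_max_right _ _).trans (le_max_right _ _)).trans hK
  have hK1 : 1 ≤ K := by exact_mod_cast hK1r
  have hK0 : (0 : ℝ) < K := by linarith
  have hX1 : ∀ i : ℕ, (K : ℝ) ≤ 2 ^ i * K := by
    intro i
    have : (1 : ℝ) ≤ 2 ^ i := one_le_pow₀ (by norm_num)
    nlinarith
  -- the exceptional sets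
  have hex : ∀ i : ℕ, ∃ bad : Finset ℕ, (bad.card : ℝ) ≤ K * (K : ℝ) ^ (-(ε0 / 5)) ∧
      ((2 ^ i * (K : ℝ)) ^ (1 / 2 + ε0) ≤ 2 * K → ∀ k ∈ Ioc K (2 * K), k ∉ bad → ∀ X : ℝ,
        2 ^ i * (K : ℝ) ≤ X → X ≤ 2 * (2 ^ i * (K : ℝ)) → RangeA ε0 X k →
      ‖EE lam X (k / X) k ⌈(2 * (2 ^ i * (K : ℝ))) ^ (1 + 4 * ε0) / K⌉₊
        ⌊(2 ^ i * (K : ℝ)) ^ (1 / 2 - ε0)⌋₊
        ⌈Real.exp B * (2 * ⌊(2 ^ i * (K : ℝ)) ^ (1 / 2 - ε0)⌋₊) *
          (2 * K / (2 ^ i * (K : ℝ)))⌉₊‖ ≤ η * k) := by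
    intro i
    by_cases hc : (2 ^ i * (K : ℝ)) ^ (1 / 2 + ε0) ≤ 2 * K
    · obtain ⟨bad, _, h2, h3⟩ := hblock (2 ^ i * (K : ℝ)) K (hKb.trans (hX1 i)) hK1
        (by have := hX1 i; linarith) hc
      refine ⟨bad, h2.trans ?_, fun _ => h3⟩
      apply mul_le_mul_of_nonneg_left _ hK0.le
      exact Real.rpow_le_rpow_of_nonpos hK0 (hX1 i) (by linarith)
    · refine ⟨∅, ?_, fun h => absurd h hc⟩
      simp only [card_empty, Nat.cast_zero]
      positivity
  choose bad hbad1 hbad2 using hex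
  set I : ℕ := Nat.log 2 K + 3 with hI
  have hsub : (Ioc K (2 * K)).filter (fun k : ℕ => ∃ X : ℝ, (k : ℝ) ≤ X ∧
      GV X k < X * (Real.log k - 1 / 2 * Real.log X - ε * Real.log X)) ⊆
      (range I).biUnion bad := by
    intro k hk
    rw [mem_filter] at hk
    obtain ⟨hkI, X, hkX, hlt⟩ := hk
    have hkI' := mem_Ioc.1 hkI
    have hkK : (K : ℝ) < k := by exact_mod_cast hkI'.1
    have hk2 : (k : ℝ) ≤ 2 * K := by exact_mod_cast hkI'.2
    have hk0 : (0 : ℝ) < k := by linarith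
    have hX0 : 0 < X := by linarith
    have hX1' : 1 ≤ X := by linarith
    have hlogX : 0 ≤ Real.log X := Real.log_nonneg hX1'
    have hlt' : GV X k < X * (Real.log k - 1 / 2 * Real.log X - ε' * Real.log X) := by
      refine lt_of_lt_of_le hlt ?_
      have : ε' ≤ ε := min_le_left _ _
      gcongr
    have hpos : 0 < Real.log k - 1 / 2 * Real.log X - ε' * Real.log X := by
      by_contra h
      push Not at h
      have h1 : X * (Real.log k - 1 / 2 * Real.log X - ε' * Real.log X) ≤ 0 :=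
        mul_nonpos_of_nonneg_of_nonpos hX0.le h
      have := GV_nonneg X k
      linarith
    have hX2 : X ≤ (k : ℝ) ^ 2 := by
      have h1 : Real.log X ≤ Real.log ((k : ℝ) ^ 2) := by
        rw [Real.log_pow]
        push_cast
        nlinarith
      exact (Real.log_le_log_iff hX0 (by positivity)).1 h1
    -- the dyadic block
    have hXK1 : 1 ≤ X / K := by rw [le_div_iff₀ hK0]; linarith
    have hfl : 1 ≤ ⌊X / K⌋₊ := Nat.le_floor (by simpa using hXK1)
    set i : ℕ := Nat.log 2 ⌊X / K⌋₊ with hi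
    have hi1 : 2 ^ i ≤ ⌊X / K⌋₊ := Nat.pow_log_le_self 2 (by omega)
    have hi2 : ⌊X / K⌋₊ < 2 ^ (i + 1) := Nat.lt_pow_succ_log_self (by norm_num) _
    have hlow : 2 ^ i * (K : ℝ) ≤ X := by
      have h1 : ((2 ^ i : ℕ) : ℝ) ≤ X / K := by
        refine le_trans ?_ (Nat.floor_le (by positivity : 0 ≤ X / K))
        exact_mod_cast hi1
      rw [le_div_iff₀ hK0] at h1
      push_cast at h1
      exact h1
    have hhigh : X ≤ 2 * (2 ^ i * (K : ℝ)) := by
      have h1 : X / K < ((2 ^ (i + 1) : ℕ) : ℝ) := by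
        refine lt_of_lt_of_le (Nat.lt_floor_add_one _) ?_
        exact_mod_cast hi2
      rw [div_lt_iff₀ hK0] at h1
      push_cast at h1
      rw [pow_succ] at h1
      linarith
    have hiI : i < I := by
      have h1 : (2 : ℝ) ^ i ≤ 4 * K := by
        have h2 : 2 ^ i * (K : ℝ) ≤ 4 * K * K := by
          calc 2 ^ i * (K : ℝ) ≤ X := hlow
            _ ≤ (k : ℝ) ^ 2 := hX2
            _ ≤ (2 * K) ^ 2 := by gcongr
            _ = 4 * K * K := by ring
        exact le_of_mul_le_mul_right h2 hK0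
      have h3 : 2 ^ i ≤ 4 * K := by exact_mod_cast h1
      have h4 : K < 2 ^ (Nat.log 2 K + 1) := Nat.lt_pow_succ_log_self (by norm_num) K
      have h5 : 2 ^ i < 2 ^ I := by
        calc 2 ^ i ≤ 4 * K := h3
          _ < 4 * 2 ^ (Nat.log 2 K + 1) := by omega
          _ = 2 ^ I := by rw [hI]; ring
      exact (Nat.pow_lt_pow_iff_right (by norm_num)).1 h5
    obtain ⟨hr, hg⟩ := hgood X (2 ^ i * (K : ℝ)) k K (hKg.trans (by linarith)) hlow hhigh
      hkI'.1 hkI'.2 hkX (by nlinarith)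
    rw [mem_biUnion]
    refine ⟨i, mem_range.2 hiI, ?_⟩
    by_contra hnb
    have hcond : (2 ^ i * (K : ℝ)) ^ (1 / 2 + ε0) ≤ 2 * K := by
      calc (2 ^ i * (K : ℝ)) ^ (1 / 2 + ε0) ≤ X ^ (1 / 2 + ε0) :=
            Real.rpow_le_rpow (by positivity) hlow (by positivity)
        _ ≤ k := hr.hlow
        _ ≤ 2 * K := hk2
    have h := hg (hbad2 i hcond k hkI hnb X hlow hhigh hr)
    linarith
  have hcard : ((((Ioc K (2 * K)).filter (fun k : ℕ => ∃ X : ℝ, (k : ℝ) ≤ X ∧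
      GV X k < X * (Real.log k - 1 / 2 * Real.log X - ε * Real.log X))).card : ℕ) : ℝ) ≤
      ∑ i ∈ range I, ((bad i).card : ℝ) := by
    have h1 := (card_le_card hsub).trans card_biUnion_le
    exact_mod_cast h1
  refine hcard.trans ((sum_le_sum fun i _ => hbad1 i).trans ?_)
  rw [sum_const, card_range, nsmul_eq_mul]
  have hIle : (I : ℝ) ≤ 4 * (1 + Real.log K) ^ 3 := by
    have hl2 : 1 / 2 < Real.log 2 := by
      have := Real.log_two_gt_d9
      linarith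
    have h6 : ((Nat.log 2 K : ℕ) : ℝ) * Real.log 2 ≤ Real.log K := by
      have h7 : (2 : ℝ) ^ (Nat.log 2 K) ≤ K := by
        exact_mod_cast Nat.pow_log_le_self 2 (by omega)
      have h8 := Real.log_le_log (by positivity) h7
      rwa [Real.log_pow] at h8
    have hn0 : (0 : ℝ) ≤ ((Nat.log 2 K : ℕ) : ℝ) := by positivity
    have hlogK : 0 ≤ Real.log K := Real.log_nonneg hK1r
    rw [hI]
    push_cast
    have h9 : ((Nat.log 2 K : ℕ) : ℝ) ≤ 2 * Real.log K := by nlinarith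
    have h10 : (1 + Real.log K) ^ 3 ≥ 1 + 3 * Real.log K := by
      nlinarith [pow_nonneg hlogK 2, pow_nonneg hlogK 3]
    linarith
  calc (I : ℝ) * (K * (K : ℝ) ^ (-(ε0 / 5))) ≤
        (K : ℝ) ^ (ε0 / 30) * (K * (K : ℝ) ^ (-(ε0 / 5))) := by
        have := hIle.trans (hKL K hKL')
        gcongr
    _ = (K : ℝ) ^ (ε0 / 30 + (1 + -(ε0 / 5))) := by
        rw [Real.rpow_add hK0, Real.rpow_add hK0, Real.rpow_one]
    _ = (K : ℝ) ^ (1 - ε0 / 6) := by
        congr 1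
        ring

end H426AM
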