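import Pool.Agent.H426AM.Defs
import Pool.Agent.H336R2.V.Main

/-!
The variance for a good modulus (task A14), from the statements of A1, A2, A3.
-/

open Finset MeasureTheory

namespace H426AM

open H343 H343.KF H336V H336V.PairA

namespace GoodAux

/-- statement of A1 -/
def NormStmt : Prop := ∀ {B : ℝ} {lam : ℝ → ℝ} (_ : 1 ≤ B) (_ : Test B lam) (ε η : ℝ) (_ : 0 < ε)
    (_ : ε ≤ 1 / 100) (_ : 0 < η), ∃ X0 : ℝ, ∀ (X : ℝ) (k : ℕ), X0 ≤ X →
    RangeA ε X k → ∀ Q R N : ℕ, CutsA ε B X (k / X) Q R N →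
    ∑ n ∈ (range k).filter (fun n => n.Coprime k), (2 * (FF lam (k / X) k Q R N n).re) ^ 2 ≤
      2 * Nat.totient k * (k / X) * ((∫ v, lam v ^ 2 * Real.exp v) * LLK k Q R + η)

/-- statement of A2 -/
def MeanStmt : Prop := ∀ {B : ℝ} {lam : ℝ → ℝ} (_ : 1 ≤ B) (_ : Test B lam) (ε η : ℝ) (_ : 0 < ε)
    (_ : ε ≤ 1 / 100) (_ : 0 < η), ∃ X0 : ℝ, ∀ (X : ℝ) (k : ℕ), X0 ≤ X →
    RangeA ε X k → ∀ Q R N : ℕ, CutsA ε B X (k / X) Q R N →
    ‖∑ n ∈ (range k).filter (fun n => n.Coprime k), FF lam (k / X) k Q R N n‖ ≤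
      η * Nat.totient k * (k / X)

/-- statement of A3 -/
def PairStmt : Prop := ∀ {B : ℝ} {lam : ℝ → ℝ} (_ : 1 ≤ B) (_ : Test B lam) (ε η : ℝ) (_ : 0 < ε)
    (_ : ε ≤ 1 / 100) (_ : 0 < η), ∃ X0 : ℝ, ∀ (X : ℝ) (k : ℕ), X0 ≤ X →
    RangeA ε X k → ∀ Q R N : ℕ, CutsA ε B X (k / X) Q R N →
    ‖EE lam X (k / X) k Q R N‖ ≤ η / 4 * k →
    k * ((∫ v, lam v * Real.sinc (Real.pi * Real.exp v) * Real.exp v) * LLK k Q R
        - η * (1 + LLK k Q R)) ≤
      (∑ n ∈ (Icc 1 ⌊X⌋₊).filter (fun n => n.Coprime k),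
        (ArithmeticFunction.vonMangoldt n : ℂ) * FF lam (k / X) k Q R N n).re

end GoodAux

open GoodAux

open H336V.Main in
theorem good_of (hNorm : NormStmt) (hMean : MeanStmt) (hPair : PairStmt)
    (ε : ℝ) (hε : 0 < ε) (hε1 : ε ≤ 1) : ∃ (B : ℝ) (lam : ℝ → ℝ) (ε0 η X0 : ℝ),
    1 ≤ B ∧ Test B lam ∧ 0 < ε0 ∧ ε0 ≤ 1 / 100 ∧ 0 < η ∧
    ∀ (X X1 : ℝ) (k K : ℕ), X0 ≤ X → X1 ≤ X → X ≤ 2 * X1 → K < k → k ≤ 2 * K → (k : ℝ) ≤ X →
      Real.log X * (1 / 2 + ε) ≤ Real.log k →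
      RangeA ε0 X k ∧
      (‖EE lam X (k / X) k ⌈(2 * X1) ^ (1 + 4 * ε0) / K⌉₊ ⌊X1 ^ (1 / 2 - ε0)⌋₊
        ⌈Real.exp B * (2 * ⌊X1 ^ (1 / 2 - ε0)⌋₊) * (2 * K / X1)⌉₊‖ ≤ η * k →
      X * (Real.log k - 1 / 2 * Real.log X - ε * Real.log X) ≤ GV X k) := by
  -- parameters
  set η : ℝ := min (ε / 64) (1 / 100) with hηdef
  set ε0 : ℝ := min (ε / 40) (1 / 100) with hε0def
  have hη : 0 < η := by positivity
  have hε0 : 0 < ε0 := by positivity
  have hη1 : η ≤ ε / 64 := min_le_left _ _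
  have hη2 : η ≤ 1 / 100 := min_le_right _ _
  have hε1' : ε0 ≤ ε / 40 := min_le_left _ _
  have hε2 : ε0 ≤ 1 / 100 := min_le_right _ _
  obtain ⟨B, lam, hB, hlam, hI21, hI1⟩ := exists_lam η hη
  obtain ⟨X1', hX1'⟩ := hNorm hB hlam ε0 η hε0 hε2 hη
  obtain ⟨X2', hX2'⟩ := hMean hB hlam ε0 η hε0 hε2 hη
  obtain ⟨X3', hX3'⟩ := hPair hB hlam ε0 η hε0 hε2 hη
  obtain ⟨k1, hk1⟩ := LLK_lower (4 * ε0) η (by positivity) hη
  obtain ⟨k2, hk2⟩ := totient_log (2 / ε)
  set I1 := ∫ v, lam v * Real.sinc (Real.pi * Real.exp v) * Real.exp v with hI1def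
  set I2 := ∫ v, lam v ^ 2 * Real.exp v with hI2def
  set K0 : ℝ := max (max k1 k2) 16 with hK0
  have hK16 : (16 : ℝ) ≤ K0 := le_max_right _ _
  refine ⟨B, lam, ε0, η / 4, max (max (max X1' X2') (max X3' (K0 ^ 2)))
    (Real.exp (16 * Real.log 64 / ε)), hB, hlam, hε0, hε2, by positivity, ?_⟩
  intro X X1 k K hX hX1X hXX1 hKk hkK hkX hlogk
  have hXX1' : X1' ≤ X := le_trans (le_max_left _ _) (le_trans (le_max_left _ _) (le_trans (le_max_left _ _) hX))
  have hXX2' : X2' ≤ X := le_trans (le_max_right _ _) (le_trans (le_max_left _ _) (le_trans (le_max_left _ _) hX))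
  have hXX3' : X3' ≤ X := le_trans (le_max_left _ _) (le_trans (le_max_right _ _) (le_trans (le_max_left _ _) hX))
  have hXK : K0 ^ 2 ≤ X := le_trans (le_max_right _ _) (le_trans (le_max_right _ _) (le_trans (le_max_left _ _) hX))
  have hXE : Real.exp (16 * Real.log 64 / ε) ≤ X := (le_max_right _ _).trans hX
  have hX256 : (256 : ℝ) ≤ X := by nlinarith
  have hX0 : 0 < X := by linarith
  have hX10 : 0 < X1 := by linarith
  have hlogX : 0 < Real.log X := Real.log_pos (by linarith)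
  have hlog64 : Real.log 64 ≤ ε / 16 * Real.log X := by
    have h1 : 16 * Real.log 64 / ε ≤ Real.log X := by
      rw [← Real.log_exp (16 * Real.log 64 / ε)]
      exact Real.log_le_log (Real.exp_pos _) hXE
    rw [div_le_iff₀ hε] at h1
    linarith
  have hG0 : 0 ≤ GV X k := sum_nonneg fun _ _ => sq_nonneg _
  have hk : 1 ≤ k := by omega
  have hKpos : 1 ≤ K := by omega
  have hk0 : (0 : ℝ) < k := by exact_mod_cast hk
  have hK0' : (0 : ℝ) < K := by exact_mod_cast hKpos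
  have hk1' : (1 : ℝ) ≤ k := by exact_mod_cast hk
  have hKk' : (K : ℝ) ≤ k := by exact_mod_cast hKk.le
  have hkK' : (k : ℝ) ≤ 2 * K := by exact_mod_cast hkK
  have hlogk0 : 0 ≤ Real.log k := Real.log_nonneg hk1'
  have hlogkX : Real.log k ≤ Real.log X := Real.log_le_log hk0 hkX
  have hεX : 0 < ε * Real.log X := by positivity
  have hlk : Real.log X / 2 ≤ Real.log k := by nlinarith
  have hkK0 : K0 ≤ k := by
    have h1 : Real.log (K0 ^ 2) ≤ Real.log X := Real.log_le_log (by positivity) hXK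
    rw [Real.log_pow] at h1
    push_cast at h1
    have h2 : Real.log K0 ≤ Real.log k := by linarith
    exact (Real.log_le_log_iff (by positivity) hk0).1 h2
  have hkk1 : k1 ≤ k := ((le_max_left _ _).trans (le_max_left _ _)).trans hkK0
  have hkk2 : k2 ≤ k := ((le_max_right _ _).trans (le_max_left _ _)).trans hkK0
  have hk16 : (16 : ℝ) ≤ k := hK16.trans hkK0
  have hRange : RangeA ε0 X k := by
    refine ⟨by linarith, hkX, ?_⟩
    have h1 : Real.log (X ^ (1 / 2 + ε0)) ≤ Real.log k := by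
      rw [Real.log_rpow hX0]
      refine le_trans ?_ hlogk
      have : ε0 ≤ ε := by linarith
      nlinarith
    exact (Real.log_le_log_iff (by positivity) hk0).1 h1
  refine ⟨hRange, ?_⟩
  intro hEE
  set Q : ℕ := ⌈(2 * X1) ^ (1 + 4 * ε0) / K⌉₊ with hQ
  set R : ℕ := ⌊X1 ^ (1 / 2 - ε0)⌋₊ with hR
  set N : ℕ := ⌈Real.exp B * (2 * R) * (2 * K / X1)⌉₊ with hN
  have hkXp : 0 < (k : ℝ) / X := by positivity
  have hkX1 : (k : ℝ) / X ≤ 1 := by rw [div_le_one hX0]; exact hkX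
  have hX1r : (1 : ℝ) ≤ X := by linarith
  have hq1 : X ^ (4 * ε0) ≤ X ^ (4 * ε0) / (k / X) := by
    rw [le_div_iff₀ hkXp]
    have : 0 < X ^ (4 * ε0) := by positivity
    nlinarith
  have hq3 : X ^ (4 * ε0) / (k / X) ≤ (2 * X1) ^ (1 + 4 * ε0) / K := by
    have e1 : X ^ (4 * ε0) / (k / X) = X ^ (1 + 4 * ε0) / k := by
      rw [Real.rpow_add hX0, Real.rpow_one]
      field_simp
    rw [e1]
    have h1 : X ^ (1 + 4 * ε0) ≤ (2 * X1) ^ (1 + 4 * ε0) := by
      apply Real.rpow_le_rpow hX0.le hXX1 (by positivity)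
    gcongr
  have hq2 : (2 * X1) ^ (1 + 4 * ε0) / K ≤ Q := Nat.le_ceil _
  have hXε1 : 1 ≤ X ^ (4 * ε0) := Real.one_le_rpow hX1r (by positivity)
  have hRle' : (R : ℝ) ≤ X1 ^ (1 / 2 - ε0) := Nat.floor_le (by positivity)
  have hRle : (R : ℝ) ≤ X ^ (1 / 2 - ε0) := by
    refine hRle'.trans ?_
    apply Real.rpow_le_rpow hX10.le hX1X
    linarith
  have hCuts : CutsA ε0 B X (k / X) Q R N := by
    refine ⟨hq3.trans hq2, hRle, ?_⟩
    refine le_trans ?_ (Nat.le_ceil _)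
    have h1 : (k : ℝ) / X ≤ 2 * K / X1 := by
      apply div_le_div₀ (by positivity) hkK' hX10 hX1X
    have h2 : (R : ℝ) ≤ 2 * R := by
      have : (0 : ℝ) ≤ R := by positivity
      linarith
    gcongr
  have hQ1 : (1 : ℝ) ≤ Q := hXε1.trans (hq1.trans (hq3.trans hq2))
  have hQ2 : (Q : ℝ) ≤ 16 * (X ^ (1 + 4 * ε0) / k) := by
    have h0 := Nat.ceil_lt_add_one (a := (2 * X1) ^ (1 + 4 * ε0) / K) (by positivity)
    have h1 : 1 ≤ (2 * X1) ^ (1 + 4 * ε0) / K := hXε1.trans (hq1.trans hq3)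
    rw [← hQ] at h0
    have h2 : (2 * X1) ^ (1 + 4 * ε0) ≤ 4 * X ^ (1 + 4 * ε0) := by
      calc (2 * X1) ^ (1 + 4 * ε0) ≤ (2 * X) ^ (1 + 4 * ε0) := by
            apply Real.rpow_le_rpow (by positivity) (by linarith) (by positivity)
        _ = 2 ^ (1 + 4 * ε0) * X ^ (1 + 4 * ε0) := Real.mul_rpow (by norm_num) hX0.le
        _ ≤ 2 ^ (2 : ℝ) * X ^ (1 + 4 * ε0) := by
            apply mul_le_mul_of_nonneg_right _ (by positivity)
            apply Real.rpow_le_rpow_of_exponent_le (by norm_num)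
            linarith
        _ = 4 * X ^ (1 + 4 * ε0) := by norm_num
    have h3 : (2 * X1) ^ (1 + 4 * ε0) / K ≤ 8 * (X ^ (1 + 4 * ε0) / k) := by
      rw [div_le_iff₀ hK0']
      calc (2 * X1) ^ (1 + 4 * ε0) ≤ 4 * X ^ (1 + 4 * ε0) := h2
        _ = 4 * (X ^ (1 + 4 * ε0) / k) * k := by field_simp
        _ ≤ 4 * (X ^ (1 + 4 * ε0) / k) * (2 * K) := by gcongr
        _ = 8 * (X ^ (1 + 4 * ε0) / k) * K := by ring
    linarith
  have hX1r2 : X ^ (1 / 2 - ε0) / 2 ≤ X1 ^ (1 / 2 - ε0) := by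
    have h1 : X ^ (1 / 2 - ε0) ≤ (2 * X1) ^ (1 / 2 - ε0) :=
      Real.rpow_le_rpow hX0.le hXX1 (by linarith)
    have h2 : (2 : ℝ) ^ (1 / 2 - ε0) ≤ 2 := by
      calc (2 : ℝ) ^ (1 / 2 - ε0) ≤ (2 : ℝ) ^ (1 : ℝ) := by
            apply Real.rpow_le_rpow_of_exponent_le (by norm_num)
            linarith
        _ = 2 := Real.rpow_one _
    rw [Real.mul_rpow (by norm_num) hX10.le] at h1
    have h3 : (2 : ℝ) ^ (1 / 2 - ε0) * X1 ^ (1 / 2 - ε0) ≤ 2 * X1 ^ (1 / 2 - ε0) := by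
      gcongr
    linarith
  have hkr : 2 ≤ X1 ^ (1 / 2 - ε0) := by
    have h4 : (4 : ℝ) ≤ X ^ (1 / 2 - ε0) := by
      calc (4 : ℝ) = (256 : ℝ) ^ (1 / 4 : ℝ) := by
            rw [show (256 : ℝ) = 4 ^ (4 : ℝ) by norm_num, ← Real.rpow_mul (by norm_num)]
            norm_num
        _ ≤ X ^ (1 / 4 : ℝ) := by gcongr
        _ ≤ X ^ (1 / 2 - ε0) := by
            apply Real.rpow_le_rpow_of_exponent_le hX1r
            linarith
    linarith
  have hR2 : X ^ (1 / 2 - ε0) / 4 ≤ R := by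
    have := Nat.lt_floor_add_one (X1 ^ (1 / 2 - ε0))
    rw [← hR] at this
    linarith
  have hRk : (R : ℝ) ≤ k := by
    refine hRle.trans (le_trans ?_ hRange.hlow)
    apply Real.rpow_le_rpow_of_exponent_le hX1r
    linarith
  have hXp1 : 0 < X ^ (1 / 2 - ε0) := by positivity
  have hR0 : (0 : ℝ) < R := by linarith
  have hQ0 : (0 : ℝ) < Q := by linarith
  set T : ℝ := Real.log k - 1 / 2 * Real.log X with hT
  have hlogRQ : T - 5 * ε0 * Real.log X - Real.log 64 ≤ Real.log (R / Q) := by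
    have h1 : X ^ (1 / 2 - ε0) / 4 / (16 * (X ^ (1 + 4 * ε0) / k)) ≤ R / Q := by
      gcongr
    have h2 : 0 < X ^ (1 / 2 - ε0) / 4 / (16 * (X ^ (1 + 4 * ε0) / k)) := by positivity
    refine le_trans (le_of_eq ?_) (Real.log_le_log h2 h1)
    rw [Real.log_div (by positivity) (by positivity), Real.log_div (by positivity) (by norm_num),
      Real.log_mul (by norm_num) (by positivity), Real.log_div (by positivity) (by positivity),
      Real.log_rpow hX0, Real.log_rpow hX0,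
      show (64 : ℝ) = 4 * 16 by norm_num, Real.log_mul (by norm_num) (by norm_num), hT]
    ring
  have hek : ε0 * Real.log X ≤ ε / 40 * Real.log X := by gcongr
  have hηk : η * Real.log k ≤ ε / 64 * Real.log X := by gcongr
  set Λ : ℝ := Real.log (R / Q) - η * Real.log k with hΛ
  have hΛ1 : T - ε / 4 * Real.log X ≤ Λ := by
    rw [hΛ]
    have : 5 * ε0 * Real.log X = 5 * (ε0 * Real.log X) := by ring
    linarith
  have hTε : ε * Real.log X ≤ T := by rw [hT]; linarith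
  have hΛ0 : 0 ≤ Λ := by linarith
  have hRQ0 : 0 ≤ Real.log (R / Q) := by
    have : 0 ≤ η * Real.log k := by positivity
    linarith
  have hQR : Q ≤ R := by
    have h1 : (1 : ℝ) ≤ R / Q := by
      by_contra h
      push Not at h
      have := Real.log_neg (by positivity) h
      linarith
    rw [le_div_iff₀ hQ0, one_mul] at h1
    exact_mod_cast h1
  have hRk' : R ≤ k := by exact_mod_cast hRk
  have hkQ : (k : ℝ) ^ (4 * ε0) ≤ Q := by
    refine le_trans ?_ (hq1.trans (hq3.trans hq2))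
    exact Real.rpow_le_rpow hk0.le hkX (by positivity)
  have hLL := hk1 k Q R hkk1 hkQ hQR hRk'
  rw [← hΛ] at hLL
  have hΛX : Λ ≤ Real.log X := by
    have h1 : Real.log (R / Q) ≤ Real.log k := by
      apply Real.log_le_log (by positivity)
      rw [div_le_iff₀ hQ0]
      nlinarith
    have : 0 ≤ η * Real.log k := by positivity
    rw [hΛ]; linarith
  have htot : (0 : ℝ) < Nat.totient k := by exact_mod_cast Nat.totient_pos.2 hk
  have hL1 : 1 ≤ LLK k Q R := by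
    refine le_trans ?_ hLL
    have h1 := hk2 k hkk2
    have h2 : 3 / 4 * ε * Real.log k ≤ Λ := by
      have h3 : 3 / 4 * ε * Real.log k ≤ 3 / 4 * ε * Real.log X := by gcongr
      linarith
    calc (1 : ℝ) ≤ 3 / 4 * ε * (2 / ε) := by field_simp; norm_num
      _ ≤ 3 / 4 * ε * ((Nat.totient k : ℝ) / k * Real.log k) := by gcongr
      _ = (Nat.totient k : ℝ) / k * (3 / 4 * ε * Real.log k) := by ring
      _ ≤ (Nat.totient k : ℝ) / k * Λ := by gcongr
  -- Cauchy-Schwarz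
  set F := FF lam (k / X) k Q R N with hF
  set S := (range k).filter (fun n => n.Coprime k) with hS
  have hnorm := hX1' X k hXX1' hRange Q R N hCuts
  have hmean := hX2' X k hXX2' hRange Q R N hCuts
  have hpair := hX3' X k hXX3' hRange Q R N hCuts hEE
  rw [← pair_eq lam X (k / X) k Q R N hk] at hpair
  have hCS : (∑ A ∈ S, (psiA X k A - X / Nat.totient k) * (2 * (F A).re)) ^ 2 ≤
      GV X k * ∑ A ∈ S, (2 * (F A).re) ^ 2 := by
    have := sum_mul_sq_le_sq_mul_sq S (fun A => psiA X k A - X / Nat.totient k)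
      (fun A => 2 * (F A).re)
    exact this
  have hPeq : ∑ A ∈ S, (psiA X k A - X / Nat.totient k) * (2 * (F A).re) =
      2 * (∑ A ∈ S, (psiA X k A : ℂ) * F A).re - 2 * (X / Nat.totient k) * (∑ A ∈ S, F A).re := by
    rw [Complex.re_sum, Complex.re_sum, mul_sum, mul_sum, ← sum_sub_distrib]
    apply sum_congr rfl
    intro A _
    rw [Complex.re_ofReal_mul]
    ring
  have hP : 2 * (k : ℝ) * (I1 * LLK k Q R - η * (2 + LLK k Q R)) ≤
      ∑ A ∈ S, (psiA X k A - X / Nat.totient k) * (2 * (F A).re) := by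
    rw [hPeq]
    have h1 : (∑ A ∈ S, F A).re ≤ η * Nat.totient k * (k / X) :=
      (Complex.re_le_norm _).trans hmean
    have h2 : 2 * (X / Nat.totient k) * (∑ A ∈ S, F A).re ≤ 2 * η * k := by
      calc 2 * (X / Nat.totient k) * (∑ A ∈ S, F A).re ≤
          2 * (X / Nat.totient k) * (η * Nat.totient k * (k / X)) := by gcongr
        _ = 2 * η * k := by field_simp
    have h3 : (k : ℝ) * (I1 * LLK k Q R - η * (1 + LLK k Q R)) ≤
      (∑ A ∈ S, (psiA X k A : ℂ) * F A).re := hpair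
    nlinarith
  have hfin := final X k (Nat.totient k) (LLK k Q R) I1 I2 η (GV X k) _ _ Λ hX0 hk0 htot hη hη2 hG0
    hI21 hI1 hL1 hLL hCS hP hnorm
  refine le_trans ?_ hfin
  have h16 : 16 * η * Λ ≤ ε / 4 * Real.log X := by
    calc 16 * η * Λ ≤ 16 * (ε / 64) * Real.log X := by gcongr
      _ = _ := by ring
  calc X * (T - ε * Real.log X) ≤ X * (Λ - 16 * η * Λ) := by
        apply mul_le_mul_of_nonneg_left _ hX0.le
        linarith
    _ = X * Λ * (1 - 16 * η) := by ring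

end H426AM
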