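import Pool.Agent.H426AM.Defs
import Pool.Agent.H336R2.V.PairC

/-!
Stubs for the variance of primes modulo almost all moduli (MP_5dd4bb_nt).
Each task proves exactly one (or a few) of these theorems, in the namespace `H426AM`
(file `Pool/Agent/H426AM/<Task>.lean`).
-/

open Finset MeasureTheory

namespace H426AM.Stubs

open H343 H343.KF H336V H336V.PairA H426AM

/-! ### A1 NormA : norm of the test vector -/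

theorem norm_sumA {B : ℝ} {lam : ℝ → ℝ} (hB : 1 ≤ B) (hl : Test B lam) (ε η : ℝ) (hε : 0 < ε)
    (hε1 : ε ≤ 1 / 100) (hη : 0 < η) : ∃ X0 : ℝ, ∀ (X : ℝ) (k : ℕ), X0 ≤ X →
    RangeA ε X k → ∀ Q R N : ℕ, CutsA ε B X (k / X) Q R N →
    ∑ n ∈ (range k).filter (fun n => n.Coprime k), (2 * (FF lam (k / X) k Q R N n).re) ^ 2 ≤
      2 * Nat.totient k * (k / X) * ((∫ v, lam v ^ 2 * Real.exp v) * LLK k Q R + η) := sorry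

/-! ### A2 MeanA : mean of the test vector -/

theorem mean_sumA {B : ℝ} {lam : ℝ → ℝ} (hB : 1 ≤ B) (hl : Test B lam) (ε η : ℝ) (hε : 0 < ε)
    (hε1 : ε ≤ 1 / 100) (hη : 0 < η) : ∃ X0 : ℝ, ∀ (X : ℝ) (k : ℕ), X0 ≤ X →
    RangeA ε X k → ∀ Q R N : ℕ, CutsA ε B X (k / X) Q R N →
    ‖∑ n ∈ (range k).filter (fun n => n.Coprime k), FF lam (k / X) k Q R N n‖ ≤
      η * Nat.totient k * (k / X) := sorry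

/-! ### A3 PairingA : pairing of the primes with the test vector -/

theorem pairingA {B : ℝ} {lam : ℝ → ℝ} (hB : 1 ≤ B) (hl : Test B lam) (ε η : ℝ) (hε : 0 < ε)
    (hε1 : ε ≤ 1 / 100) (hη : 0 < η) : ∃ X0 : ℝ, ∀ (X : ℝ) (k : ℕ), X0 ≤ X →
    RangeA ε X k → ∀ Q R N : ℕ, CutsA ε B X (k / X) Q R N →
    ‖EE lam X (k / X) k Q R N‖ ≤ η / 4 * k →
    k * ((∫ v, lam v * Real.sinc (Real.pi * Real.exp v) * Real.exp v) * LLK k Q R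
        - η * (1 + LLK k Q R)) ≤
      (∑ n ∈ (Icc 1 ⌊X⌋₊).filter (fun n => n.Coprime k),
        (ArithmeticFunction.vonMangoldt n : ℂ) * FF lam (k / X) k Q R N n).re := sorry

/-! ### A4 EELe : Abel summation -/

theorem EE_le (lam : ℝ → ℝ) (X Y : ℝ) (hX : 1 ≤ X) (hY : 0 < Y) (k Q R N : ℕ)
    (W : ℝ) (h1 : ∀ y : ℕ, y ≤ ⌊X⌋₊ → ∀ τ : ℝ, |τ| ≤ 1 → ‖FT (lt lam τ) Y k Q R N y‖ ≤ W)
    (h2 : ∀ y : ℕ, y ≤ ⌊X⌋₊ → ∀ τ : ℝ, |τ| ≤ 1 →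
      ‖FT (lt (fun v => lam v * Real.exp v) τ) Y k Q R N y‖ ≤ W) :
    ‖EE lam X Y k Q R N‖ ≤ (1 + 2 * Real.pi) * W := sorry

/-! ### A5 FTSplit : splitting by conductors -/

theorem FT_split (l : ℝ → ℂ) (Y : ℝ) (k Q R N y D0 J : ℕ) (hk : 1 ≤ k) (hD0 : 1 ≤ D0)
    (hJ : R ≤ 2 ^ J * D0) :
    ‖FT l Y k Q R N y‖ ≤
      ∑ q ∈ Mod Q R, 1 / (Nat.totient q : ℝ) ^ 2 *
        ∑ d ∈ q.divisors.filter (fun d => d ≠ 1 ∧ d ≤ D0), KeySharp.GGs l Y N y (q / d) d +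
      ∑ j ∈ range J, ∑ m ∈ Icc 1 R, ‖UU l Y k Q R N y m (2 ^ j * D0)‖ := sorry

/-! ### A6 Small : small conductors -/

theorem small_bound (M ε : ℝ) (hM : 0 < M) (hε : 0 < ε) (hε1 : ε ≤ 1 / 100) :
    ∃ X0 : ℝ, ∀ (X Y : ℝ) (Q R N D0 y : ℕ), X0 ≤ X → 0 < Y → Y ≤ 1 → X ^ (4 * ε) / Y ≤ Q →
      (R : ℝ) ≤ X → (D0 : ℝ) ≤ 2 * X ^ ε → (y : ℝ) ≤ 2 * X →
      ∀ (B : ℝ) (l : ℝ → ℂ), CTest B M l →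
      ∑ q ∈ Mod Q R, 1 / (Nat.totient q : ℝ) ^ 2 *
        ∑ d ∈ q.divisors.filter (fun d => d ≠ 1 ∧ d ≤ D0), KeySharp.GGs l Y N y (q / d) d ≤
      X * Y * X ^ (-(ε / 2)) := sorry

/-! ### A7 CTUniform : uniform family of test functions -/

theorem ctest_uniform {B : ℝ} {lam : ℝ → ℝ} (hl : Test B lam) : ∃ M : ℝ, 0 < M ∧
    ∀ τ : ℝ, |τ| ≤ 1 → CT B M (lt lam τ) := sorry

/-! ### A8 SepUniform : separation of the sharp cut-offs `n ≤ y`, uniformly for `y ≤ Z` -/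

theorem sep_uniform : ∃ C : ℝ, 0 < C ∧ ∀ Z : ℕ, 1 ≤ Z → ∃ G0 : ℝ → ℝ, Integrable G0 ∧
    (∀ η, 0 ≤ G0 η) ∧ (∫ η, G0 η) ≤ C * (1 + Real.log Z) ∧
    ∀ y : ℕ, y ≤ Z → ∃ G : ℝ → ℂ, Continuous G ∧ (∀ η, ‖G η‖ ≤ G0 η) ∧
      ∀ n : ℕ, 1 ≤ n → (∫ η, G η * ex (η * Real.log n)) = if n ≤ y then 1 else 0 := sorry

/-! ### A9 UUSep : separation of variables -/

theorem UU_sep {B M : ℝ} {l : ℝ → ℂ} (hM : 0 < M) (hl : CT B M l) (Y : ℝ) (hY : 0 < Y)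
    (k Q R N y m D A Z : ℕ) (hD : 1 ≤ D) (hm : 1 ≤ m)
    (hA : Real.exp B * (2 * D * m) * Y < A + 1) (hAN : A ≤ N) (hy : y ≤ Z)
    (G0 : ℝ → ℝ) (hG0 : Integrable G0) (G : ℝ → ℂ) (hGc : Continuous G)
    (hG : ∀ η, ‖G η‖ ≤ G0 η)
    (hGy : ∀ n : ℕ, 1 ≤ n → (∫ η, G η * ex (η * Real.log n)) = if n ≤ y then 1 else 0) :
    ‖UU l Y k Q R N y m D‖ ≤
      ∫ ξ : ℝ, M / (1 + ξ ^ 2) * ∫ η, G0 η * ‖SS Q R m D A Z ξ η k‖ := sorry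

/-! ### A10 DualLS : dual multiplicative large sieve -/

theorem dual_ls (K D : ℕ) (c : (Σ q : ℕ, DirichletCharacter ℂ q) → ℂ) :
    ∑ k ∈ Ioc K (2 * K), ‖∑ p ∈ PC D, c p * p.2⁻¹ (-(k : ZMod p.1))‖ ^ 2 ≤
      24 * ((2 * K : ℝ) + (D : ℝ) ^ 2) * ∑ p ∈ PC D, ‖c p‖ ^ 2 := sorry

/-! ### A11 SSMean : mean square over the moduli -/

theorem SS_mean (δ : ℝ) (hδ : 0 < δ) : ∃ C : ℝ, 0 < C ∧ ∀ (K Q R m D A Z : ℕ) (ξ η : ℝ),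
    1 ≤ D → 1 ≤ m →
    ∑ k ∈ Ioc K (2 * K), ‖SS Q R m D A Z ξ η k‖ ^ 2 ≤
      C * ((D * m * (A + 1) * (Z + 1) : ℕ) : ℝ) ^ δ * ((K : ℝ) + (D : ℝ) ^ 2) *
        ((A * Z : ℝ) + (D : ℝ) ^ 2) * (A * Z) / ((D : ℝ) ^ 3 * (m : ℝ) ^ 4) := sorry

/-! ### A12 IntMean : first mean of the double integral -/

theorem int_mean {M : ℝ} (hM : 0 < M) (G0 : ℝ → ℝ) (hG0 : Integrable G0) (hG00 : ∀ η, 0 ≤ G0 η)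
    (K Q R m D A Z : ℕ) (S : ℝ) (hS : 0 ≤ S)
    (h : ∀ ξ η : ℝ, ∑ k ∈ Ioc K (2 * K), ‖SS Q R m D A Z ξ η k‖ ^ 2 ≤ S) :
    ∑ k ∈ Ioc K (2 * K), ∫ ξ : ℝ, M / (1 + ξ ^ 2) * ∫ η, G0 η * ‖SS Q R m D A Z ξ η k‖ ≤
      M * Real.pi * (∫ η, G0 η) * Real.sqrt (K * S) := sorry

/-! ### A13 Block : almost all moduli in `(K,2K]`, all `X ∈ [X1,2X1]` -/

theorem block {B : ℝ} {lam : ℝ → ℝ} (hB : 1 ≤ B) (hl : Test B lam) (ε η : ℝ) (hε : 0 < ε)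
    (hε1 : ε ≤ 1 / 100) (hη : 0 < η) : ∃ X0 : ℝ, ∀ (X1 : ℝ) (K : ℕ), X0 ≤ X1 → 1 ≤ K →
    (K : ℝ) ≤ 2 * X1 → X1 ^ (1 / 2 + ε) ≤ 2 * K → ∃ bad : Finset ℕ, bad ⊆ Ioc K (2 * K) ∧
      (bad.card : ℝ) ≤ K * X1 ^ (-(ε / 5)) ∧
      ∀ k ∈ Ioc K (2 * K), k ∉ bad → ∀ X : ℝ, X1 ≤ X → X ≤ 2 * X1 → RangeA ε X k →
      ‖EE lam X (k / X) k ⌈(2 * X1) ^ (1 + 4 * ε) / K⌉₊ ⌊X1 ^ (1 / 2 - ε)⌋₊
        ⌈Real.exp B * (2 * ⌊X1 ^ (1 / 2 - ε)⌋₊) * (2 * K / X1)⌉₊‖ ≤ η * k := sorry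

/-! ### A14 Good : the variance for a good modulus -/

theorem good (ε : ℝ) (hε : 0 < ε) (hε1 : ε ≤ 1) : ∃ (B : ℝ) (lam : ℝ → ℝ) (ε0 η X0 : ℝ),
    1 ≤ B ∧ Test B lam ∧ 0 < ε0 ∧ ε0 ≤ 1 / 100 ∧ 0 < η ∧
    ∀ (X X1 : ℝ) (k K : ℕ), X0 ≤ X → X1 ≤ X → X ≤ 2 * X1 → K < k → k ≤ 2 * K → (k : ℝ) ≤ X →
      Real.log X * (1 / 2 + ε) ≤ Real.log k →
      RangeA ε0 X k ∧
      (‖EE lam X (k / X) k ⌈(2 * X1) ^ (1 + 4 * ε0) / K⌉₊ ⌊X1 ^ (1 / 2 - ε0)⌋₊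
        ⌈Real.exp B * (2 * ⌊X1 ^ (1 / 2 - ε0)⌋₊) * (2 * K / X1)⌉₊‖ ≤ η * k →
      X * (Real.log k - 1 / 2 * Real.log X - ε * Real.log X) ≤ GV X k) := sorry

/-! ### A15 Final -/

open Classical in
theorem main (ε : ℝ) (hε : 0 < ε) : ∃ κ K0 : ℝ, 0 < κ ∧ ∀ K : ℕ, K0 ≤ K →
    (((Ioc K (2 * K)).filter (fun k : ℕ => ∃ X : ℝ, (k : ℝ) ≤ X ∧
      GV X k < X * (Real.log k - 1 / 2 * Real.log X - ε * Real.log X))).card : ℝ) ≤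
      (K : ℝ) ^ (1 - κ) := sorry

end H426AM.Stubs
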